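import Mathlib

/-!
A count of monomials.
-/

namespace Pool.Agent.R855.Sing

theorem class_bound {n : ℕ} {K : Type} [DecidableEq K] (a : Fin (n + 1) → K) :
    ∃ i0 : Fin (n + 1), ∀ v : K, (Finset.univ.filter (fun i => a i = v)).card ≤
      (Finset.univ.filter (fun i => a i = a i0)).card := by
  obtain ⟨i0, _, h⟩ := Finset.exists_max_image (Finset.univ : Finset (Fin (n + 1)))
    (fun j => (Finset.univ.filter (fun i => a i = a j)).card) ⟨0, Finset.mem_univ _⟩
  refine ⟨i0, fun v => ?_⟩
  by_cases hv : ∃ j, a j = v
  · obtain ⟨j, rfl⟩ := hv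
    exact h j (Finset.mem_univ _)
  · push Not at hv
    rw [Finset.filter_false_of_mem (fun i _ => hv i)]
    simp

theorem count {N : ℕ} (hN : 2 ≤ N) {K E : Type} [DecidableEq K] [Fintype E]
    (hE : (N + 1) * (N + 2) ≤ 2 * Fintype.card E)
    (a : Fin (N + 1) → K) (i1 i2 : Fin (N + 1)) (ha : a i1 ≠ a i2) (b : E → K) :
    (Finset.univ.filter (fun p : Fin (N + 1) × Fin (N + 1) => a p.1 ≠ a p.2)).card + 2 ≤
      (Finset.univ.filter (fun p : Fin (N + 1) × E => a p.1 ≠ b p.2)).card := by
  classical
  obtain ⟨i0, hi0⟩ := class_bound a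
  set M := (Finset.univ.filter (fun i => a i = a i0)).card with hM
  have hc : ∀ v, (Finset.univ.filter (fun i => a i = v)).card +
      (Finset.univ.filter (fun i => a i ≠ v)).card = N + 1 := by
    intro v
    rw [Finset.card_filter_add_card_filter_not, Finset.card_univ, Fintype.card_fin]
  have hMN : M ≤ N := by
    by_contra hcon
    have h1 := hc (a i0)
    have h2 : (Finset.univ.filter (fun i => a i ≠ a i0)).card = 0 := by omega
    rw [Finset.card_eq_zero] at h2
    have h3 : ∀ i, a i = a i0 := by
      intro i
      by_contra hne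
      have : i ∈ Finset.univ.filter (fun i => a i ≠ a i0) := by
        rw [Finset.mem_filter]; exact ⟨Finset.mem_univ _, hne⟩
      rw [h2] at this
      exact absurd this (Finset.notMem_empty _)
    exact ha ((h3 i1).trans (h3 i2).symm)
  set μ := N + 1 - M with hμ
  have hlow : ∀ v, μ ≤ (Finset.univ.filter (fun i => a i ≠ v)).card := by
    intro v
    have h1 := hc v
    have h2 := hi0 v
    omega
  have h1 : Fintype.card E * μ ≤
      (Finset.univ.filter (fun p : Fin (N + 1) × E => a p.1 ≠ b p.2)).card := by
    have h2 : (Finset.univ.filter (fun p : Fin (N + 1) × E => a p.1 ≠ b p.2)).card =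
        ∑ m : E, (Finset.univ.filter (fun i => a i ≠ b m)).card := by
      rw [Finset.card_filter, Fintype.sum_prod_type_right]
      refine Finset.sum_congr rfl fun m _ => ?_
      rw [Finset.card_filter]
    rw [h2]
    calc Fintype.card E * μ = ∑ _m : E, μ := by
          rw [Finset.sum_const, Finset.card_univ, smul_eq_mul]
      _ ≤ _ := Finset.sum_le_sum fun m _ => hlow _
  have h3 : (Finset.univ.filter (fun p : Fin (N + 1) × Fin (N + 1) => a p.1 ≠ a p.2)).card ≤
      M * μ + μ * N := by
    have h2 : (Finset.univ.filter (fun p : Fin (N + 1) × Fin (N + 1) => a p.1 ≠ a p.2)).card =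
        ∑ j : Fin (N + 1), (Finset.univ.filter (fun i => a i ≠ a j)).card := by
      rw [Finset.card_filter, Fintype.sum_prod_type_right]
      refine Finset.sum_congr rfl fun m _ => ?_
      rw [Finset.card_filter]
    rw [h2, ← Finset.sum_filter_add_sum_filter_not Finset.univ (fun j => a j = a i0)]
    apply add_le_add
    · calc _ ≤ ∑ _j ∈ Finset.univ.filter (fun j => a j = a i0), μ := by
            refine Finset.sum_le_sum fun j hj => ?_
            rw [(Finset.mem_filter.mp hj).2]
            have := hc (a i0)
            omega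
        _ = M * μ := by rw [Finset.sum_const, smul_eq_mul]
    · calc _ ≤ ∑ _j ∈ Finset.univ.filter (fun j => ¬ a j = a i0), N := by
            refine Finset.sum_le_sum fun j hj => ?_
            have h4 := hc (a j)
            have h5 : 0 < (Finset.univ.filter (fun i => a i = a j)).card :=
              Finset.card_pos.mpr ⟨j, by rw [Finset.mem_filter]; exact ⟨Finset.mem_univ _, rfl⟩⟩
            omega
        _ = μ * N := by
            rw [Finset.sum_const, smul_eq_mul]
            have h4 := hc (a i0)
            have h5 : (Finset.univ.filter (fun j => ¬ a j = a i0)).card = μ := by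
              have : (Finset.univ.filter (fun j => a j ≠ a i0)).card = μ := by omega
              exact this
            rw [h5]
  have h4 : 1 ≤ μ := by omega
  have h5 : M + N + 2 ≤ Fintype.card E := by nlinarith
  nlinarith

end Pool.Agent.R855.Sing
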