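import Pool.Agent.R855.Sing.MA
import Pool.Agent.R855.Sing.Cnt
import Pool.Agent.Helper819.Gr.V1
import Pool.Agent.Helper819.Diag2

/-!
Automorphisms act on the normal spaces of orbits without pseudo-reflections.
-/

open MvPolynomial

namespace Pool.Agent.R855.Sing

open Pool.Agent.Helper819.Apolar Pool.Agent.Helper819.Dyn Pool.Agent.Helper819

noncomputable section

set_option linter.unusedSectionVars false

variable {k : Type} [Field k] {N d : ℕ}

/-- the tangent space of the orbit of `f` -/
def Tn (f : Ix N d → k) : Submodule k (Ix N d → k) := LinearMap.range (xiL f)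

theorem mem_Tn (f v : Ix N d → k) : v ∈ Tn f ↔ ∃ Y, Dyn.xi Y f = v := Iff.rfl

/-- fixed vectors -/
def VA (A : Matrix (Fin (N + 1)) (Fin (N + 1)) k) : Submodule k (Ix N d → k) :=
  LinearMap.ker (actL A - LinearMap.id)

theorem mem_VA (A : Matrix (Fin (N + 1)) (Fin (N + 1)) k) (v : Ix N d → k) :
    v ∈ VA A ↔ actT A v = v := by
  unfold VA
  rw [LinearMap.mem_ker, LinearMap.sub_apply, sub_eq_zero]
  rfl

theorem act_xi' (A B : Matrix (Fin (N + 1)) (Fin (N + 1)) k) (hAB : A * B = 1)
    (Y : Matrix (Fin (N + 1)) (Fin (N + 1)) k) (c : Ix N d → k) :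
    actT A (Dyn.xi Y c) = Dyn.xi (B * Y * A) (actT A c) := by
  let S := DualNumber k
  let ε : S := DualNumber.eps
  have hε : ε * ε = 0 := DualNumber.eps_mul_eps
  let AS : Matrix (Fin (N + 1)) (Fin (N + 1)) S := A.map (algebraMap k S)
  let cS : Ix N d → S := fun p => algebraMap k S (c p)
  have h1 : actT AS (actT (oneEps ε Y) cS) =
      actT (oneEps ε (B * Y * A)) (actT AS cS) := by
    rw [actT_actT, actT_actT]
    congr 1
    change (1 + ε • Y.map (algebraMap k S)) * A.map (algebraMap k S) =
      A.map (algebraMap k S) * (1 + ε • (B * Y * A).map (algebraMap k S))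
    rw [Matrix.add_mul, Matrix.mul_add, Matrix.one_mul, Matrix.mul_one, Matrix.smul_mul,
      Matrix.mul_smul, ← Matrix.map_mul, ← Matrix.map_mul]
    have h2 : A * (B * Y * A) = Y * A := by
      rw [Matrix.mul_assoc, ← Matrix.mul_assoc A, hAB, Matrix.one_mul]
    rw [h2]
  have hAS : ∀ x : Ix N d → k, actT AS (fun p => algebraMap k S (x p)) =
      fun p => algebraMap k S (actT A x p) := by
    intro x
    funext p
    exact (map_actT (algebraMap k S) A x p).symm
  have h2 : actT (oneEps ε Y) cS = cS + ε • (fun p => algebraMap k S (Dyn.xi Y c p)) := by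
    funext p
    exact actT_eps ε hε Y c p
  rw [h2, actT_add, actT_smul, hAS, hAS] at h1
  funext p
  have h4 := congrFun h1 p
  rw [actT_eps ε hε] at h4
  rw [Pi.add_apply, Pi.smul_apply, smul_eq_mul] at h4
  have h5 := add_left_cancel h4
  have h6 := congrArg TrivSqZeroExt.snd h5
  have h7 : ∀ a : k, TrivSqZeroExt.snd (ε * algebraMap k S a) = a := by
    intro a
    change TrivSqZeroExt.snd (TrivSqZeroExt.inr (1 : k) * TrivSqZeroExt.inl a) = a
    simp
  rw [h7, h7] at h6
  exact h6

/-- weights of a diagonal matrix -/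
def wt (l : Fin (N + 1) → k) (p : Ix N d) : k :=
  (∏ j ∈ Finset.univ.erase p.1, l j) * Gr.mon l p.2.1

theorem actT_diagonal (l : Fin (N + 1) → k) (c : Ix N d → k) (p : Ix N d) :
    actT (Matrix.diagonal l) c p = wt l p * c p := by
  let A' : Gr.Mt Bool (N + 1) k := fun b => if b then Matrix.diagonal l
    else ((Matrix.diagonal l).adjugate).transpose
  have e1 : actT (Matrix.diagonal l) c = (Gr.ZA N d).act A' c := by
    change cf (act (Matrix.diagonal l) (tup c)) = cf (Gr.zact A' (tup c))
    congr 1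
  rw [e1]
  refine (Gr.ZA_diagonal A' (fun i => ∏ j ∈ Finset.univ.erase i, l j) l rfl ?_ c p)
  change ((Matrix.diagonal l).adjugate).transpose = _
  rw [Matrix.adjugate_diagonal, Matrix.diagonal_transpose]

theorem wt_eq_one_iff {l : Fin (N + 1) → k} (hl : ∀ i, l i ≠ 0) (p : Ix N d) :
    wt l p = 1 ↔ (∏ j, l j) * Gr.mon l p.2.1 = l p.1 := by
  unfold wt
  rw [← Finset.mul_prod_erase Finset.univ l (Finset.mem_univ p.1)]
  constructor
  · intro h
    rw [mul_assoc, h, mul_one]
  · intro h
    apply mul_left_cancel₀ (hl p.1)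
    rw [mul_one, ← mul_assoc]
    exact h

theorem card_Ex (hd : 2 ≤ d) : (N + 1) * (N + 2) ≤ 2 * Fintype.card (Ex N d) := by
  classical
  let φ : Sym2 (Fin (N + 1)) → Ex N d := Sym2.lift ⟨fun i j =>
    ⟨Finsupp.single 0 (d - 2) + (Finsupp.single i 1 + Finsupp.single j 1), by
      rw [mem_Ex, map_add, map_add, Finsupp.degree_single, Finsupp.degree_single,
        Finsupp.degree_single]
      omega⟩, by
      intro i j
      apply Subtype.ext
      change _ + (_ + _) = _ + (_ + _)
      rw [add_comm (Finsupp.single i 1)]⟩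
  have hφ : Function.Injective φ := by
    intro a b
    induction a using Sym2.ind with | _ i j =>
    induction b using Sym2.ind with | _ i' j' =>
    intro h
    have h1 := congrArg Subtype.val h
    have h2 : (Finsupp.single i 1 + Finsupp.single j 1 : Fin (N + 1) →₀ ℕ) =
        Finsupp.single i' 1 + Finsupp.single j' 1 := add_left_cancel h1
    rw [Sym2.eq_iff]
    rcases (Finsupp.single_add_single_eq_single_add_single (M := ℕ) one_ne_zero one_ne_zero).mp h2
      with ⟨e1, e2⟩ | ⟨_, e1, e2⟩ | ⟨e0, _⟩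
    · exact Or.inl ⟨e1, e2⟩
    · exact Or.inr ⟨e1, e2⟩
    · omega
  have h1 := Fintype.card_le_of_injective φ hφ
  rw [Sym2.card, Fintype.card_fin] at h1
  have h2 : (N + 1 + 1).choose 2 * 2 = (N + 2) * (N + 1) := by
    rw [Nat.choose_two_right]
    exact Nat.div_mul_cancel (Nat.even_mul_pred_self _).two_dvd
  nlinarith

end

end Pool.Agent.R855.Sing
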