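import Pool.Agent.R855.Sing.Cod

/-!
Automorphisms act on the normal spaces of orbits without pseudo-reflections (continued).
-/

open MvPolynomial

namespace Pool.Agent.R855.Sing

open Pool.Agent.Helper819.Apolar Pool.Agent.Helper819.Dyn Pool.Agent.Helper819

noncomputable section

set_option linter.unusedSectionVars false

variable {k : Type} [Field k] {N d : ℕ}

theorem inv_diagonal {l : Fin (N + 1) → k} (hl : ∀ i, l i ≠ 0) :
    Matrix.diagonal l * Matrix.diagonal (fun i => (l i)⁻¹) = 1 := by
  rw [Matrix.diagonal_mul_diagonal, ← Matrix.diagonal_one]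
  congr 1
  funext i
  exact mul_inv_cancel₀ (hl i)

theorem conj_single {l : Fin (N + 1) → k} (i j : Fin (N + 1)) :
    Matrix.diagonal (fun i => (l i)⁻¹) * Matrix.single i j 1 * Matrix.diagonal l =
      ((l i)⁻¹ * l j) • Matrix.single i j (1 : k) := by
  ext a b
  rw [Matrix.mul_diagonal, Matrix.diagonal_mul, Matrix.smul_apply, smul_eq_mul]
  rw [Matrix.single_apply]
  split_ifs with h
  · obtain ⟨rfl, rfl⟩ := h
    ring
  · ring

theorem Tn_stable {f : Ix N d → k} {A B : Matrix (Fin (N + 1)) (Fin (N + 1)) k}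
    (hAB : A * B = 1) {v : Ix N d → k} (hv : v ∈ Tn f) : actT A v ∈ Tn (actT A f) := by
  rw [mem_Tn] at hv ⊢
  obtain ⟨Y, rfl⟩ := hv
  exact ⟨B * Y * A, (act_xi' A B hAB Y f).symm⟩

theorem finrank_VA_le (l : Fin (N + 1) → k) [DecidableEq k] :
    Module.finrank k (VA (d := d) (Matrix.diagonal l)) ≤
      (Finset.univ.filter (fun p : Ix N d => wt l p = 1)).card := by
  let φ : VA (d := d) (Matrix.diagonal l) →ₗ[k] ({p : Ix N d // wt l p = 1} → k) :=
    (LinearMap.funLeft k k Subtype.val) ∘ₗ (VA (d := d) (Matrix.diagonal l)).subtype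
  have hφ : Function.Injective φ := by
    rw [injective_iff_map_eq_zero]
    intro v hv
    apply Subtype.ext
    funext p
    by_cases hp : wt l p = 1
    · exact congrFun hv ⟨p, hp⟩
    · have h1 := (mem_VA _ _).mp v.2
      have h2 := congrFun h1 p
      rw [actT_diagonal] at h2
      have h3 : (wt l p - 1) * v.1 p = 0 := by linear_combination h2
      exact (mul_eq_zero.mp h3).resolve_left (sub_ne_zero.mpr hp)
  have h1 := LinearMap.finrank_le_finrank_of_injective hφ
  rw [Module.finrank_pi, Fintype.card_subtype] at h1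
  exact h1

theorem cod_diag (hN : 2 ≤ N) (hd : 2 ≤ d) {f : Ix N d → k} {l : Fin (N + 1) → k}
    (hl : ∀ i, l i ≠ 0) (hfix : actT (Matrix.diagonal l) f = f) (i1 i2 : Fin (N + 1))
    (h12 : l i1 ≠ l i2) :
    Module.finrank k (Tn f ⊔ VA (d := d) (Matrix.diagonal l) : Submodule k (Ix N d → k)) + 2 ≤
      Fintype.card (Ix N d) := by
  classical
  let S : Finset (Fin (N + 1) × Fin (N + 1)) := Finset.univ.filter (fun p => l p.1 ≠ l p.2)
  let E : Fin (N + 1) × Fin (N + 1) → (Ix N d → k) := fun p =>
    Dyn.xi (Matrix.single p.1 p.2 1) f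
  let W : Submodule k (Ix N d → k) := Submodule.span k (S.image E : Finset (Ix N d → k))
  have hT : Tn f ≤ W ⊔ VA (Matrix.diagonal l) := by
    intro v hv
    obtain ⟨Y, rfl⟩ := (mem_Tn f v).mp hv
    have h1 : Dyn.xi Y f = ∑ i, ∑ j, Y i j • E (i, j) := by
      change xiL f Y = _
      conv_lhs => rw [Matrix.matrix_eq_sum_single Y]
      rw [map_sum]
      refine Finset.sum_congr rfl fun i _ => ?_
      rw [map_sum]
      refine Finset.sum_congr rfl fun j _ => ?_
      have h2 : Matrix.single i j (Y i j) = Y i j • Matrix.single i j (1 : k) := by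
        rw [Matrix.smul_single, smul_eq_mul, mul_one]
      rw [h2, map_smul]
      rfl
    rw [h1]
    refine Submodule.sum_mem _ fun i _ => Submodule.sum_mem _ fun j _ => ?_
    apply Submodule.smul_mem
    by_cases hij : l i = l j
    · apply Submodule.mem_sup_right
      rw [mem_VA]
      change actT (Matrix.diagonal l) (Dyn.xi (Matrix.single i j 1) f) = _
      rw [act_xi' _ _ (inv_diagonal hl), conj_single, hfix, hij, inv_mul_cancel₀ (hl j), one_smul]
    · apply Submodule.mem_sup_left
      apply Submodule.subset_span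
      rw [Finset.mem_coe, Finset.mem_image]
      exact ⟨(i, j), Finset.mem_filter.mpr ⟨Finset.mem_univ _, hij⟩, rfl⟩
  have h1 : Module.finrank k (Tn f ⊔ VA (Matrix.diagonal l) : Submodule k (Ix N d → k)) ≤
      Module.finrank k (W ⊔ VA (Matrix.diagonal l) : Submodule k (Ix N d → k)) :=
    Submodule.finrank_mono (sup_le hT le_sup_right)
  have h2 := Submodule.finrank_add_le_finrank_add_finrank W
    (VA (d := d) (Matrix.diagonal l))
  have h3 : Module.finrank k W ≤ S.card :=
    (finrank_span_finset_le_card _).trans Finset.card_image_le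
  have h4 := finrank_VA_le (d := d) l
  have h5 := count hN (card_Ex (N := N) hd) l i1 i2 h12
    (fun m : Ex N d => (∏ j, l j) * Gr.mon l m.1)
  have h6 : (Finset.univ.filter (fun p : Ix N d => wt l p = 1)).card +
      (Finset.univ.filter (fun p : Ix N d => ¬ wt l p = 1)).card = Fintype.card (Ix N d) := by
    rw [Finset.card_filter_add_card_filter_not, Finset.card_univ]
  have h7 : (Finset.univ.filter (fun p : Ix N d => ¬ wt l p = 1)) =
      (Finset.univ.filter (fun p : Fin (N + 1) × Ex N d =>
        l p.1 ≠ (∏ j, l j) * Gr.mon l p.2.1)) := by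
    apply Finset.filter_congr
    intro p _
    rw [wt_eq_one_iff hl]
    exact not_congr eq_comm
  rw [h7] at h6
  have h8 : S.card + 2 ≤ (Finset.univ.filter (fun p : Fin (N + 1) × Ex N d =>
        l p.1 ≠ (∏ j, l j) * Gr.mon l p.2.1)).card := h5
  omega

theorem fix_mod_diag {f : Ix N d → k} {l : Fin (N + 1) → k}
    (hl : ∀ i, l i ≠ 0) (hfix : actT (Matrix.diagonal l) f = f) {v : Ix N d → k}
    (hv : actT (Matrix.diagonal l) v - v ∈ Tn f) : v ∈ Tn f ⊔ VA (Matrix.diagonal l) := by
  classical
  let T0 : Module.End k (Ix N d → k) := actL (Matrix.diagonal l)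
  let q : Polynomial k := ∏ a ∈ ((Finset.univ : Finset (Ix N d)).image (wt l)).erase 1,
    (Polynomial.X - Polynomial.C a)
  have hT0 : ∀ (s : Polynomial k) (c : Ix N d → k) (p : Ix N d),
      (Polynomial.aeval T0 s c) p = s.eval (wt l p) * c p := by
    intro s c p
    induction s using Polynomial.induction_on' with
    | add a b ha hb =>
      rw [map_add, LinearMap.add_apply, Pi.add_apply, ha, hb, Polynomial.eval_add]
      ring
    | monomial m a =>
      rw [Polynomial.aeval_monomial, Polynomial.eval_monomial]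
      have h1 : ∀ m : ℕ, ((T0 ^ m) c) p = (wt l p) ^ m * c p := by
        intro m
        induction m with
        | zero => simp
        | succ m ih =>
          rw [pow_succ', Module.End.mul_apply]
          change actT (Matrix.diagonal l) ((T0 ^ m) c) p = _
          rw [actT_diagonal, ih]
          ring
      have h2 : (((algebraMap k (Module.End k (Ix N d → k))) a * T0 ^ m) c) p =
          a * ((T0 ^ m) c) p := by
        rw [Module.End.mul_apply, Module.algebraMap_end_apply]
        rfl
      rw [h2, h1]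
      ring
  have hstab : ∀ c ∈ Tn f, T0 c ∈ Tn f := by
    intro c hc
    have h1 := Tn_stable (inv_diagonal hl) hc
    rw [hfix] at h1
    exact h1
  have hstab2 : ∀ (s : Polynomial k), ∀ c ∈ Tn f, Polynomial.aeval T0 s c ∈ Tn f := by
    intro s c hc
    induction s using Polynomial.induction_on' with
    | add a b ha hb =>
      rw [map_add, LinearMap.add_apply]
      exact Submodule.add_mem _ ha hb
    | monomial m a =>
      rw [Polynomial.aeval_monomial, Module.End.mul_apply, Module.algebraMap_end_apply]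
      apply Submodule.smul_mem
      induction m with
      | zero => simpa using hc
      | succ m ih =>
        rw [pow_succ', Module.End.mul_apply]
        exact hstab _ ih
  have hq1 : q.eval 1 ≠ 0 := by
    change (∏ a ∈ ((Finset.univ : Finset (Ix N d)).image (wt l)).erase 1,
      (Polynomial.X - Polynomial.C a)).eval 1 ≠ 0
    rw [Polynomial.eval_prod]
    apply Finset.prod_ne_zero_iff.mpr
    intro a ha
    rw [Polynomial.eval_sub, Polynomial.eval_X, Polynomial.eval_C]
    exact sub_ne_zero.mpr (Finset.ne_of_mem_erase ha).symm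
  have hq2 : ∀ p : Ix N d, wt l p ≠ 1 → q.eval (wt l p) = 0 := by
    intro p hp
    change (∏ a ∈ ((Finset.univ : Finset (Ix N d)).image (wt l)).erase 1,
      (Polynomial.X - Polynomial.C a)).eval (wt l p) = 0
    rw [Polynomial.eval_prod]
    apply Finset.prod_eq_zero (Finset.mem_erase.mpr ⟨hp, Finset.mem_image_of_mem _
      (Finset.mem_univ p)⟩)
    rw [Polynomial.eval_sub, Polynomial.eval_X, Polynomial.eval_C, sub_self]
  have h1 : Polynomial.aeval T0 q v ∈ VA (d := d) (Matrix.diagonal l) := by
    rw [mem_VA]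
    funext p
    rw [actT_diagonal, hT0]
    by_cases hp : wt l p = 1
    · rw [hp, one_mul]
    · rw [hq2 p hp]
      ring
  obtain ⟨s, hs⟩ : (Polynomial.X - Polynomial.C (1 : k)) ∣ q - Polynomial.C (q.eval 1) := by
    rw [Polynomial.dvd_iff_isRoot, Polynomial.IsRoot.def, Polynomial.eval_sub,
      Polynomial.eval_C, sub_self]
  have h2 : Polynomial.aeval T0 q v - q.eval 1 • v ∈ Tn f := by
    have h3 : Polynomial.aeval T0 q v - q.eval 1 • v =
        Polynomial.aeval T0 s (actT (Matrix.diagonal l) v - v) := by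
      funext p
      rw [Pi.sub_apply, Pi.smul_apply, hT0, hT0, Pi.sub_apply, actT_diagonal, smul_eq_mul]
      have h4 := congrArg (Polynomial.eval (wt l p)) hs
      rw [Polynomial.eval_sub, Polynomial.eval_C, Polynomial.eval_mul, Polynomial.eval_sub,
        Polynomial.eval_X, Polynomial.eval_C] at h4
      linear_combination (v p) * h4
    rw [h3]
    exact hstab2 s _ hv
  have h3 : v = (q.eval 1)⁻¹ • (-(Polynomial.aeval T0 q v - q.eval 1 • v) +
      Polynomial.aeval T0 q v) := by
    rw [neg_sub, sub_add_cancel, smul_smul, inv_mul_cancel₀ hq1, one_smul]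
  rw [h3]
  apply Submodule.smul_mem
  exact Submodule.add_mem_sup (Submodule.neg_mem _ h2) h1

/-- vectors fixed modulo the tangent space -/
def WA (f : Ix N d → k) (A : Matrix (Fin (N + 1)) (Fin (N + 1)) k) :
    Submodule k (Ix N d → k) := (Tn f).comap (actL A - LinearMap.id)

theorem mem_WA (f : Ix N d → k) (A : Matrix (Fin (N + 1)) (Fin (N + 1)) k) (v : Ix N d → k) :
    v ∈ WA f A ↔ actT A v - v ∈ Tn f := Iff.rfl

theorem cod [IsAlgClosed k] [CharZero k] (hN : 2 ≤ N) (hd : 2 ≤ d) {f : Ix N d → k}
    (hf : NZ (tup f)) (A : Matrix (Fin (N + 1)) (Fin (N + 1)) k) (hA : A.det ≠ 0)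
    (hfix : actT A f = f) (hns : ∀ a : k, A ≠ a • 1) :
    Module.finrank k (WA f A) + 2 ≤ Fintype.card (Ix N d) := by
  obtain ⟨g, l, hg, hgl⟩ := exists_diag hd hf A hA hfix
  have hgu : IsUnit g.det := isUnit_iff_ne_zero.mpr hg
  have hl : ∀ i, l i ≠ 0 := by
    have h1 := congrArg Matrix.det hgl
    rw [Matrix.det_mul, Matrix.det_mul, Matrix.det_diagonal] at h1
    have h2 : ∏ i, l i ≠ 0 := by
      intro h0
      rw [h0, mul_zero] at h1
      exact mul_ne_zero hA hg h1
    exact fun i => Finset.prod_ne_zero_iff.mp h2 i (Finset.mem_univ i)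
  have h12 : ∃ i1 i2, l i1 ≠ l i2 := by
    by_contra hcon
    push Not at hcon
    apply hns (l 0)
    have h1 : Matrix.diagonal l = l 0 • (1 : Matrix (Fin (N + 1)) (Fin (N + 1)) k) := by
      rw [← Matrix.diagonal_one, ← Matrix.diagonal_smul]
      congr 1
      funext i
      rw [hcon i 0]
      simp
    rw [h1, Matrix.mul_smul, Matrix.mul_one] at hgl
    calc A = A * g * g⁻¹ := by rw [Matrix.mul_assoc, Matrix.mul_nonsing_inv _ hgu, Matrix.mul_one]
      _ = l 0 • 1 := by rw [hgl, Matrix.smul_mul, Matrix.mul_nonsing_inv _ hgu]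
  obtain ⟨i1, i2, h12⟩ := h12
  set f' := actT g f with hf'
  have hfix' : actT (Matrix.diagonal l) f' = f' := by
    rw [hf', actT_actT, ← hgl, ← actT_actT, hfix]
  let φ : WA f A →ₗ[k] WA f' (Matrix.diagonal l) :=
    ((actL g).domRestrict (WA f A)).codRestrict _ (by
      intro v
      change actT g v.1 ∈ WA f' (Matrix.diagonal l)
      rw [mem_WA, actT_actT, ← hgl, ← actT_actT]
      have h1 : actT g (actT A v.1) - actT g v.1 = actT g (actT A v.1 - v.1) :=
        (map_sub (actL g) _ _).symm
      rw [h1]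
      exact Tn_stable (Matrix.mul_nonsing_inv _ hgu) v.2)
  have hφ : Function.Injective φ := by
    intro a b hab
    apply Subtype.ext
    have h1 : actT g a.1 = actT g b.1 := congrArg Subtype.val hab
    have h2 := congrArg (actT g⁻¹) h1
    rwa [actT_actT, actT_actT, Matrix.mul_nonsing_inv _ hgu, actT_one, actT_one] at h2
  have h1 := LinearMap.finrank_le_finrank_of_injective hφ
  have h2 : Module.finrank k (WA f' (Matrix.diagonal l)) ≤
      Module.finrank k (Tn f' ⊔ VA (Matrix.diagonal l) : Submodule k (Ix N d → k)) :=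
    Submodule.finrank_mono fun v hv => fix_mod_diag hl hfix' hv
  have h3 := cod_diag hN hd hl hfix' i1 i2 h12
  omega

end

end Pool.Agent.R855.Sing
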