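import Pool.Agent.Helper819.DynDefs

/-!
The moduli spaces of endomorphisms of projective space as schemes.
-/

open MvPolynomial

namespace Pool.Agent.R855.Sing

open Pool.Agent.Helper819.Dyn

noncomputable section

/-- Regular functions on `End_d^N ⊂ ℙ^ν`: functions which are locally quotients of two forms of
the same degree in the coefficients. -/
def IsReg {k : Type} [Field k] {N d : ℕ} (h : EndTuple k N d → k) : Prop :=
  ∀ F : EndTuple k N d, ∃ (e : ℕ) (P Q : MvPolynomial (Fin (N + 1) × (Fin (N + 1) →₀ ℕ)) k),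
    P.IsHomogeneous e ∧ Q.IsHomogeneous e ∧ eval (coords F) Q ≠ 0 ∧
    ∀ G : EndTuple k N d, eval (coords G) Q ≠ 0 → h G = eval (coords G) P / eval (coords G) Q

/-- `h` is a `PGL_{N+1}`-invariant regular function on `End_d^N`. -/
def IsInvReg {k : Type} [Field k] {N d : ℕ} (h : EndTuple k N d → k) : Prop :=
  IsReg h ∧ ∀ (φ : GL (Fin (N + 1)) k) (F G : EndTuple k N d), G.1 = conj φ F.1 → h G = h F

theorem IsReg.mul {k : Type} [Field k] {N d : ℕ} {a b : EndTuple k N d → k} (ha : IsReg a)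
    (hb : IsReg b) : IsReg (a * b) := by
  intro F
  obtain ⟨m, P, Q, hmP, hmQ, hQ, h1⟩ := ha F
  obtain ⟨m', P', Q', hmP', hmQ', hQ', h2⟩ := hb F
  refine ⟨m + m', P * P', Q * Q', hmP.mul hmP', hmQ.mul hmQ',
    by rw [map_mul]; exact mul_ne_zero hQ hQ', fun G hne => ?_⟩
  rw [map_mul] at hne
  rw [Pi.mul_apply, h1 G (left_ne_zero_of_mul hne),
    h2 G (right_ne_zero_of_mul hne), map_mul, map_mul, div_mul_div_comm]

theorem IsReg.add {k : Type} [Field k] {N d : ℕ} {a b : EndTuple k N d → k} (ha : IsReg a)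
    (hb : IsReg b) : IsReg (a + b) := by
  intro F
  obtain ⟨m, P, Q, hmP, hmQ, hQ, h1⟩ := ha F
  obtain ⟨m', P', Q', hmP', hmQ', hQ', h2⟩ := hb F
  refine ⟨m + m', P * Q' + Q * P', Q * Q', (hmP.mul hmQ').add (hmQ.mul hmP'),
    hmQ.mul hmQ', by rw [map_mul]; exact mul_ne_zero hQ hQ', fun G hne => ?_⟩
  rw [map_mul] at hne
  rw [Pi.add_apply, h1 G (left_ne_zero_of_mul hne),
    h2 G (right_ne_zero_of_mul hne), map_add, map_mul, map_mul, map_mul,
    div_add_div _ _ (left_ne_zero_of_mul hne) (right_ne_zero_of_mul hne)]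

theorem IsReg.const {k : Type} [Field k] {N d : ℕ} (a : k) :
    IsReg (fun _ : EndTuple k N d => a) := by
  intro F
  refine ⟨0, C a, 1, isHomogeneous_C _ _, isHomogeneous_one _ _,
    by rw [map_one]; exact one_ne_zero, fun G _ => ?_⟩
  rw [map_one, eval_C, div_one]

/-- The algebra `𝒪(End_d^N)^{PGL_{N+1}}` of invariant regular functions. -/
def InvSub (k : Type) [Field k] (N d : ℕ) : Subalgebra k (EndTuple k N d → k) where
  carrier := {h | IsInvReg h}
  mul_mem' := fun ha hb => ⟨ha.1.mul hb.1, fun φ F G h => by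
    rw [Pi.mul_apply, Pi.mul_apply, ha.2 φ F G h, hb.2 φ F G h]⟩
  add_mem' := fun ha hb => ⟨ha.1.add hb.1, fun φ F G h => by
    rw [Pi.add_apply, Pi.add_apply, ha.2 φ F G h, hb.2 φ F G h]⟩
  algebraMap_mem' := fun a => ⟨IsReg.const a, fun _ _ _ _ => rfl⟩

/-- The ring `𝒪(End_d^N)^{PGL_{N+1}}`. -/
abbrev InvRing (k : Type) [Field k] (N d : ℕ) : Type := ↥(InvSub k N d)

/-- The moduli space `M_d^N = End_d^N / PGL_{N+1}` over `k`: the spectrum of the ring of invariant
regular functions. -/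
def ModuliScheme (k : Type) [Field k] (N d : ℕ) : AlgebraicGeometry.Scheme :=
  AlgebraicGeometry.Spec (CommRingCat.of (InvRing k N d))

/-- Evaluation of invariant functions at a map. -/
def evF {k : Type} [Field k] {N d : ℕ} (F : EndTuple k N d) : InvRing k N d →+* k where
  toFun h := h.1 F
  map_one' := rfl
  map_mul' _ _ := rfl
  map_zero' := rfl
  map_add' _ _ := rfl

/-- The point of `M_d^N` given by the map `F`. -/
def point {k : Type} [Field k] {N d : ℕ} (F : EndTuple k N d) : ModuliScheme k N d :=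
  (⟨RingHom.ker (evF F), RingHom.ker_isPrime _⟩ : PrimeSpectrum (InvRing k N d))

/-- The local ring of a scheme at a point is not regular. -/
def IsSingularPoint (X : AlgebraicGeometry.Scheme) (x : X) : Prop :=
  ¬ IsRegularLocalRing (X.presheaf.stalk x)

/-- `F` has a nontrivial automorphism: some `φ` in `PGL_{N+1}(k)`, `φ ≠ 1`, satisfies
`φ⁻¹ ∘ F ∘ φ = F` as a map of `ℙ^N`. -/
def HasAut {k : Type} [Field k] {N d : ℕ} (F : EndTuple k N d) : Prop :=
  ∃ φ : GL (Fin (N + 1)) k, (∀ a : k, (φ : Matrix (Fin (N + 1)) (Fin (N + 1)) k) ≠ a • 1) ∧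
    ∃ c : kˣ, conj φ F.1 = fun i => C (c : k) * F.1 i

end

end Pool.Agent.R855.Sing
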