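import Pool.Agent.R855.Sing.Nak
import Pool.Agent.Helper834.EC.Dim1

/-!
Dimension theory: the height of the origin, Krull dimension and transcendence degree.
-/

open MvPolynomial

namespace Pool.Agent.R855.Sing

noncomputable section

variable {k : Type} [Field k] {n : ℕ}

instance mx_isMaximal : (mx k n).IsMaximal :=
  RingHom.ker_isMaximal_of_surjective (eval 0) fun a => ⟨C a, eval_C a⟩

instance mx_isPrime : (mx k n).IsPrime := Ideal.IsMaximal.isPrime inferInstance

/-- translation -/
def trl (x : Fin n → k) : MvPolynomial (Fin n) k ≃ₐ[k] MvPolynomial (Fin n) k :=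
  AlgEquiv.ofAlgHom (aeval fun i => X i + C (x i)) (aeval fun i => X i - C (x i))
    (by
      apply algHom_ext
      intro i
      rw [AlgHom.comp_apply, aeval_X, map_sub, aeval_X, algHom_C]
      simp)
    (by
      apply algHom_ext
      intro i
      rw [AlgHom.comp_apply, aeval_X, map_add, aeval_X, algHom_C]
      simp)

theorem eval_trl (x : Fin n → k) (p : MvPolynomial (Fin n) k) :
    eval 0 (trl x p) = eval x p := by
  have h1 : (eval (0 : Fin n → k)).comp (trl x).toAlgHom.toRingHom = eval x := by
    apply MvPolynomial.ringHom_ext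
    · intro a
      change eval 0 (aeval _ (C a)) = _
      rw [algHom_C]
      simp
    · intro i
      change eval 0 (aeval _ (X i)) = _
      rw [aeval_X]
      simp
  exact congrArg (fun φ => φ p) h1

theorem le_height_mx [IsAlgClosed k] : (n : ℕ∞) ≤ (mx k n).height := by
  have h1 : ringKrullDim (MvPolynomial (Fin n) k) = n := by
    rw [MvPolynomial.ringKrullDim_of_isNoetherianRing, ringKrullDim_eq_zero_of_field]
    simp
  have h2 : ringKrullDim (MvPolynomial (Fin n) k) ≤ ((mx k n).height : WithBot ℕ∞) := by
    rw [ringKrullDim_le_iff_isMaximal_height_le]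
    intro M hM
    obtain ⟨x, hx⟩ := (isMaximal_iff_eq_vanishingIdeal_singleton (K := k)).mp hM
    have h3 : M = (mx k n).comap (trl x).toRingEquiv := by
      ext p
      rw [hx, mem_vanishingIdeal_singleton_iff]
      change _ ↔ trl x p ∈ mx k n
      rw [mem_mx, eval_trl]
      rfl
    rw [h3, RingEquiv.height_comap]
  rw [h1] at h2
  exact_mod_cast h2

/-- Krull dimension is at most the transcendence degree. -/
theorem krull_le {B L : Type} [CommRing B] [IsDomain B] [Algebra k B] [CommRing L] [Algebra k L]
    (φ : B →ₐ[k] L) (hφ : Function.Injective φ) (htr : Algebra.trdeg k L ≤ n) :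
    ringKrullDim B ≤ n := by
  by_contra hcon
  have h1 : ((n + 1 : ℕ) : WithBot ℕ∞) ≤ ringKrullDim B := by
    by_contra h2
    push Not at h2
    apply hcon
    cases hB : ringKrullDim B with
    | bot => exact bot_le
    | coe m =>
      rw [hB] at h2
      have h3 : m < ((n + 1 : ℕ) : ℕ∞) := by exact_mod_cast h2
      have h4 : m ≤ (n : ℕ∞) := by
        rw [Nat.cast_add, Nat.cast_one] at h3
        exact (ENat.lt_add_one_iff (ENat.natCast_ne_top n)).mp h3
      exact_mod_cast h4
  obtain ⟨p, hp⟩ := Order.le_krullDim_iff.mp h1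
  have h2 : ∀ i : Fin p.length, ∃ b, b ∈ (p i.succ).asIdeal ∧ b ∉ (p i.castSucc).asIdeal := by
    intro i
    have h3 : p i.castSucc < p i.succ := p.step i
    exact Set.not_subset.mp fun h => h3.not_ge h
  choose b hb1 hb2 using h2
  let A := Algebra.adjoin k (Set.range b)
  have hfin : Algebra.FiniteType k A := by
    have h3 : (Set.range b).Finite := Set.finite_range b
    have h4 : (Algebra.adjoin k (Set.range b)).FG := by
      rw [← h3.coe_toFinset]
      exact Subalgebra.fg_adjoin_finset _
    exact (Subalgebra.fg_iff_finiteType _).mp h4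
  obtain ⟨s, hs1, hs2⟩ := Pool.Agent.Helper834.EC.exists_ringKrullDim_eq_trdeg k A
  have h3 : Algebra.trdeg k A ≤ n :=
    (trdeg_le_of_injective (φ.comp A.val)
      (hφ.comp Subtype.val_injective)).trans htr
  rw [hs2] at h3
  have h4 : s ≤ n := by exact_mod_cast h3
  have h5 : ((n + 1 : ℕ) : WithBot ℕ∞) ≤ ringKrullDim A := by
    rw [ringKrullDim, Order.le_krullDim_iff]
    refine ⟨⟨p.length, fun i => PrimeSpectrum.comap (algebraMap A B) (p i), fun i => ?_⟩, hp⟩
    change PrimeSpectrum.comap (algebraMap A B) (p i.castSucc) <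
      PrimeSpectrum.comap (algebraMap A B) (p i.succ)
    refine lt_of_le_of_ne ?_ ?_
    · have h0 : p i.castSucc < p i.succ := p.step i
      exact Ideal.comap_mono h0.le
    · intro heq
      have h6 : (PrimeSpectrum.comap (algebraMap A B) (p i.castSucc)).asIdeal =
        (PrimeSpectrum.comap (algebraMap A B) (p i.succ)).asIdeal := by
        rw [heq]
      have h7 : (⟨b i, Algebra.subset_adjoin ⟨i, rfl⟩⟩ : A) ∈
          (PrimeSpectrum.comap (algebraMap A B) (p i.succ)).asIdeal := hb1 i
      rw [← h6] at h7
      exact hb2 i h7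
  rw [hs1] at h5
  have h6 : n + 1 ≤ s := by exact_mod_cast h5
  omega

theorem trdeg_loc : Algebra.trdeg k (Localization.AtPrime (mx k n)) ≤ n := by
  have h1 : Algebra.IsAlgebraic (MvPolynomial (Fin n) k) (Localization.AtPrime (mx k n)) :=
    IsLocalization.isAlgebraic (Localization.AtPrime (mx k n)) (mx k n).primeCompl
  have h2 : IsDomain (Localization.AtPrime (mx k n)) := inferInstance
  have h3 : FaithfulSMul (MvPolynomial (Fin n) k) (Localization.AtPrime (mx k n)) := by
    rw [faithfulSMul_iff_algebraMap_injective]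
    exact IsLocalization.injective _ (mx k n).primeCompl_le_nonZeroDivisors
  have h4 := trdeg_add_eq k (MvPolynomial (Fin n) k)
    (A := Localization.AtPrime (mx k n))
  rw [trdeg_eq_zero (R := MvPolynomial (Fin n) k), add_zero,
    MvPolynomial.trdeg_of_isDomain] at h4
  rw [← h4]
  simp

end

end Pool.Agent.R855.Sing
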