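import Pool.Agent.R855.Sing.Cod2

/-!
The stabiliser of a nondegenerate tuple is finite.
-/

open MvPolynomial

namespace Pool.Agent.R855.Sing

open Pool.Agent.Helper819.Apolar Pool.Agent.Helper819.Dyn Pool.Agent.Helper819

noncomputable section

set_option linter.unusedSectionVars false

variable {k : Type} [Field k] [IsAlgClosed k] {N d : ℕ}

/-- entries of automorphisms over valued extensions are integral -/
theorem val_le_one (hd : 2 ≤ d) {f : Ix N d → k} (hf : NZ (tup f)) {L : Type} [Field L]
    [Algebra k L] (O : ValuationSubring L) (hk : ∀ a : k, algebraMap k L a ∈ O)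
    (M : Matrix (Fin (N + 1)) (Fin (N + 1)) L) (hdet : M.det ≠ 0)
    (hfix : actT M (fun p => algebraMap k L (f p)) = fun p => algebraMap k L (f p)) :
    ∀ i j, O.valuation (M i j) ≤ 1 := by
  let fL : Ix N d → L := fun p => algebraMap k L (f p)
  let g : Ix N d → O := fun p => ⟨algebraMap k L (f p), hk _⟩
  have hgood : Good O g := good_const O hk hf
  have hgf : (fun p => ((g p : O) : L)) = fL := rfl
  obtain ⟨i0, j0, hmax⟩ := exists_max_entry O.valuation M
  have h0 := max_ne_zero O.valuation hdet hmax
  have hkey := key_ineq O hgood hd M (by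
    intro p
    rw [hgf]
    have h1 : actT M fL = fL := hfix
    rw [h1]
    exact hk _) i0 j0 hmax h0
  obtain ⟨M', hMM'⟩ : ∃ M' : Matrix (Fin (N + 1)) (Fin (N + 1)) L, M * M' = 1 :=
    ⟨M⁻¹, Matrix.mul_nonsing_inv M (isUnit_iff_ne_zero.mpr hdet)⟩
  have hdet' : M'.det * M.det = 1 := by
    rw [mul_comm, ← Matrix.det_mul, hMM', Matrix.det_one]
  have hdet0' : M'.det ≠ 0 := left_ne_zero_of_mul_eq_one hdet'
  obtain ⟨i1, j1, hmax'⟩ := exists_max_entry O.valuation M'
  have h0' := max_ne_zero O.valuation hdet0' hmax'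
  have hback : actT M' fL = fL := by
    have h1 : actT M' (actT M fL) = fL := by rw [actT_actT, hMM', actT_one]
    have h2 : actT M fL = fL := hfix
    rw [h2] at h1
    exact h1
  have hkey' := key_ineq O hgood hd M' (by
    intro p
    rw [hgf, hback]
    exact hk _) i1 j1 hmax' h0'
  set v := O.valuation
  set a := v (M i0 j0)
  set a' := v (M' i1 j1)
  have ha : a ≠ 0 := (Valuation.ne_zero_iff _).mpr h0
  have ha' : a' ≠ 0 := (Valuation.ne_zero_iff _).mpr h0'
  have hvd : v M'.det * v M.det = 1 := by rw [← map_mul, hdet', map_one]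
  have hD := det_le v hmax
  have hD' := det_le v hmax'
  have haa : 1 ≤ a * a' := by
    have h1 : v ((M * M') 0 0) ≤ a * a' := by
      rw [Matrix.mul_apply]
      refine v.map_sum_le fun j _ => ?_
      rw [map_mul]
      exact mul_le_mul' (hmax _ _) (hmax' _ _)
    rw [hMM', Matrix.one_apply_eq, map_one] at h1
    exact h1
  have haa2 : (a * a') ^ (d - 1) ≤ 1 := by
    calc (a * a') ^ (d - 1) = (v M'.det * v M.det) * (a * a') ^ (d - 1) := by rw [hvd, one_mul]
      _ = (v M.det * a ^ (d - 1)) * (v M'.det * a' ^ (d - 1)) := by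
          rw [mul_pow, mul_comm (v M'.det), mul_mul_mul_comm]
      _ ≤ 1 * 1 := mul_le_mul' hkey hkey'
      _ = 1 := one_mul 1
  have haa3 : a * a' = 1 := by
    apply le_antisymm _ haa
    by_contra hcon
    push Not at hcon
    exact absurd haa2 (not_le.mpr (one_lt_pow₀ hcon (by omega)))
  have hDe : v M.det = a ^ (N + 1) := by
    apply le_antisymm hD
    have h1 : a ^ (N + 1) * (v M'.det * v M.det) ≤ a ^ (N + 1) * (a' ^ (N + 1) * v M.det) :=
      mul_le_mul' le_rfl (mul_le_mul' hD' le_rfl)
    rw [hvd, mul_one, ← mul_assoc, ← mul_pow, haa3, one_pow, one_mul] at h1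
    exact h1
  have hle : a ≤ 1 := by
    by_contra hcon
    push Not at hcon
    rw [hDe, ← pow_add] at hkey
    exact absurd hkey (not_le.mpr (one_lt_pow₀ hcon (by omega)))
  exact fun i j => (hmax i j).trans hle

theorem finite_stab (hd : 2 ≤ d) (f : Ix N d → k) (hf : NZ (tup f)) :
    {g : Matrix (Fin (N + 1)) (Fin (N + 1)) k | g.det ≠ 0 ∧ actT g f = f}.Finite := by
  classical
  set H := {g : Matrix (Fin (N + 1)) (Fin (N + 1)) k | g.det ≠ 0 ∧ actT g f = f} with hH
  have key : ∀ i0 j0, ((fun g : Matrix (Fin (N + 1)) (Fin (N + 1)) k => g i0 j0) '' H).Finite := by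
    intro i0 j0
    by_contra hinf
    let M0 := MvPolynomial (Fin (N + 1) × Fin (N + 1)) k
    let I : Ideal M0 :=
      { carrier := {P | ∀ g ∈ H, eval (fun p : Fin (N + 1) × Fin (N + 1) => g p.1 p.2) P = 0}
        add_mem' := by
          intro a b ha hb g hg
          rw [map_add, ha g hg, hb g hg, add_zero]
        zero_mem' := by
          intro g _
          rw [map_zero]
        smul_mem' := by
          intro a b hb g hg
          rw [smul_eq_mul, map_mul, hb g hg, mul_zero] }
    let φ : Polynomial k →ₐ[k] M0 := Polynomial.aeval (X (i0, j0))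
    let G0 : Matrix (Fin (N + 1)) (Fin (N + 1)) M0 := Matrix.of fun i j => X (i, j)
    let S0 : Submonoid M0 :=
      { carrier := {P | ∃ (q : Polynomial k) (m : ℕ), q ≠ 0 ∧ φ q * G0.det ^ m = P}
        mul_mem' := by
          rintro _ _ ⟨q, m, hq, rfl⟩ ⟨q', m', hq', rfl⟩
          exact ⟨q * q', m + m', mul_ne_zero hq hq', by rw [map_mul, pow_add]; ring⟩
        one_mem' := ⟨1, 0, one_ne_zero, by rw [map_one, pow_zero, one_mul]⟩ }
    have hdet0 : ∀ g : Matrix (Fin (N + 1)) (Fin (N + 1)) k,
        eval (fun p : Fin (N + 1) × Fin (N + 1) => g p.1 p.2) G0.det = g.det := by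
      intro g
      rw [RingHom.map_det]
      congr 1
      refine Matrix.ext fun i j => ?_
      change eval _ (X _) = _
      rw [eval_X]
    have hφe : ∀ (q : Polynomial k) (g : Matrix (Fin (N + 1)) (Fin (N + 1)) k),
        eval (fun p : Fin (N + 1) × Fin (N + 1) => g p.1 p.2) (φ q) = q.eval (g i0 j0) := by
      intro q g
      change eval _ (Polynomial.aeval (X (i0, j0)) q) = _
      have h3 := Polynomial.hom_eval₂ q (algebraMap k M0)
        (eval (fun p : Fin (N + 1) × Fin (N + 1) => g p.1 p.2)) (X (i0, j0))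
      rw [Polynomial.aeval_def, h3]
      have h4 : (eval (fun p : Fin (N + 1) × Fin (N + 1) => g p.1 p.2)).comp
          (algebraMap k M0) = RingHom.id k := by
        ext a
        change eval _ (C a) = a
        exact eval_C _
      rw [h4, eval_X]
      rfl
    have hdisj : Disjoint (I : Set M0) (S0 : Set M0) := by
      rw [Set.disjoint_left]
      rintro _ hP ⟨q, m, hq, rfl⟩
      apply hinf
      refine (q.roots.toFinset.finite_toSet).subset ?_
      rintro _ ⟨g, hg, rfl⟩
      rw [Finset.mem_coe, Multiset.mem_toFinset, Polynomial.mem_roots hq, Polynomial.IsRoot.def]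
      have h1 := hP g hg
      rw [map_mul, map_pow, hdet0, hφe] at h1
      exact (mul_eq_zero.mp h1).resolve_right (pow_ne_zero _ hg.1)
    obtain ⟨Q, hQ, hQ1, hQ2⟩ := Ideal.exists_le_prime_disjoint I S0 hdisj
    let L := FractionRing (M0 ⧸ Q)
    let π : M0 →ₐ[k] L := (IsScalarTower.toAlgHom k (M0 ⧸ Q) L).comp (Ideal.Quotient.mkₐ k Q)
    have hπ : ∀ x, π x = 0 ↔ x ∈ Q := by
      intro x
      change algebraMap (M0 ⧸ Q) L (Ideal.Quotient.mk Q x) = 0 ↔ _
      rw [FaithfulSMul.algebraMap_eq_zero_iff, Ideal.Quotient.eq_zero_iff_mem]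
    let G : Matrix (Fin (N + 1)) (Fin (N + 1)) L := G0.map π
    have hfix : actT G (fun p => algebraMap k L (f p)) = fun p => algebraMap k L (f p) := by
      funext p
      have h1 := map_actT (π : M0 →+* L) G0 (fun p => algebraMap k M0 (f p)) p
      have h2 : (fun q => (π : M0 →+* L) (algebraMap k M0 (f q))) =
          fun p => algebraMap k L (f p) := by
        funext q
        exact π.commutes _
      rw [h2] at h1
      have h3 : G0.map (π : M0 →+* L) = G := rfl
      rw [h3] at h1
      rw [← h1]
      have h4 : algebraMap k L (f p) = π (algebraMap k M0 (f p)) := (π.commutes _).symm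
      rw [h4]
      change π _ = _
      rw [← sub_eq_zero, ← map_sub, hπ]
      apply hQ1
      intro g hg
      rw [map_sub]
      have h5 := map_actT
        (eval (fun p : Fin (N + 1) × Fin (N + 1) => g p.1 p.2)) G0
        (fun p => algebraMap k M0 (f p)) p
      rw [h5]
      have h6 : (fun q => eval (fun p : Fin (N + 1) × Fin (N + 1) => g p.1 p.2)
          (algebraMap k M0 (f q))) = f := by
        funext q
        change eval _ (C _) = _
        exact eval_C _
      have h7 : G0.map (eval (fun p : Fin (N + 1) × Fin (N + 1) =>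
          g p.1 p.2)) = g := by
        refine Matrix.ext fun i j => ?_
        change eval _ (X _) = _
        rw [eval_X]
      rw [h6, h7, congrFun h6 p]
      have h8 : actT g f = f := hg.2
      rw [h8, sub_self]
    have hdet : G.det ≠ 0 := by
      have h1 : G.det = π G0.det := by
        rw [AlgHom.map_det]; rfl
      rw [h1, Ne, hπ]
      intro h2
      exact Set.disjoint_left.mp hQ2 h2 ⟨1, 1, one_ne_zero, by rw [map_one, one_mul, pow_one]⟩
    have hmem : π (X (i0, j0)) ∈ (integralClosure
        (Subring.closure (Set.range (algebraMap k L))) L).toSubring := by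
      rw [← iInf_valuationSubring_superset, Subring.mem_iInf]
      rintro ⟨O, hO⟩
      have hk : ∀ a : k, algebraMap k L a ∈ O := fun a => hO ⟨a, rfl⟩
      have h1 := val_le_one hd hf O hk G hdet hfix i0 j0
      exact (O.valuation_le_one_iff _).mp h1
    have hint : IsIntegral (Subring.closure (Set.range (algebraMap k L))) (π (X (i0, j0))) := hmem
    have hint2 : IsIntegral k (π (X (i0, j0))) := by
      obtain ⟨P, hP1, hP2⟩ := hint
      have hcl : Subring.closure (Set.range (algebraMap k L)) = (algebraMap k L).range := by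
        apply le_antisymm
        · rw [Subring.closure_le]
          rintro _ ⟨a, rfl⟩
          exact ⟨a, rfl⟩
        · rintro _ ⟨a, rfl⟩
          exact Subring.subset_closure ⟨a, rfl⟩
      have hsurj : ∀ a : Subring.closure (Set.range (algebraMap k L)), ∃ b : k,
          algebraMap k L b = a := by
        rintro ⟨a, ha⟩
        rw [hcl] at ha
        exact ha
      choose u hu using hsurj
      refine ⟨∑ i ∈ Finset.range P.natDegree, Polynomial.monomial i (u (P.coeff i)) +
        Polynomial.X ^ P.natDegree, ?_, ?_⟩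
      · rw [add_comm]
        apply Polynomial.monic_X_pow_add
        refine (Polynomial.degree_sum_le _ _).trans_lt ?_
        rw [Finset.sup_lt_iff (WithBot.bot_lt_coe _)]
        intro i hi
        refine (Polynomial.degree_monomial_le _ _).trans_lt ?_
        exact WithBot.coe_lt_coe.mpr (Finset.mem_range.mp hi)
      · rw [Polynomial.eval₂_add, Polynomial.eval₂_finsetSum, Polynomial.eval₂_X_pow]
        simp only [Polynomial.eval₂_monomial, hu]
        rw [Polynomial.eval₂_eq_sum_range, Finset.sum_range_succ] at hP2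
        rw [Polynomial.coeff_natDegree, hP1.leadingCoeff, map_one, one_mul] at hP2
        exact hP2
    obtain ⟨q, hq1, hq2⟩ := hint2
    have hq3 : π (φ q) = 0 := by
      rw [← hq2]
      change π (Polynomial.aeval (X (i0, j0)) q) = _
      rw [← Polynomial.aeval_algHom_apply]
      rfl
    exact Set.disjoint_left.mp hQ2 ((hπ _).mp hq3) ⟨q, 0, hq1.ne_zero, by
      rw [pow_zero, mul_one]⟩
  have hfin : {g : Matrix (Fin (N + 1)) (Fin (N + 1)) k | ∀ i j, g i j ∈
      ((fun g : Matrix (Fin (N + 1)) (Fin (N + 1)) k => g i j) '' H)}.Finite := by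
    have h1 : (Set.univ.pi fun i : Fin (N + 1) => Set.univ.pi fun j : Fin (N + 1) =>
        ((fun g : Matrix (Fin (N + 1)) (Fin (N + 1)) k => g i j) '' H)).Finite :=
      Set.Finite.pi fun i => Set.Finite.pi fun j => key i j
    refine h1.subset ?_
    intro g hg i _ j _
    exact hg i j
  refine hfin.subset ?_
  intro g hg i j
  exact ⟨g, hg, rfl⟩

end

end Pool.Agent.R855.Sing
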