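import Pool.Agent.R855.Sing.Reg2

/-!
The singular points of the moduli space are the classes of maps with nontrivial automorphisms.
-/

open MvPolynomial

namespace Pool.Agent.R855.Sing

open Pool.Agent.Helper819.Apolar Pool.Agent.Helper819.Dyn Pool.Agent.Helper819

noncomputable section

set_option linter.unusedSectionVars false

variable {k : Type} [Field k] [IsAlgClosed k] [CharZero k] {N d : ℕ}

theorem actT_cf (A : Matrix (Fin (N + 1)) (Fin (N + 1)) k) (F : EndTuple k N d) (a : k)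
    (h : ∀ i, act A F.1 i = C a * F.1 i) : actT A (cf (d := d) F.1) = a • cf F.1 := by
  unfold actT
  rw [tup_cf F.2.1, ← cf_C_mul]
  congr 1
  funext i
  exact h i

theorem hasAut_iff (hd : 2 ≤ d) (F : EndTuple k N d) :
    HasAut F ↔ ∃ A ∈ Stab (cf (d := d) F.1), ∀ a : k, A ≠ a • 1 := by
  constructor
  · rintro ⟨φ, hφ, c, hc⟩
    obtain ⟨A, hAdef⟩ : ∃ A : Matrix (Fin (N + 1)) (Fin (N + 1)) k, A = φ.val := ⟨_, rfl⟩
    have hA : A.det ≠ 0 := by
      rw [hAdef]
      exact ((Matrix.isUnit_iff_isUnit_det _).mp φ.isUnit).ne_zero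
    obtain ⟨φ', h1, h2⟩ := conj_act A hA F
    rw [hAdef] at h1
    have h3 : φ' = φ := Units.ext h1
    rw [h3] at h2
    have h4 : actT A (cf (d := d) F.1) = (A.det * (c : k)) • cf F.1 := by
      apply actT_cf
      intro i
      rw [h2 i, congrFun hc i, ← mul_assoc, ← C_mul]
    have hne : A.det * (c : k) ≠ 0 := mul_ne_zero hA c.ne_zero
    obtain ⟨t, ht⟩ := IsAlgClosed.exists_pow_nat_eq (A.det * (c : k))⁻¹ (n := N + d) (by omega)
    have ht0 : t ≠ 0 := by
      rintro rfl
      rw [zero_pow (by omega)] at ht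
      exact inv_ne_zero hne ht.symm
    refine ⟨A * (t • 1), ⟨?_, ?_⟩, fun a ha => ?_⟩
    · rw [Matrix.det_mul, Matrix.det_smul, Matrix.det_one, mul_one]
      exact mul_ne_zero hA (pow_ne_zero _ ht0)
    · rw [← actT_actT, actT_scalar, h4, smul_smul, ht, inv_mul_cancel₀ hne, one_smul]
    · apply hφ (t⁻¹ * a)
      rw [Matrix.mul_smul, Matrix.mul_one] at ha
      rw [← hAdef, mul_smul, ← ha, smul_smul, inv_mul_cancel₀ ht0, one_smul]
  · rintro ⟨A, ⟨hA, hfix⟩, hns⟩
    obtain ⟨φ, h1, h2⟩ := conj_act A hA F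
    refine ⟨φ, fun a ha => hns a (by rw [← h1, ha]), (Units.mk0 A.det hA)⁻¹, ?_⟩
    have h3 : act A F.1 = F.1 := by
      have h4 := tup_actT A (cf (d := d) F.1)
      rw [hfix, tup_cf F.2.1] at h4
      exact h4.symm
    funext i
    have h4 := h2 i
    rw [h3] at h4
    rw [h4, Units.val_inv_eq_inv_val, Units.val_mk0, ← mul_assoc, ← C_mul, inv_mul_cancel₀ hA,
      C_1, one_mul]

theorem stalk_regular_iff (F : EndTuple k N d) :
    IsSingularPoint (ModuliScheme k N d) (point F) ↔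
      ¬ IsRegularLocalRing (Localization.AtPrime (pF F)) := by
  unfold IsSingularPoint
  rw [not_iff_not]
  let e := (AlgebraicGeometry.Spec.stalkIso (CommRingCat.of (InvRing k N d))
    (point F)).commRingCatIsoToRingEquiv
  constructor
  · intro h
    exact @IsRegularLocalRing.of_ringEquiv _ _ h _ _ e
  · intro h
    exact @IsRegularLocalRing.of_ringEquiv _ _ h _ _ e.symm

theorem singular_iff (hN : 2 ≤ N) (hd : 2 ≤ d) (F : EndTuple k N d) :
    IsSingularPoint (ModuliScheme k N d) (point F) ↔ HasAut F := by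
  obtain ⟨𝓓⟩ := exists_DD (k := k) (N := N) (d := d) (by omega)
  obtain ⟨𝓢⟩ := exists_Slice (cf (d := d) F.1)
  rw [stalk_regular_iff, hasAut_iff hd]
  constructor
  · intro h
    by_contra hcon
    push Not at hcon
    exact h (regular_of_stab 𝓢 𝓓 hd hcon)
  · rintro ⟨A, hA, hns⟩ h
    obtain ⟨a, ha⟩ := stab_of_regular 𝓢 𝓓 hN hd h A hA
    exact hns a ha

/-- the power map -/
def powMap (k : Type) [Field k] [IsAlgClosed k] (N d : ℕ) (hd : 1 ≤ d) : EndTuple k N d :=
  ⟨fun i => X i ^ d, (isEnd_iff _).mpr ⟨fun i => isHomogeneous_X_pow i d, fun x hx => by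
    funext i
    have h1 := hx i
    rw [map_pow, eval_X] at h1
    exact pow_eq_zero_iff (by omega) |>.mp h1⟩⟩

theorem closed_point_iff (hd : 2 ≤ d) (x : ModuliScheme k N d) :
    IsClosed ({x} : Set (ModuliScheme k N d)) ↔ ∃ F : EndTuple k N d, x = point F := by
  obtain ⟨𝓓⟩ := exists_DD (k := k) (N := N) (d := d) (by omega)
  have h1 : IsClosed ({x} : Set (PrimeSpectrum (InvRing k N d))) ↔
      (PrimeSpectrum.asIdeal (R := InvRing k N d) x).IsMaximal :=
    PrimeSpectrum.isClosed_singleton_iff_isMaximal x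
  refine h1.trans ⟨fun h => ?_, ?_⟩
  · obtain ⟨F, hF⟩ := 𝓓.maximal hd (powMap k N d (by omega)) _ h
    exact ⟨F, PrimeSpectrum.ext hF⟩
  · rintro ⟨F, rfl⟩
    exact ker_evF_isMaximal F

end

end Pool.Agent.R855.Sing
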