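import Pool.Agent.R855.Sing.Ring

/-!
Fractions, the Noetherian property, and closed points of the moduli space.
-/

open MvPolynomial

namespace Pool.Agent.R855.Sing

open Pool.Agent.Helper819.Apolar Pool.Agent.Helper819.Dyn Pool.Agent.Helper819

noncomputable section

set_option linter.unusedSectionVars false

variable {k : Type} [Field k] [IsAlgClosed k] [CharZero k] {N d : ℕ} (𝓓 : DD k N d)

/-- semi-invariants of weight `m` -/
def DD.Se (m : ℕ) (P : MvPolynomial (Ix N d) k) : Prop :=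
  Gr.IsSemi (MA N d).toRAct (m • 𝓓.r) P

variable {𝓓}

theorem Se.mul {m m' : ℕ} {P P' : MvPolynomial (Ix N d) k} (h : 𝓓.Se m P) (h' : 𝓓.Se m' P') :
    𝓓.Se (m + m') (P * P') := by
  unfold DD.Se at *
  rw [add_smul]
  exact Gr.IsSemi.mul h h'

theorem Se.add {m : ℕ} {P P' : MvPolynomial (Ix N d) k} (h : 𝓓.Se m P) (h' : 𝓓.Se m P') :
    𝓓.Se m (P + P') := Gr.IsSemi.add h h'

theorem Se.sub {m : ℕ} {P P' : MvPolynomial (Ix N d) k} (h : 𝓓.Se m P) (h' : 𝓓.Se m P') :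
    𝓓.Se m (P - P') := Gr.IsSemi.sub h h'

theorem Se.C_mul {m : ℕ} {P : MvPolynomial (Ix N d) k} (h : 𝓓.Se m P) (a : k) :
    𝓓.Se m (C a * P) := Gr.IsSemi.C_mul h a

theorem Se.pow (m : ℕ) : 𝓓.Se m (𝓓.D ^ m) := 𝓓.semi.pow m

theorem Se.one : 𝓓.Se 0 1 := by
  unfold DD.Se
  rw [zero_smul]
  exact Gr.IsSemi.one

theorem Se.sum {ι : Type} (s : Finset ι) {m : ℕ} {P : ι → MvPolynomial (Ix N d) k}
    (h : ∀ i ∈ s, 𝓓.Se m (P i)) : 𝓓.Se m (∑ i ∈ s, P i) := by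
  classical
  induction s using Finset.induction_on with
  | empty =>
    rw [Finset.sum_empty]
    exact Gr.IsSemi.zero
  | insert a s ha ih =>
    rw [Finset.sum_insert ha]
    exact (h a (Finset.mem_insert_self _ _)).add (ih fun i hi => h i (Finset.mem_insert_of_mem hi))

variable (𝓓)

/-- `b = P / D ^ m` -/
def DD.Is (b : InvRing k N d) (m : ℕ) (P : MvPolynomial (Ix N d) k) : Prop :=
  𝓓.Se m P ∧ ∀ F : EndTuple k N d, b.1 F * eval (cf F.1) 𝓓.D ^ m = eval (cf F.1) P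

theorem DD.Is.exists (hd : 2 ≤ d) (b : InvRing k N d) (F0 : EndTuple k N d) :
    ∃ m P, 𝓓.Is b m P := by
  obtain ⟨m, P, hP, h⟩ := 𝓓.exists_semi hd b.1 b.2 F0
  refine ⟨m, P, hP, fun F => ?_⟩
  rw [h F, div_mul_cancel₀ _ (pow_ne_zero _ (𝓓.ne F))]

theorem DD.Is.mk (hd : 2 ≤ d) {m : ℕ} {P : MvPolynomial (Ix N d) k} (hP : 𝓓.Se m P) :
    ∃ b, 𝓓.Is b m P :=
  ⟨⟨fun F => eval (cf F.1) P / eval (cf F.1) 𝓓.D ^ m, 𝓓.mk_inv (by omega) m P hP⟩, hP,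
    fun F => div_mul_cancel₀ _ (pow_ne_zero _ (𝓓.ne F))⟩

variable {𝓓}

theorem DD.Is.mul {b b' : InvRing k N d} {m m' : ℕ} {P P' : MvPolynomial (Ix N d) k}
    (h : 𝓓.Is b m P) (h' : 𝓓.Is b' m' P') : 𝓓.Is (b * b') (m + m') (P * P') := by
  refine ⟨Se.mul h.1 h'.1, fun F => ?_⟩
  change (b.1 F * b'.1 F) * _ = _
  rw [map_mul, ← h.2 F, ← h'.2 F, pow_add]
  ring

theorem DD.Is.add {b b' : InvRing k N d} {m : ℕ} {P P' : MvPolynomial (Ix N d) k}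
    (h : 𝓓.Is b m P) (h' : 𝓓.Is b' m P') : 𝓓.Is (b + b') m (P + P') := by
  refine ⟨Se.add h.1 h'.1, fun F => ?_⟩
  change (b.1 F + b'.1 F) * _ = _
  rw [map_add, ← h.2 F, ← h'.2 F]
  ring

theorem DD.Is.shift {b : InvRing k N d} {m : ℕ} {P : MvPolynomial (Ix N d) k}
    (h : 𝓓.Is b m P) (l : ℕ) : 𝓓.Is b (l + m) (𝓓.D ^ l * P) := by
  refine ⟨Se.mul (Se.pow l) h.1, fun F => ?_⟩
  rw [map_mul, ← h.2 F, pow_add, map_pow]
  ring

theorem DD.Is.unshift {b : InvRing k N d} {m : ℕ} {P : MvPolynomial (Ix N d) k} {l : ℕ}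
    (hP : 𝓓.Se m P) (h : 𝓓.Is b (l + m) (𝓓.D ^ l * P)) : 𝓓.Is b m P := by
  refine ⟨hP, fun F => ?_⟩
  have h1 := h.2 F
  rw [map_mul, pow_add, map_pow] at h1
  apply mul_left_cancel₀ (pow_ne_zero l (𝓓.ne F))
  rw [← h1]
  ring

theorem DD.Is.unique {b b' : InvRing k N d} {m : ℕ} {P : MvPolynomial (Ix N d) k}
    (h : 𝓓.Is b m P) (h' : 𝓓.Is b' m P) : b = b' := by
  apply Subtype.ext
  funext F
  apply mul_right_cancel₀ (pow_ne_zero m (𝓓.ne F))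
  rw [h.2 F, h'.2 F]

theorem DD.Is.poly_eq (F0 : EndTuple k N d) {b : InvRing k N d} {m : ℕ}
    {P P' : MvPolynomial (Ix N d) k}
    (h : 𝓓.Is b m P) (h' : 𝓓.Is b m P') : P = P' := by
  apply 𝓓.poly_ext (𝓓.D_ne_zero F0)
  intro F
  rw [← h.2 F, ← h'.2 F]

theorem DD.Is.cross (F0 : EndTuple k N d) {b : InvRing k N d} {m m' : ℕ}
    {P P' : MvPolynomial (Ix N d) k}
    (h : 𝓓.Is b m P) (h' : 𝓓.Is b m' P') : 𝓓.D ^ m' * P = 𝓓.D ^ m * P' := by
  have h1 := h.shift m'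
  have h2 := h'.shift m
  rw [Nat.add_comm] at h1
  exact h1.poly_eq F0 h2

theorem DD.Is.one : 𝓓.Is (1 : InvRing k N d) 0 1 := by
  refine ⟨Se.one, fun F => ?_⟩
  rw [map_one, pow_zero, mul_one]
  rfl

theorem DD.Is.zero (m : ℕ) : 𝓓.Is (0 : InvRing k N d) m 0 := by
  refine ⟨Gr.IsSemi.zero, fun F => ?_⟩
  rw [map_zero]
  exact zero_mul _

theorem DD.Is.algebraMap (a : k) : 𝓓.Is (algebraMap k (InvRing k N d) a) 0 (C a) := by
  refine ⟨?_, fun F => ?_⟩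
  · have h1 := Se.one (𝓓 := 𝓓).C_mul a
    rwa [mul_one] at h1
  · rw [eval_C, pow_zero, mul_one]
    rfl

theorem DD.Is.ev {b : InvRing k N d} {m : ℕ} {P : MvPolynomial (Ix N d) k}
    (h : 𝓓.Is b m P) (F : EndTuple k N d) : evF F b = 0 ↔ eval (cf F.1) P = 0 := by
  rw [← h.2 F]
  change b.1 F = 0 ↔ _
  constructor
  · intro h1
    rw [h1, zero_mul]
  · intro h1
    exact (mul_eq_zero.mp h1).resolve_right (pow_ne_zero _ (𝓓.ne F))

theorem DD.Is.eq_zero {b : InvRing k N d} {m : ℕ} (h : 𝓓.Is b m 0) : b = 0 :=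
  h.unique (DD.Is.zero m)

variable (𝓓)

/-- the ideal of numerators -/
def DD.num (I : Ideal (InvRing k N d)) : Ideal (MvPolynomial (Ix N d) k) :=
  Ideal.span {P | ∃ b ∈ I, ∃ l, 𝓓.Is b l P}

theorem DD.num_sharp (I : Ideal (InvRing k N d)) (hd : 2 ≤ d)
    {Q : MvPolynomial (Ix N d) k} (hQ : Q ∈ 𝓓.num I) :
    ∃ K0, ∀ (c : MvPolynomial (Ix N d) k) (K : ℕ), K0 ≤ K → ∀ b,
      𝓓.Is b K (Gr.sharp (MA N d).toRAct (K • 𝓓.r) (c * Q)) → b ∈ I := by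
  have hinf : Infinite k := IsAlgClosed.instInfinite
  induction hQ using Submodule.span_induction with
  | mem P hP =>
    obtain ⟨b0, hb0, l, hl⟩ := hP
    refine ⟨l, fun c K hK b hb => ?_⟩
    have h1 : K • 𝓓.r = (K - l) • 𝓓.r + l • 𝓓.r := by
      rw [← add_smul, Nat.sub_add_cancel hK]
    rw [h1, Gr.sharp_mul_semi _ _ hl.1] at hb
    obtain ⟨b1, hb1⟩ := DD.Is.mk 𝓓 hd
      (show 𝓓.Se (K - l) (Gr.sharp (MA N d).toRAct ((K - l) • 𝓓.r) c) from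
        Gr.isSemi_sharp _ _ _)
    have h2 := hb1.mul hl
    rw [Nat.sub_add_cancel hK] at h2
    rw [hb.unique h2]
    exact Ideal.mul_mem_left _ _ hb0
  | zero =>
    refine ⟨0, fun c K _ b hb => ?_⟩
    rw [mul_zero] at hb
    have h1 : Gr.sharp (MA N d).toRAct (K • 𝓓.r) (0 : MvPolynomial (Ix N d) k) = 0 :=
      Gr.sharp_semi _ Gr.IsSemi.zero
    rw [h1] at hb
    rw [hb.eq_zero]
    exact Submodule.zero_mem _
  | add P Q _ _ hP hQ =>
    obtain ⟨K1, h1⟩ := hP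
    obtain ⟨K2, h2⟩ := hQ
    refine ⟨max K1 K2, fun c K hK b hb => ?_⟩
    rw [mul_add, Gr.sharp_add] at hb
    obtain ⟨b1, hb1⟩ := DD.Is.mk 𝓓 hd
      (show 𝓓.Se K (Gr.sharp (MA N d).toRAct (K • 𝓓.r) (c * P)) from Gr.isSemi_sharp _ _ _)
    obtain ⟨b2, hb2⟩ := DD.Is.mk 𝓓 hd
      (show 𝓓.Se K (Gr.sharp (MA N d).toRAct (K • 𝓓.r) (c * Q)) from Gr.isSemi_sharp _ _ _)
    rw [hb.unique (hb1.add hb2)]
    exact Submodule.add_mem _ (h1 c K (le_of_max_le_left hK) b1 hb1)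
      (h2 c K (le_of_max_le_right hK) b2 hb2)
  | smul a P _ hP =>
    obtain ⟨K1, h1⟩ := hP
    refine ⟨K1, fun c K hK b hb => ?_⟩
    rw [smul_eq_mul, ← mul_assoc] at hb
    exact h1 (c * a) K hK b hb

theorem DD.sharp_mem (I : Ideal (InvRing k N d)) (hd : 2 ≤ d)
    {b : InvRing k N d} {m L : ℕ} {P : MvPolynomial (Ix N d) k} (hb : 𝓓.Is b m P)
    (h : 𝓓.D ^ L * P ∈ 𝓓.num I) : b ∈ I := by
  obtain ⟨K0, h1⟩ := 𝓓.num_sharp I hd h
  apply h1 (𝓓.D ^ K0) (K0 + L + m) (by omega)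
  have h2 : 𝓓.D ^ K0 * (𝓓.D ^ L * P) = 𝓓.D ^ (K0 + L) * P := by
    rw [pow_add]; ring
  have h3 := hb.shift (K0 + L)
  rw [h2]
  have h4 : Gr.sharp (MA N d).toRAct ((K0 + L + m) • 𝓓.r) (𝓓.D ^ (K0 + L) * P) =
      𝓓.D ^ (K0 + L) * P := Gr.sharp_semi _ h3.1
  rw [h4]
  exact h3

theorem DD.num_mem (I : Ideal (InvRing k N d)) {b : InvRing k N d} {m : ℕ}
    {P : MvPolynomial (Ix N d) k} (hb : 𝓓.Is b m P) (h : b ∈ I) : P ∈ 𝓓.num I :=
  Ideal.subset_span ⟨b, h, m, hb⟩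

theorem DD.num_mono {I I' : Ideal (InvRing k N d)} (h : I ≤ I') : 𝓓.num I ≤ 𝓓.num I' :=
  Ideal.span_mono fun _ ⟨b, hb, l, hl⟩ => ⟨b, h hb, l, hl⟩

include 𝓓 in
theorem DD.noeth (hd : 2 ≤ d) (F0 : EndTuple k N d) : IsNoetherianRing (InvRing k N d) := by
  have h1 : WellFoundedGT (Ideal (MvPolynomial (Ix N d) k)) := inferInstance
  rw [isNoetherianRing_iff, isNoetherian_iff']
  refine ⟨?_⟩
  refine Subrelation.wf (r := InvImage (· > ·) (𝓓.num)) ?_ (InvImage.wf _ h1.wf)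
  intro I I' hlt
  change 𝓓.num I > 𝓓.num I'
  have hlt' : I' < I := hlt
  refine lt_of_le_of_ne (𝓓.num_mono hlt'.le) fun heq => ?_
  apply hlt'.not_ge
  intro b hb
  obtain ⟨m, P, hP⟩ := DD.Is.exists 𝓓 hd b F0
  apply 𝓓.sharp_mem I' hd hP (L := 0)
  rw [heq, pow_zero, one_mul]
  exact 𝓓.num_mem I hP hb

include 𝓓 in
/-- Maximal ideals are given by maps. -/
theorem DD.maximal (hd : 2 ≤ d) (F0 : EndTuple k N d) (𝔪 : Ideal (InvRing k N d))
    (h𝔪 : 𝔪.IsMaximal) : ∃ F : EndTuple k N d, 𝔪 = RingHom.ker (evF F) := by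
  have h1 : 𝓓.D ∉ (𝓓.num 𝔪).radical := by
    rintro ⟨L, hL⟩
    apply h𝔪.ne_top
    rw [Ideal.eq_top_iff_one]
    apply 𝓓.sharp_mem 𝔪 hd DD.Is.one (L := L)
    rwa [mul_one]
  rw [← vanishingIdeal_zeroLocus_eq_radical (K := k), mem_vanishingIdeal_iff] at h1
  push Not at h1
  obtain ⟨c, hc, hDc⟩ := h1
  rw [Gr.aeval_eq_eval_self] at hDc
  have hNZ := (𝓓.iff c).mp hDc
  refine ⟨toE c hNZ, h𝔪.eq_of_le (RingHom.ker_ne_top _) fun b hb => ?_⟩
  obtain ⟨m, P, hP⟩ := DD.Is.exists 𝓓 hd b F0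
  rw [RingHom.mem_ker, hP.ev, cf_toE]
  have h2 := (mem_zeroLocus_iff.mp hc) P (𝓓.num_mem 𝔪 hP hb)
  rwa [Gr.aeval_eq_eval_self] at h2

theorem ker_evF_isMaximal (F : EndTuple k N d) : (RingHom.ker (evF F)).IsMaximal :=
  RingHom.ker_isMaximal_of_surjective (evF F) fun a => ⟨algebraMap k (InvRing k N d) a, rfl⟩

include 𝓓 in
/-- Separation of orbits. -/
theorem DD.separate (hd : 2 ≤ d) (F G : EndTuple k N d)
    (h : RingHom.ker (evF F) = RingHom.ker (evF G)) :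
    ∃ A : Matrix (Fin (N + 1)) (Fin (N + 1)) k, A.det ≠ 0 ∧ actT A (cf (d := d) F.1) = cf G.1 := by
  by_contra hcon
  push Not at hcon
  let I : EndTuple k N d → Ideal (MvPolynomial (Ix N d) k) := fun F =>
    RingHom.ker (aeval (Gr.orb (MA N d).toRAct (cf F.1)) :
      MvPolynomial (Ix N d) k →ₐ[k] Gr.KJ Unit (N + 1) k)
  have hrad : 𝓓.D ∈ (I F ⊔ I G).radical := by
    rw [← vanishingIdeal_zeroLocus_eq_radical (K := k), mem_vanishingIdeal_iff]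
    intro c hc
    by_contra hne
    rw [Gr.aeval_eq_eval_self] at hne
    have hz : ∀ x ∈ I F ⊔ I G, eval c x = 0 := by
      intro x hx
      have := (mem_zeroLocus_iff.mp hc) x hx
      rwa [Gr.aeval_eq_eval_self] at this
    obtain ⟨A, hA, h1⟩ := 𝓓.closed hd (𝓓.ne F) c hne
      (fun P' hP' => hz P' (Submodule.mem_sup_left hP'))
    obtain ⟨B, hB, h2⟩ := 𝓓.closed hd (𝓓.ne G) c hne
      (fun P' hP' => hz P' (Submodule.mem_sup_right hP'))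
    apply hcon (A * B⁻¹) (by rw [Matrix.det_mul]; exact mul_ne_zero hA (det_inv_ne hB))
    rw [← actT_actT, h1, ← h2, actT_inv hB]
  obtain ⟨e, he⟩ := hrad
  obtain ⟨κ, hκ, ι, hι, hκι⟩ := Submodule.mem_sup.mp he
  have hsum := congrArg (Gr.sharp (MA N d).toRAct (e • 𝓓.r)) hκι
  rw [Gr.sharp_add, Gr.sharp_semi _ (𝓓.semi.pow e)] at hsum
  have hv : ∀ (F : EndTuple k N d), ∀ x ∈ I F, eval (cf F.1)
      (Gr.sharp (MA N d).toRAct (e • 𝓓.r) x) = 0 := by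
    intro F x hx
    apply Gr.sharp_vanish
    intro A _
    have h1 := Gr.eval_aeval_orb (MA N d).toRAct A (cf F.1) x
    have h2 : aeval (Gr.orb (MA N d).toRAct (cf F.1)) x = 0 := hx
    rw [h2, map_zero] at h1
    exact h1.symm
  obtain ⟨b, hb⟩ := DD.Is.mk 𝓓 hd
    (show 𝓓.Se e (Gr.sharp (MA N d).toRAct (e • 𝓓.r) κ) from Gr.isSemi_sharp _ _ _)
  have h1 : b ∈ RingHom.ker (evF F) := by
    rw [RingHom.mem_ker, hb.ev]
    exact hv F κ hκ
  rw [h, RingHom.mem_ker, hb.ev] at h1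
  have h2 := congrArg (eval (cf G.1)) hsum
  rw [map_add, h1, hv G ι hι, add_zero, map_pow] at h2
  exact pow_ne_zero e (𝓓.ne G) h2.symm

theorem point_eq_of_rel (F G : EndTuple k N d) (h : Rel k N d F G) : point F = point G := by
  obtain ⟨φ, c, hG⟩ := h
  obtain ⟨H, hH⟩ := conj_isEnd φ F
  have h1 : ∀ b : InvRing k N d, b.1 G = b.1 F := by
    intro b
    rw [← b.2.2 φ F H hH]
    -- `G = c H`
    obtain ⟨e, P, Q, hP, hQ, hQ0, h2⟩ := b.2.1 H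
    have h3 : coords G = (c : k) • coords H := by
      funext p
      change coeff p.2 (G.1 p.1) = (c : k) * coeff p.2 (H.1 p.1)
      rw [hG, hH, coeff_C_mul]
    have h4 : ∀ R : MvPolynomial (Fin (N + 1) × (Fin (N + 1) →₀ ℕ)) k, R.IsHomogeneous e →
        eval (coords G) R = (c : k) ^ e * eval (coords H) R := by
      intro R hR
      rw [h3, eval_eq, eval_eq, Finset.mul_sum]
      refine Finset.sum_congr rfl fun m hm => ?_
      have hdeg : ∑ i ∈ m.support, m i = e := by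
        have : m.degree = e := by
          by_contra hne
          exact (mem_support_iff.mp hm) (hR.coeff_eq_zero hne)
        rw [← this]
        rfl
      simp only [Pi.smul_apply, smul_eq_mul, mul_pow]
      rw [Finset.prod_mul_distrib, Finset.prod_pow_eq_pow_sum, hdeg]
      ring
    have hc : (c : k) ^ e ≠ 0 := pow_ne_zero _ c.ne_zero
    rw [h2 H hQ0, h2 G (by rw [h4 Q hQ]; exact mul_ne_zero hc hQ0), h4 P hP, h4 Q hQ,
      mul_div_mul_left _ _ hc]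
  apply PrimeSpectrum.ext
  change RingHom.ker (evF F) = RingHom.ker (evF G)
  ext b
  rw [RingHom.mem_ker, RingHom.mem_ker]
  change b.1 F = 0 ↔ b.1 G = 0
  rw [h1]

theorem point_eq_iff (hd : 2 ≤ d) (F G : EndTuple k N d) :
    point F = point G ↔ Rel k N d F G := by
  obtain ⟨𝓓⟩ := exists_DD (k := k) (N := N) (d := d) (by omega)
  constructor
  · intro h
    have h1 : RingHom.ker (evF F) = RingHom.ker (evF G) :=
      congrArg (fun x : PrimeSpectrum (InvRing k N d) => x.asIdeal) h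
    obtain ⟨A, hA, hAG⟩ := 𝓓.separate hd F G h1
    rw [rel_iff (by omega)]
    refine ⟨A, hA, ?_⟩
    apply Subtype.ext
    change G.1 = act A F.1
    have h2 := tup_actT A (cf (d := d) F.1)
    rw [hAG, tup_cf G.2.1, tup_cf F.2.1] at h2
    exact h2
  · exact point_eq_of_rel F G

end

end Pool.Agent.R855.Sing
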