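import Pool.Agent.R855.Sing.Frac
import Pool.Agent.R855.Sing.Dim

/-!
The homomorphism from the ring of invariants to the local ring of a linear slice.
-/

open MvPolynomial

namespace Pool.Agent.R855.Sing

open Pool.Agent.Helper819.Apolar Pool.Agent.Helper819.Dyn Pool.Agent.Helper819

noncomputable section

set_option linter.unusedSectionVars false

variable {k : Type} [Field k] [IsAlgClosed k] [CharZero k] {N d : ℕ}

namespace Slice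

/-- A semi-invariant which vanishes on the slice is zero. -/
theorem res_injective {f : Ix N d → k} (𝓢 : Slice f) {w : Unit → ℕ}
    {P : MvPolynomial (Ix N d) k} (hP : Gr.IsSemi (MA N d).toRAct w P) (h : 𝓢.res P = 0) :
    P = 0 := by
  have hinf : Infinite k := IsAlgClosed.instInfinite
  have h1 : ∀ j, Gr.Ord j P f := by
    intro j
    induction j with
    | zero => intro i hi; exact absurd hi (Nat.not_lt_zero _)
    | succ j ih =>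
      intro i hi
      rcases Nat.lt_succ_iff_lt_or_eq.mp hi with hi' | rfl
      · exact ih i hi'
      · have h2 := 𝓢.pl_sl (Q := Gr.lf i P f)
          fun Y v => Gr.lf_xi (α := MA N d) hP ih (un Y) v
        rw [← h2, ← Th_res, h, map_zero, Polynomial.coeff_zero, map_zero]
  apply MvPolynomial.funext
  intro v
  have h2 : Gr.tayl f (v - f) P = 0 := by
    apply Polynomial.ext
    intro i
    rw [← Gr.eval_lf, h1 (i + 1) i (Nat.lt_succ_self i), map_zero, Polynomial.coeff_zero]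
  have h3 := Gr.eval_tayl 1 f (v - f) P
  rw [h2, Polynomial.eval_zero, Gr.aeval_eq_eval_self] at h3
  have h4 : (fun p => f p + 1 * (v - f) p) = v := by
    funext p
    rw [Pi.sub_apply]
    ring
  rw [h4] at h3
  rw [← h3, map_zero]

end Slice

/-- the local ring of the slice at the origin -/
abbrev Lc (k : Type) [Field k] (n : ℕ) : Type := Localization.AtPrime (mx k n)

variable {F : EndTuple k N d} (𝓢 : Slice (cf (d := d) F.1)) (𝓓 : DD k N d)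

/-- the restriction of the discriminant -/
def dl : (mx k 𝓢.n).primeCompl := ⟨𝓢.res 𝓓.D, fun h => 𝓓.ne F (by
  rw [← 𝓢.eval_res_zero]
  exact mem_mx.mp h)⟩

/-- fractions on the slice -/
def fr (m : ℕ) (P : MvPolynomial (Ix N d) k) : Lc k 𝓢.n :=
  IsLocalization.mk' (Lc k 𝓢.n) (𝓢.res P) ((dl 𝓢 𝓓) ^ m)

theorem fr_eq_iff (m : ℕ) (P : MvPolynomial (Ix N d) k) (z : Lc k 𝓢.n) :
    z = fr 𝓢 𝓓 m P ↔ z * algebraMap (MvPolynomial (Fin 𝓢.n) k) (Lc k 𝓢.n) (𝓢.res 𝓓.D) ^ m =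
      algebraMap _ _ (𝓢.res P) := by
  unfold fr
  rw [IsLocalization.eq_mk'_iff_mul_eq, SubmonoidClass.coe_pow, map_pow]
  rfl

theorem fr_spec (m : ℕ) (P : MvPolynomial (Ix N d) k) : fr 𝓢 𝓓 m P *
    algebraMap (MvPolynomial (Fin 𝓢.n) k) (Lc k 𝓢.n) (𝓢.res 𝓓.D) ^ m =
      algebraMap _ _ (𝓢.res P) := (fr_eq_iff 𝓢 𝓓 m P _).mp rfl

theorem dl_unit (m : ℕ) : IsUnit (algebraMap (MvPolynomial (Fin 𝓢.n) k) (Lc k 𝓢.n)
    (𝓢.res 𝓓.D) ^ m) := by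
  rw [← map_pow]
  exact IsLocalization.map_units (Lc k 𝓢.n) ((dl 𝓢 𝓓) ^ m)

theorem fr_cross {m m' : ℕ} {P P' : MvPolynomial (Ix N d) k}
    (h : 𝓓.D ^ m' * P = 𝓓.D ^ m * P') : fr 𝓢 𝓓 m P = fr 𝓢 𝓓 m' P' := by
  rw [fr_eq_iff]
  apply (dl_unit 𝓢 𝓓 m).mul_left_cancel
  have h1 := congrArg (fun x => algebraMap (MvPolynomial (Fin 𝓢.n) k) (Lc k 𝓢.n) (𝓢.res x)) h
  simp only [map_mul, map_pow] at h1
  rw [← h1, ← fr_spec 𝓢 𝓓 m P]
  ring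

theorem fr_mul (m m' : ℕ) (P P' : MvPolynomial (Ix N d) k) :
    fr 𝓢 𝓓 (m + m') (P * P') = fr 𝓢 𝓓 m P * fr 𝓢 𝓓 m' P' := by
  symm
  rw [fr_eq_iff, map_mul, map_mul, ← fr_spec 𝓢 𝓓 m P, ← fr_spec 𝓢 𝓓 m' P', pow_add]
  ring

theorem fr_add (m : ℕ) (P P' : MvPolynomial (Ix N d) k) :
    fr 𝓢 𝓓 m (P + P') = fr 𝓢 𝓓 m P + fr 𝓢 𝓓 m P' := by
  symm
  rw [fr_eq_iff, map_add, map_add, ← fr_spec 𝓢 𝓓 m P, ← fr_spec 𝓢 𝓓 m P']
  ring

theorem fr_C (a : k) : fr 𝓢 𝓓 0 (C a) = algebraMap k (Lc k 𝓢.n) a := by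
  symm
  rw [fr_eq_iff, pow_zero, mul_one]
  have h1 : 𝓢.res (C a : MvPolynomial (Ix N d) k) = C a := algHom_C _ _
  rw [h1, IsScalarTower.algebraMap_apply k (MvPolynomial (Fin 𝓢.n) k) (Lc k 𝓢.n)]
  rfl

/-- the map -/
def phiF (hd : 2 ≤ d) (b : InvRing k N d) : Lc k 𝓢.n :=
  fr 𝓢 𝓓 (Classical.choose (DD.Is.exists 𝓓 hd b F))
    (Classical.choose (Classical.choose_spec (DD.Is.exists 𝓓 hd b F)))

theorem phiF_eq (hd : 2 ≤ d) {b : InvRing k N d} {m : ℕ} {P : MvPolynomial (Ix N d) k}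
    (h : 𝓓.Is b m P) : phiF 𝓢 𝓓 hd b = fr 𝓢 𝓓 m P := by
  unfold phiF
  apply fr_cross
  exact (Classical.choose_spec (Classical.choose_spec (DD.Is.exists 𝓓 hd b F))).cross F h

/-- The homomorphism from the ring of invariants to the local ring of the slice. -/
def phi (hd : 2 ≤ d) : InvRing k N d →ₐ[k] Lc k 𝓢.n where
  toFun := phiF 𝓢 𝓓 hd
  map_one' := by
    rw [phiF_eq 𝓢 𝓓 hd (DD.Is.one (𝓓 := 𝓓)), ← C_1, fr_C, map_one]
  map_zero' := by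
    rw [phiF_eq 𝓢 𝓓 hd (DD.Is.zero (𝓓 := 𝓓) 0), ← C_0, fr_C, map_zero]
  map_mul' b b' := by
    obtain ⟨m, P, h⟩ := DD.Is.exists 𝓓 hd b F
    obtain ⟨m', P', h'⟩ := DD.Is.exists 𝓓 hd b' F
    rw [phiF_eq 𝓢 𝓓 hd h, phiF_eq 𝓢 𝓓 hd h', phiF_eq 𝓢 𝓓 hd (h.mul h'), fr_mul]
  map_add' b b' := by
    obtain ⟨m, P, h⟩ := DD.Is.exists 𝓓 hd b F
    obtain ⟨m', P', h'⟩ := DD.Is.exists 𝓓 hd b' F
    have h1 := h.shift m'
    have h2 := h'.shift m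
    rw [Nat.add_comm m m'] at h2
    rw [phiF_eq 𝓢 𝓓 hd h1, phiF_eq 𝓢 𝓓 hd h2, phiF_eq 𝓢 𝓓 hd (h1.add h2), fr_add]
  commutes' a := by
    rw [phiF_eq 𝓢 𝓓 hd (DD.Is.algebraMap (𝓓 := 𝓓) a), fr_C]

theorem phi_eq (hd : 2 ≤ d) {b : InvRing k N d} {m : ℕ} {P : MvPolynomial (Ix N d) k}
    (h : 𝓓.Is b m P) : phi 𝓢 𝓓 hd b = fr 𝓢 𝓓 m P := phiF_eq 𝓢 𝓓 hd h

theorem phi_injective (hd : 2 ≤ d) : Function.Injective (phi 𝓢 𝓓 hd) := by
  rw [injective_iff_map_eq_zero]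
  intro b hb
  obtain ⟨m, P, h⟩ := DD.Is.exists 𝓓 hd b F
  rw [phi_eq 𝓢 𝓓 hd h] at hb
  have h1 := fr_spec 𝓢 𝓓 m P
  rw [hb, zero_mul] at h1
  have h2 : 𝓢.res P = 0 := by
    apply IsLocalization.injective (Lc k 𝓢.n) (mx k 𝓢.n).primeCompl_le_nonZeroDivisors
    rw [← h1, map_zero]
  have h3 : P = 0 := 𝓢.res_injective h.1 h2
  rw [h3] at h
  exact h.eq_zero

theorem phi_mem (hd : 2 ≤ d) (b : InvRing k N d) :
    phi 𝓢 𝓓 hd b ∈ IsLocalRing.maximalIdeal (Lc k 𝓢.n) ↔ b ∈ RingHom.ker (evF F) := by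
  obtain ⟨m, P, h⟩ := DD.Is.exists 𝓓 hd b F
  rw [phi_eq 𝓢 𝓓 hd h, RingHom.mem_ker, h.ev]
  unfold fr
  rw [IsLocalization.AtPrime.mk'_mem_maximal_iff (Lc k 𝓢.n) (mx k 𝓢.n), mem_mx,
    𝓢.eval_res_zero]

end

theorem invRing_isDomain {k : Type} [Field k] [IsAlgClosed k] [CharZero k] {N d : ℕ}
    (hd : 2 ≤ d) (F : EndTuple k N d) : IsDomain (InvRing k N d) := by
  obtain ⟨𝓓⟩ := exists_DD (k := k) (N := N) (d := d) (by omega)
  obtain ⟨𝓢⟩ := exists_Slice (cf (d := d) F.1)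
  exact (phi_injective 𝓢 𝓓 hd).isDomain (phi 𝓢 𝓓 hd).toRingHom

end Pool.Agent.R855.Sing
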