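import Pool.Agent.R855.Sing.Th

/-!
Invariants of finite linear groups with prescribed gradients.
-/

open MvPolynomial

namespace Pool.Agent.R855.Sing

noncomputable section

variable {k : Type} [Field k] {n : ℕ}

/-- substitution of a matrix -/
def sb (M : Matrix (Fin n) (Fin n) k) : MvPolynomial (Fin n) k →ₐ[k] MvPolynomial (Fin n) k :=
  aeval (fun i => ∑ j, C (M i j) * X j)

theorem eval_sb (M : Matrix (Fin n) (Fin n) k) (x : Fin n → k) (p : MvPolynomial (Fin n) k) :
    eval x (sb M p) = eval (M.mulVec x) p := by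
  have h1 : (eval x).comp (sb M : MvPolynomial (Fin n) k →ₐ[k] _).toRingHom =
      eval (M.mulVec x) := by
    apply MvPolynomial.ringHom_ext
    · intro a
      change eval x (sb M (C a)) = _
      unfold sb
      rw [algHom_C]
      simp
    · intro i
      change eval x (sb M (X i)) = _
      unfold sb
      rw [aeval_X]
      simp [Matrix.mulVec, dotProduct]
  exact congrArg (fun φ => φ p) h1

theorem pderiv_sb (M : Matrix (Fin n) (Fin n) k) (p : MvPolynomial (Fin n) k) (j : Fin n) :
    pderiv j (sb M p) = ∑ l, C (M l j) * sb M (pderiv l p) := by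
  induction p using MvPolynomial.induction_on with
  | C a => simp [sb]
  | add p q hp hq =>
    simp only [map_add, hp, hq, mul_add, Finset.sum_add_distrib]
  | mul_X p l hp =>
    rw [map_mul, Derivation.leibniz, hp]
    simp only [Derivation.leibniz, map_add, smul_eq_mul, map_mul]
    have h1 : pderiv j (sb M (X l)) = C (M l j) := by
      unfold sb
      rw [aeval_X, map_sum]
      simp only [pderiv_C_mul]
      rw [Finset.sum_eq_single j]
      · simp
      · intro i _ hi
        rw [pderiv_X_of_ne hi]; simp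
      · simp
    rw [h1]
    simp only [mul_add, Finset.sum_add_distrib]
    congr 1
    · rw [Finset.sum_eq_single l]
      · rw [pderiv_X_self, map_one]; ring
      · intro i _ hi
        rw [pderiv_X_of_ne hi.symm]; simp
      · simp
    · rw [Finset.mul_sum]
      exact Finset.sum_congr rfl fun i _ => by ring

/-- invariance under a group of matrices -/
def IsInvG (G : Subgroup (GL (Fin n) k)) (h : MvPolynomial (Fin n) k) : Prop :=
  ∀ g ∈ G, ∀ x : Fin n → k, eval ((g : Matrix (Fin n) (Fin n) k).mulVec x) h = eval x h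

/-- separating polynomial -/
theorem exists_sep (G : Subgroup (GL (Fin n) k)) [Finite G] (x0 : Fin n → k)
    (hx0 : ∀ g ∈ G, g ≠ 1 → (g : Matrix (Fin n) (Fin n) k).mulVec x0 ≠ x0) :
    ∃ q : MvPolynomial (Fin n) k, eval x0 q = 1 ∧
      ∀ g ∈ G, g ≠ 1 → eval ((g : Matrix (Fin n) (Fin n) k).mulVec x0) q = 0 := by
  classical
  have : Fintype G := Fintype.ofFinite G
  have h1 : ∀ g : G, ∃ q : MvPolynomial (Fin n) k, eval x0 q = 1 ∧
      (g ≠ 1 → eval ((g.1 : Matrix (Fin n) (Fin n) k).mulVec x0) q = 0) := by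
    intro g
    by_cases hg : g = 1
    · exact ⟨1, by simp, fun h => absurd hg h⟩
    · have h2 := hx0 g.1 g.2 (fun h => hg (Subtype.ext h))
      obtain ⟨i, hi⟩ := Function.ne_iff.mp h2
      set y := (g.1 : Matrix (Fin n) (Fin n) k).mulVec x0
      refine ⟨C (x0 i - y i)⁻¹ * (X i - C (y i)), ?_, fun _ => ?_⟩
      · rw [map_mul, eval_C, map_sub, eval_X, eval_C, inv_mul_cancel₀]
        exact sub_ne_zero.mpr hi.symm
      · rw [map_mul, map_sub, eval_X, eval_C, eval_C, sub_self, mul_zero]
  choose q hq1 hq2 using h1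
  refine ⟨∏ g, q g, ?_, ?_⟩
  · rw [map_prod]
    exact Finset.prod_eq_one fun g _ => hq1 g
  · intro g hg hne
    rw [map_prod]
    exact Finset.prod_eq_zero (Finset.mem_univ (⟨g, hg⟩ : G))
      (hq2 ⟨g, hg⟩ (fun h => hne (congrArg Subtype.val h)))

theorem exists_inv_grad (G : Subgroup (GL (Fin n) k)) [Finite G] (x0 : Fin n → k)
    (hx0 : ∀ g ∈ G, g ≠ 1 → (g : Matrix (Fin n) (Fin n) k).mulVec x0 ≠ x0) (v : Fin n → k) :
    ∃ h : MvPolynomial (Fin n) k, IsInvG G h ∧ ∀ j, eval x0 (pderiv j h) = v j := by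
  classical
  have : Fintype G := Fintype.ofFinite G
  obtain ⟨q, hq1, hq2⟩ := exists_sep G x0 hx0
  let ℓ : MvPolynomial (Fin n) k := ∑ i, C (v i) * (X i - C (x0 i))
  let a : MvPolynomial (Fin n) k := q ^ 2 * ℓ
  have hℓ : eval x0 ℓ = 0 := by
    simp [ℓ]
  have hℓ' : ∀ j, pderiv j ℓ = C (v j) := by
    intro j
    change pderiv j (∑ i, C (v i) * (X i - C (x0 i))) = _
    rw [map_sum, Finset.sum_eq_single j]
    · rw [pderiv_C_mul, map_sub, pderiv_X_self, pderiv_C, sub_zero]
      simp
    · intro i _ hi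
      rw [pderiv_C_mul, map_sub, pderiv_X_of_ne hi, pderiv_C, sub_zero]
      simp
    · simp
  have ha : ∀ j, pderiv j a = q ^ 2 * C (v j) + ℓ * (2 * q * pderiv j q) := by
    intro j
    change pderiv j (q ^ 2 * ℓ) = _
    rw [Derivation.leibniz, hℓ', Derivation.leibniz_pow]
    simp only [smul_eq_mul, nsmul_eq_mul]
    push_cast
    ring
  have ha1 : ∀ j, eval x0 (pderiv j a) = v j := by
    intro j
    rw [ha, map_add, map_mul, map_mul, map_pow, hq1, hℓ, eval_C]
    ring
  have ha2 : ∀ g ∈ G, g ≠ 1 → ∀ j,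
      eval ((g : Matrix (Fin n) (Fin n) k).mulVec x0) (pderiv j a) = 0 := by
    intro g hg hne j
    rw [ha, map_add, map_mul, map_mul, map_mul, map_mul, map_pow, hq2 g hg hne]
    ring
  refine ⟨∑ g : G, sb (g.1 : Matrix (Fin n) (Fin n) k) a, ?_, ?_⟩
  · intro g hg x
    rw [map_sum, map_sum]
    refine Fintype.sum_equiv (Equiv.mulRight (⟨g, hg⟩ : G)) _ _ fun g' => ?_
    rw [eval_sb, eval_sb, Matrix.mulVec_mulVec]
    rfl
  · intro j
    rw [map_sum, map_sum, Finset.sum_eq_single (1 : G)]
    · rw [pderiv_sb, map_sum, Finset.sum_eq_single j]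
      · rw [map_mul, eval_sb, eval_C]
        simp [ha1]
      · intro l _ hl
        rw [map_mul, eval_C]
        simp [Matrix.one_apply_ne hl]
      · simp
    · intro g _ hg
      rw [pderiv_sb, map_sum]
      apply Finset.sum_eq_zero
      intro l _
      rw [map_mul, eval_sb, ha2 g.1 g.2 (fun h => hg (Subtype.ext h)), mul_zero]
    · simp

/-- homogeneous components of invariants are invariant -/
theorem inv_Th [Infinite k] {G : Subgroup (GL (Fin n) k)} {h : MvPolynomial (Fin n) k}
    (hh : IsInvG G h) (i : ℕ) : IsInvG G ((Th h).coeff i) := by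
  intro g hg x
  -- compare the polynomials in `t`
  have h1 : ∀ y : Fin n → k, ((Th h).map (eval y)) =
      ((Th h).map (eval y)) := fun _ => rfl
  have h2 : ∀ (y : Fin n → k) (t : k), ((Th h).map (eval y)).eval t = eval (t • y) h := by
    intro y t
    rw [eval_Th]
    have h3 := Polynomial.hom_eval₂ (Th h) (RingHom.id _) (eval y) (C t)
    rw [Polynomial.eval_map]
    change _ = eval y (Polynomial.eval₂ (RingHom.id _) (C t) (Th h))
    rw [h3, eval_C, RingHom.comp_id]
  have h3 : (Th h).map (eval ((g : Matrix (Fin n) (Fin n) k).mulVec x)) =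
      (Th h).map (eval x) := by
    apply Polynomial.funext
    intro t
    rw [h2, h2, ← Matrix.mulVec_smul, hh g hg]
  have h4 := congrArg (fun q => q.coeff i) h3
  simp only [Polynomial.coeff_map] at h4
  exact h4

theorem sum_Th (h : MvPolynomial (Fin n) k) :
    h = ∑ i ∈ Finset.range ((Th h).natDegree + 1), (Th h).coeff i := by
  have h1 : (Polynomial.evalRingHom (1 : MvPolynomial (Fin n) k)).comp
      (Th : MvPolynomial (Fin n) k →ₐ[k] _).toRingHom = RingHom.id _ := by
    apply MvPolynomial.ringHom_ext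
    · intro a
      change Polynomial.eval 1 (Th (C a)) = C a
      rw [Th_C, Polynomial.eval_C]
    · intro i
      change Polynomial.eval 1 (Th (X i)) = X i
      rw [Th_X, Polynomial.eval_mul, Polynomial.eval_X, mul_one, Polynomial.eval_C]
  have h2 := congrArg (fun φ => φ h) h1
  change Polynomial.eval 1 (Th h) = h at h2
  conv_lhs => rw [← h2, Polynomial.eval_eq_sum_range]
  simp

/-- There are homogeneous invariants with independent gradients at a point with trivial
stabiliser. -/
theorem exists_inv_indep [Infinite k] (G : Subgroup (GL (Fin n) k)) [Finite G] (x0 : Fin n → k)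
    (hx0 : ∀ g ∈ G, g ≠ 1 → (g : Matrix (Fin n) (Fin n) k).mulVec x0 ≠ x0) :
    ∃ (e : Fin n → ℕ) (h : Fin n → MvPolynomial (Fin n) k),
      (∀ i, (h i).IsHomogeneous (e i)) ∧ (∀ i, IsInvG G (h i)) ∧
      (Matrix.of fun i j => eval x0 (pderiv j (h i))).det ≠ 0 := by
  classical
  let I : Type := {p : ℕ × MvPolynomial (Fin n) k // p.2.IsHomogeneous p.1 ∧ IsInvG G p.2}
  let v : I → (Fin n → k) := fun p j => eval x0 (pderiv j p.1.2)
  have h1 : Submodule.span k (Set.range v) = ⊤ := by
    rw [eq_top_iff]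
    intro w _
    obtain ⟨h, hh, hw⟩ := exists_inv_grad G x0 hx0 w
    have h2 : w = ∑ i ∈ Finset.range ((Th h).natDegree + 1),
        v ⟨(i, (Th h).coeff i), Th_homog h i, inv_Th hh i⟩ := by
      funext j
      rw [Finset.sum_apply, ← hw j]
      conv_lhs => rw [sum_Th h]
      rw [map_sum, map_sum]
    rw [h2]
    exact Submodule.sum_mem _ fun i _ => Submodule.subset_span ⟨_, rfl⟩
  obtain ⟨κ, a, _, ha2, ha3⟩ := exists_linearIndependent' k v
  rw [h1] at ha2
  let b : Module.Basis κ k (Fin n → k) := Module.Basis.mk ha3 ha2.ge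
  have hfin : Finite κ := Module.Finite.finite_basis b
  have : Fintype κ := Fintype.ofFinite κ
  have hcard : Fintype.card κ = Fintype.card (Fin n) := by
    rw [← Module.finrank_eq_card_basis b, Module.finrank_fin_fun, Fintype.card_fin]
  let e := Fintype.equivOfCardEq hcard
  refine ⟨fun j => (a (e.symm j)).1.1, fun j => (a (e.symm j)).1.2,
    fun j => (a (e.symm j)).2.1, fun j => (a (e.symm j)).2.2, ?_⟩
  let b' : Module.Basis (Fin n) k (Fin n → k) := b.reindex e
  have h2 : LinearIndependent k (fun j => v (a (e.symm j))) := by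
    have := b'.linearIndependent
    have h3 : (b' : Fin n → (Fin n → k)) = fun j => v (a (e.symm j)) := by
      funext j
      simp [b', b]
    rwa [h3] at this
  intro h0
  obtain ⟨w, hw, hw2⟩ := Matrix.exists_vecMul_eq_zero_iff.mpr h0
  apply hw
  funext j
  apply Fintype.linearIndependent_iff.mp h2 w
  rw [← hw2]
  funext i
  simp [Matrix.vecMul, dotProduct, v]

end

end Pool.Agent.R855.Sing
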