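import Pool.Agent.R855.Sing.Nak

/-!
The Jacobian argument: rings of invariants of finite linear groups without pseudo-reflections.
-/

open MvPolynomial

namespace Pool.Agent.R855.Sing

noncomputable section

variable {k : Type} [Field k] {n : ℕ}

/-- twisted gradient: `δ ^ (m + 1) ∇ (p / δ ^ m)` -/
def tg (δ : MvPolynomial (Fin n) k) (m : ℕ) (p : MvPolynomial (Fin n) k) :
    Fin n → MvPolynomial (Fin n) k :=
  fun j => δ * pderiv j p - (m : MvPolynomial (Fin n) k) * (p * pderiv j δ)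

theorem tg_mul (δ : MvPolynomial (Fin n) k) (m m' : ℕ) (p p' : MvPolynomial (Fin n) k) :
    tg δ (m + m') (p * p') = p • tg δ m' p' + p' • tg δ m p := by
  funext j
  simp only [tg, Pi.add_apply, Pi.smul_apply, smul_eq_mul, Derivation.leibniz]
  push_cast
  ring

theorem tg_sum (δ : MvPolynomial (Fin n) k) (m : ℕ) {ι : Type} (s : Finset ι)
    (p : ι → MvPolynomial (Fin n) k) : tg δ m (∑ i ∈ s, p i) = ∑ i ∈ s, tg δ m (p i) := by
  funext j
  rw [Finset.sum_apply]
  simp only [tg, map_sum, Finset.mul_sum, Finset.sum_mul, Finset.sum_sub_distrib]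

theorem tg_sub (δ : MvPolynomial (Fin n) k) (m : ℕ) (p p' : MvPolynomial (Fin n) k) :
    tg δ m (p - p') = tg δ m p - tg δ m p' := by
  funext j
  simp only [tg, Pi.sub_apply, map_sub]
  ring

theorem tg_C_pow (δ : MvPolynomial (Fin n) k) (m : ℕ) (a : k) : tg δ m (C a * δ ^ m) = 0 := by
  funext j
  simp only [tg, pderiv_C_mul, Derivation.leibniz_pow, Pi.zero_apply, smul_eq_mul, nsmul_eq_mul]
  rcases m with _ | m
  · simp
  · rw [Nat.add_sub_cancel]
    push_cast
    ring

/-- A graded family of spaces of polynomials. -/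
structure Fam (k : Type) [Field k] (n : ℕ) where
  S : ℕ → Submodule k (MvPolynomial (Fin n) k)
  δ : MvPolynomial (Fin n) k
  δ_mem : δ ∈ S 1
  δ0 : eval 0 δ ≠ 0
  one_mem : 1 ∈ S 0
  mul_mem : ∀ {l m : ℕ} {p q : MvPolynomial (Fin n) k}, p ∈ S l → q ∈ S m → p * q ∈ S (l + m)

theorem Fam.pow_mem (𝓕 : Fam k n) (m : ℕ) : 𝓕.δ ^ m ∈ 𝓕.S m := by
  induction m with
  | zero => rw [pow_zero]; exact 𝓕.one_mem
  | succ m ih => rw [pow_succ]; exact 𝓕.mul_mem ih 𝓕.δ_mem

/-- fixed space -/
def fixS (g : GL (Fin n) k) : Submodule k (Fin n → k) :=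
  LinearMap.ker (Matrix.mulVecLin (g : Matrix (Fin n) (Fin n) k) - LinearMap.id)

theorem mem_fixS (g : GL (Fin n) k) (x : Fin n → k) :
    x ∈ fixS g ↔ (g : Matrix (Fin n) (Fin n) k).mulVec x = x := by
  unfold fixS
  rw [LinearMap.mem_ker, LinearMap.sub_apply, sub_eq_zero]
  rfl

theorem Fam.jac [IsAlgClosed k] (𝓕 : Fam k n) (τ : Fin n → MvPolynomial (Fin n) k)
    (w : Fin n → ℕ) (hτ : ∀ i, τ i ∈ 𝓕.S (w i)) (hτ0 : ∀ i, eval 0 (τ i) = 0)
    (hgen : ∀ (m : ℕ), ∀ p ∈ 𝓕.S m, eval 0 p = 0 →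
      ∃ (l : ℕ) (s : MvPolynomial (Fin n) k) (α : Fin n → MvPolynomial (Fin n) k)
        (v : Fin n → ℕ), s ∈ 𝓕.S l ∧ eval 0 s ≠ 0 ∧ (∀ i, α i ∈ 𝓕.S (v i)) ∧
        (∀ i, v i + w i = l + m) ∧ s * p = ∑ i, α i * τ i)
    (G : Subgroup (GL (Fin n) k)) [Finite G]
    (hlead : ∀ (j : ℕ) (h : MvPolynomial (Fin n) k), h.IsHomogeneous j → IsInvG G h →
      ∃ (m : ℕ) (p : MvPolynomial (Fin n) k) (c : k), p ∈ 𝓕.S m ∧ c ≠ 0 ∧ Lo j p (C c * h))
    (hcod : ∀ g ∈ G, g ≠ 1 → Module.finrank k (fixS g) + 2 ≤ n) :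
    (Matrix.of fun i j => eval 0 (pderiv j (τ i))).det ≠ 0 := by
  classical
  have hinf : Infinite k := IsAlgClosed.instInfinite
  let R := MvPolynomial (Fin n) k
  set δ := 𝓕.δ with hδ
  -- the modules
  let E : Submodule R (Fin n → R) := Submodule.span R {e | ∃ m, ∃ p ∈ 𝓕.S m, e = tg δ m p}
  let E' : Submodule R (Fin n → R) := Submodule.span R (Set.range fun i => tg δ (w i) (τ i))
  have hE : ∀ m, ∀ p ∈ 𝓕.S m, tg δ m p ∈ E := fun m p hp => Submodule.subset_span ⟨m, p, hp, rfl⟩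
  have hE' : ∀ i, tg δ (w i) (τ i) ∈ E' := fun i => Submodule.subset_span ⟨i, rfl⟩
  have hgen' : ∀ m, ∀ p ∈ 𝓕.S m, ∃ s : R, eval 0 s ≠ 0 ∧ s • tg δ m p ∈ E' ⊔ mx k n • E := by
    intro m p hp
    set a : k := eval 0 p / (eval 0 δ) ^ m with ha
    have hp' : p - C a * δ ^ m ∈ 𝓕.S m := by
      apply Submodule.sub_mem _ hp
      rw [← smul_eq_C_mul]
      exact Submodule.smul_mem _ _ (𝓕.pow_mem m)
    have hp'0 : eval 0 (p - C a * δ ^ m) = 0 := by
      rw [map_sub, map_mul, eval_C, map_pow, ha, div_mul_cancel₀ _ (pow_ne_zero _ 𝓕.δ0),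
        sub_self]
    have htg : tg δ m (p - C a * δ ^ m) = tg δ m p := by
      rw [tg_sub, tg_C_pow, sub_zero]
    obtain ⟨l, s, α, v, hs, hs0, hα, hv, heq⟩ := hgen m _ hp' hp'0
    refine ⟨s, hs0, ?_⟩
    have h1 := congrArg (tg δ (l + m)) heq
    rw [tg_mul, tg_sum, htg] at h1
    have h2 : s • tg δ m p = ∑ i, tg δ (l + m) (α i * τ i) -
        (p - C a * δ ^ m) • tg δ l s := by
      rw [← h1]; abel
    rw [h2]
    apply Submodule.sub_mem
    · refine Submodule.sum_mem _ fun i _ => ?_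
      rw [← hv i, tg_mul]
      apply Submodule.add_mem
      · exact Submodule.mem_sup_left (Submodule.smul_mem _ _ (hE' i))
      · exact Submodule.mem_sup_right (Submodule.smul_mem_smul (mem_mx.mpr (hτ0 i))
          (hE _ _ (hα i)))
    · exact Submodule.mem_sup_right (Submodule.smul_mem_smul (mem_mx.mpr hp'0) (hE _ _ hs))
  have hgen2 : ∀ e ∈ E, ∃ s : R, eval 0 s ≠ 0 ∧ s • e ∈ E' ⊔ mx k n • E := by
    intro e he
    induction he using Submodule.span_induction with
    | mem x hx =>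
      obtain ⟨m, p, hp, rfl⟩ := hx
      exact hgen' m p hp
    | zero => exact ⟨1, by rw [map_one]; exact one_ne_zero, by
        rw [smul_zero]; exact Submodule.zero_mem _⟩
    | add x y _ _ hx hy =>
      obtain ⟨s, hs, hs'⟩ := hx
      obtain ⟨t, ht, ht'⟩ := hy
      refine ⟨s * t, by rw [map_mul]; exact mul_ne_zero hs ht, ?_⟩
      rw [smul_add]
      apply Submodule.add_mem
      · rw [mul_comm, mul_smul]
        exact Submodule.smul_mem _ _ hs'
      · rw [mul_smul]
        exact Submodule.smul_mem _ _ ht'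
    | smul a x _ hx =>
      obtain ⟨s, hs, hs'⟩ := hx
      refine ⟨s, hs, ?_⟩
      rw [smul_comm]
      exact Submodule.smul_mem _ _ hs'
  obtain ⟨u, hu0, hu⟩ := nak E E' hgen2
  -- the Jacobian
  let T : Matrix (Fin n) (Fin n) R := Matrix.of fun i => tg δ (w i) (τ i)
  have hT0 : eval 0 T.det = (eval 0 δ) ^ n *
      (Matrix.of fun i j => eval 0 (pderiv j (τ i))).det := by
    rw [RingHom.map_det]
    have h1 : (eval (0 : Fin n → k)).mapMatrix T =
        (eval 0 δ) • (Matrix.of fun i j => eval 0 (pderiv j (τ i))) := by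
      refine Matrix.ext fun i j => ?_
      rw [RingHom.mapMatrix_apply, Matrix.map_apply, Matrix.smul_apply]
      change eval 0 (δ * pderiv j (τ i) - (w i : R) * (τ i * pderiv j δ)) = _
      rw [map_sub, map_mul, map_mul, map_mul, hτ0, zero_mul, mul_zero, sub_zero]
      rfl
    rw [h1, Matrix.det_smul, Fintype.card_fin]
  intro hdet
  rw [hdet, mul_zero] at hT0
  -- a zero of the lowest part
  have hx : ∃ x0 : Fin n → k, eval x0 (L T.det) = 0 ∧
      ∀ g ∈ G, g ≠ 1 → (g : Matrix (Fin n) (Fin n) k).mulVec x0 ≠ x0 := by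
    have hfin : Finite {g : G // g ≠ 1} := inferInstance
    by_cases hz : T.det = 0
    · obtain ⟨x0, hx0⟩ := exists_notMem (fun g : {g : G // g ≠ 1} => fixS g.1.1) (by
        intro g h
        have h1 := hcod g.1.1 g.1.2 (fun h' => g.2 (Subtype.ext h'))
        have h2 : Module.finrank k (Fin n → k) = n := by simp
        rw [h, finrank_top, h2] at h1
        omega)
      refine ⟨x0, by rw [hz, L_zero, map_zero], fun g hg hne => ?_⟩
      have h1 := hx0 ⟨⟨g, hg⟩, fun h' => hne (congrArg Subtype.val h')⟩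
      rwa [mem_fixS] at h1
    · obtain ⟨e, he, hL⟩ := exists_Lo hz
      have hhom : (L T.det).IsHomogeneous e := by
        rw [← he.2]
        exact Th_homog _ _
      have he0 : e ≠ 0 := by
        rintro rfl
        apply hL
        rw [← he.2, Th_coeff_zero, hT0, C_0]
      obtain ⟨x0, hx1, hx0⟩ := exists_zero (fun g : {g : G // g ≠ 1} => fixS g.1.1)
        (fun g => hcod g.1.1 g.1.2 (fun h' => g.2 (Subtype.ext h'))) hhom he0
      refine ⟨x0, hx1, fun g hg hne => ?_⟩
      have h1 := hx0 ⟨⟨g, hg⟩, fun h' => hne (congrArg Subtype.val h')⟩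
      rwa [mem_fixS] at h1
  obtain ⟨x0, hx1, hx0⟩ := hx
  obtain ⟨e, h, hhom, hinv, hind⟩ := exists_inv_indep G x0 hx0
  choose m p c hp hc hLo using fun i => hlead (e i) (h i) (hhom i) (hinv i)
  have he : ∀ i, e i ≠ 0 := by
    intro i hi
    apply hind
    apply Matrix.det_eq_zero_of_row_eq_zero i
    intro j
    have h1 := hhom i
    rw [hi] at h1
    have h2 : h i = C (coeff 0 (h i)) := by
      have := (totalDegree_eq_zero_iff_eq_C (p := h i)).mp (Nat.le_zero.mp h1.totalDegree_le)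
      exact this
    change eval x0 (pderiv j (h i)) = 0
    rw [h2, pderiv_C, map_zero]
  let P : Matrix (Fin n) (Fin n) R := Matrix.of fun i => tg δ (m i) (p i)
  have hP : Lo (∑ i, (e i - 1)) P.det
      (Matrix.of fun i j => C (eval 0 δ) * pderiv j (C (c i) * h i)).det := by
    apply Lo.det
    intro i j
    change Lo (e i - 1) (δ * pderiv j (p i) - (m i : R) * (p i * pderiv j δ))
      (C (eval 0 δ) * pderiv j (C (c i) * h i))
    have h1 : e i = e i - 1 + 1 := by have := he i; omega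
    have h2 := hLo i
    rw [h1] at h2
    have h3 : Lo (e i - 1) (δ * pderiv j (p i)) (C (eval 0 δ) * pderiv j (C (c i) * h i)) := by
      have := (Lo.const δ).mul (h2.pderiv j)
      rwa [zero_add] at this
    have h4 : Lo (e i - 1) ((m i : R) * (p i * pderiv j δ)) 0 := by
      have h5 := h2.lower.mul (Lo.const (pderiv j δ))
      have h6 := (Lo.const (m i : R)).mul h5
      rw [zero_add, add_zero, zero_mul, mul_zero] at h6
      exact h6
    have h7 := h3.sub h4
    rwa [sub_zero] at h7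
  set H : R := (Matrix.of fun i j => C (eval 0 δ) * pderiv j (C (c i) * h i)).det with hH
  have hHx : eval x0 H ≠ 0 := by
    rw [hH, RingHom.map_det]
    have h1 : (eval x0).mapMatrix (Matrix.of fun i j => C (eval 0 δ) * pderiv j (C (c i) * h i)) =
        Matrix.diagonal (fun i => eval 0 δ * c i) *
          (Matrix.of fun i j => eval x0 (pderiv j (h i))) := by
      refine Matrix.ext fun i j => ?_
      rw [RingHom.mapMatrix_apply, Matrix.map_apply, Matrix.diagonal_mul]
      change eval x0 (C (eval 0 δ) * pderiv j (C (c i) * h i)) = _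
      rw [pderiv_C_mul, map_mul, map_mul, eval_C, eval_C]
      change _ = _ * eval x0 (pderiv j (h i))
      ring
    rw [h1, Matrix.det_mul, Matrix.det_diagonal]
    refine mul_ne_zero (Finset.prod_ne_zero_iff.mpr fun i _ => ?_) hind
    exact mul_ne_zero 𝓕.δ0 (hc i)
  have hH0 : H ≠ 0 := by
    intro h0
    rw [h0, map_zero] at hHx
    exact hHx rfl
  have hLP := hP.L hH0
  -- the comparison
  have hCm : ∃ Cm : Matrix (Fin n) (Fin n) R, u • P = Cm * T := by
    have h1 : ∀ i, ∃ cc : Fin n → R, ∑ j, cc j • tg δ (w j) (τ j) = u • tg δ (m i) (p i) := by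
      intro i
      have h2 := hu _ (hE _ _ (hp i))
      exact (Submodule.mem_span_range_iff_exists_fun R).mp h2
    choose cc hcc using h1
    refine ⟨Matrix.of cc, ?_⟩
    refine Matrix.ext fun i j => ?_
    rw [Matrix.mul_apply, Matrix.smul_apply]
    have h2 := congrFun (hcc i) j
    rw [Finset.sum_apply] at h2
    exact h2.symm
  obtain ⟨Cm, hCm⟩ := hCm
  have h1 := congrArg Matrix.det hCm
  rw [Matrix.det_smul, Matrix.det_mul, Fintype.card_fin] at h1
  have h2 : eval x0 (L (u ^ n * P.det)) = eval x0 (L (Cm.det * T.det)) := by rw [h1]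
  rw [L_mul, L_mul, L_pow, map_mul, map_mul, map_pow, hx1, mul_zero, hLP] at h2
  have hLu : L u = C (eval 0 u) := by
    apply (Lo.const u).L
    intro h3
    exact hu0 (by simpa using h3)
  rw [hLu, eval_C] at h2
  exact mul_ne_zero (pow_ne_zero _ hu0) hHx h2

end

end Pool.Agent.R855.Sing
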