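import Pool.Agent.Helper819.Gr.Lead5
import Pool.Agent.Helper819.CloseGL
import Pool.Agent.Helper819.Gr.Res4

/-!
The conjugation action as an instance of the general theory of actions of matrix monoids.
-/

open MvPolynomial

namespace Pool.Agent.R855.Sing

open Pool.Agent.Helper819.Apolar Pool.Agent.Helper819.Dyn Pool.Agent.Helper819

noncomputable section

set_option linter.unusedSectionVars false

/-- The conjugation action on coefficient vectors of tuples of forms. -/
def MA (N d : ℕ) : Gr.DAct Unit (N + 1) (Ix N d) where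
  act A c := actT (A ()) c
  map_act φ A c p := map_actT φ (A ()) c p
  act_act A B c := by
    rw [actT_actT]
    rfl
  act_one c := actT_one c
  act_add A c c' := actT_add _ _ _
  act_smul A r c := actT_smul _ _ _
  xi Y c := Dyn.xi (Y ()) c
  xi_add Y Y' c := Dyn.xi_add _ _ _
  xi_smul r Y c := Dyn.xi_smul _ _ _
  map_xi φ Y c p := Dyn.map_xi φ (Y ()) c p
  act_eps e he Y c p := Dyn.actT_eps e he (Y ()) c p

/-- a matrix as an element of the product -/
def un {N : ℕ} {R : Type} (A : Matrix (Fin (N + 1)) (Fin (N + 1)) R) : Gr.Mt Unit (N + 1) R :=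
  fun _ => A

theorem MA_act {N d : ℕ} {R : Type} [CommRing R] (A : Gr.Mt Unit (N + 1) R) (c : Ix N d → R) :
    (MA N d).act A c = actT (A ()) c := rfl

theorem detw_unit {N : ℕ} {R : Type} [CommRing R] (w : Unit → ℕ) (A : Gr.Mt Unit (N + 1) R) :
    Gr.detw w A = (A ()).det ^ w () := by
  unfold Gr.detw
  simp

variable {k : Type} [Field k] [IsAlgClosed k] [CharZero k] {N d : ℕ}

/-- discriminant data: a semi-invariant cutting out the degenerate tuples -/
structure DD (k : Type) [Field k] (N d : ℕ) where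
  D : MvPolynomial (Ix N d) k
  r : Unit → ℕ
  semi : Gr.IsSemi (MA N d).toRAct r D
  iff : ∀ c, eval c D ≠ 0 ↔ NZ (tup c)

theorem exists_DD (hd : 1 ≤ d) : Nonempty (DD k N d) := by
  obtain ⟨D, r, h1, _, h3, _⟩ := Gr.exists_res (k := k) (N := N) (e := d) hd
  refine ⟨⟨D, fun _ => N * r false + r true, ?_, h3⟩⟩
  intro A c
  let A' : Gr.Mt Bool (N + 1) k := fun b => if b then A () else ((A ()).adjugate).transpose
  have e1 : (MA N d).act A c = (Gr.ZA N d).act A' c := by
    change cf (act (A ()) (tup c)) = cf (Gr.zact A' (tup c))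
    congr 1
  have h2 := h1 A' c
  change eval ((MA N d).act A c) D = _
  rw [e1]
  refine h2.trans ?_
  congr 1
  rw [detw_unit]
  unfold Gr.detw
  rw [Fintype.prod_bool]
  change (A ()).det ^ r true * (((A ()).adjugate).transpose).det ^ r false = _
  rw [Matrix.det_transpose, Matrix.det_adjugate, Fintype.card_fin, Nat.add_sub_cancel, ← pow_mul,
    ← pow_add]
  congr 1
  exact Nat.add_comm _ _

variable (𝓓 : DD k N d)

theorem DD.act_ne {c : Ix N d → k} (hc : eval c 𝓓.D ≠ 0)
    {A : Matrix (Fin (N + 1)) (Fin (N + 1)) k} (hA : A.det ≠ 0) :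
    eval (actT A c) 𝓓.D ≠ 0 := by
  have h1 := 𝓓.semi (un A) c
  rw [detw_unit] at h1
  change eval (actT A c) 𝓓.D = _ at h1
  rw [h1]
  exact mul_ne_zero (pow_ne_zero _ hA) hc

/-- orbits of nondegenerate vectors are closed -/
theorem DD.closed (hd : 2 ≤ d) {f : Ix N d → k} (hf : eval f 𝓓.D ≠ 0) (c : Ix N d → k)
    (hc : eval c 𝓓.D ≠ 0) (h : ∀ P : MvPolynomial (Ix N d) k,
      aeval (Gr.orb (MA N d).toRAct f) P = 0 → eval c P = 0) :
    ∃ A : Matrix (Fin (N + 1)) (Fin (N + 1)) k, A.det ≠ 0 ∧ actT A f = c := by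
  have hinf : Infinite k := IsAlgClosed.instInfinite
  apply closed_GL hd ((𝓓.iff f).mp hf) c ((𝓓.iff c).mp hc)
  intro P hP
  apply h
  apply Gr.poly_ext
  intro A hA
  rw [Gr.eval_aeval_orb, map_zero]
  exact hP (A ()) (hA ())

theorem actT_inv {A : Matrix (Fin (N + 1)) (Fin (N + 1)) k} (hA : A.det ≠ 0) (c : Ix N d → k) :
    actT A⁻¹ (actT A c) = c := by
  rw [actT_actT, Matrix.mul_nonsing_inv _ (isUnit_iff_ne_zero.mpr hA), actT_one]

theorem actT_inv' {A : Matrix (Fin (N + 1)) (Fin (N + 1)) k} (hA : A.det ≠ 0) (c : Ix N d → k) :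
    actT A (actT A⁻¹ c) = c := by
  rw [actT_actT, Matrix.nonsing_inv_mul _ (isUnit_iff_ne_zero.mpr hA), actT_one]

theorem det_inv_ne {A : Matrix (Fin (N + 1)) (Fin (N + 1)) k} (hA : A.det ≠ 0) :
    A⁻¹.det ≠ 0 := by
  rw [Matrix.det_nonsing_inv, Ring.inverse_eq_inv']
  exact inv_ne_zero hA

/-- Every invariant form on the normal space is a leading form of a semi-invariant. -/
theorem DD.lead (hd : 2 ≤ d) {f : Ix N d → k} (hf : eval f 𝓓.D ≠ 0) (j : ℕ)
    (Q : MvPolynomial (Ix N d) k) (hQj : Q.IsHomogeneous j)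
    (hQT : ∀ (Y : Matrix (Fin (N + 1)) (Fin (N + 1)) k) (v : Ix N d → k),
      eval (v + Dyn.xi Y f) Q = eval v Q)
    (hQH : ∀ A : Matrix (Fin (N + 1)) (Fin (N + 1)) k, A.det ≠ 0 → actT A f = f →
      ∀ v : Ix N d → k, eval (actT A v) Q = eval v Q) :
    ∃ (m : ℕ) (q : MvPolynomial (Ix N d) k), Gr.IsSemi (MA N d).toRAct (m • 𝓓.r) q ∧
      Gr.Ord j q f ∧ ∀ v, eval v (Gr.lf j q f) = eval f 𝓓.D ^ m * eval v Q := by
  have hinf : Infinite k := IsAlgClosed.instInfinite
  apply Gr.exists_lead (MA N d) f 𝓓.semi ?_ j Q hQj (fun Y v => hQT (Y ()) v)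
    (fun A hA hfix v => hQH (A ()) (hA ()) hfix v)
  intro c hc h P hP
  obtain ⟨A, hA, rfl⟩ := 𝓓.closed hd hf c hc h
  have h1 := Gr.eval_aeval_orb (MA N d).toRAct (un A⁻¹) (actT A f) P
  rw [hP, map_zero] at h1
  have h2 : (MA N d).act (un A⁻¹) (actT A f) = f := actT_inv hA f
  rw [h2] at h1
  exact h1.symm

/-- the weight is positive -/
theorem DD.r_pos (hd : 1 ≤ d) (h0 : ∃ c, eval c 𝓓.D ≠ 0) : 0 < 𝓓.r () := by
  by_contra hcon
  have h1 : 𝓓.r () = 0 := by omega
  obtain ⟨c, hc⟩ := h0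
  have hinf : Infinite k := IsAlgClosed.instInfinite
  have h2 : ∀ t : k, t ≠ 0 → eval (t • c) 𝓓.D = eval c 𝓓.D := by
    intro t ht
    obtain ⟨s, hs⟩ := IsAlgClosed.exists_pow_nat_eq t (n := N + d) (by omega)
    have h3 := 𝓓.semi (un (s • 1)) c
    rw [detw_unit, h1, pow_zero, one_mul] at h3
    change eval (actT (s • 1) c) 𝓓.D = _ at h3
    rw [actT_scalar, hs] at h3
    exact h3
  -- a polynomial in `t`
  let P : Polynomial k := aeval (fun p => Polynomial.X * Polynomial.C (c p)) 𝓓.D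
  have hP : ∀ a : k, P.eval a = eval (a • c) 𝓓.D := by
    intro a
    have h1 : (Polynomial.evalRingHom a).comp
        (aeval (fun p => Polynomial.X * Polynomial.C (c p)) :
          MvPolynomial (Ix N d) k →ₐ[k] Polynomial k).toRingHom = eval (a • c) := by
      apply MvPolynomial.ringHom_ext
      · intro b
        change Polynomial.eval a (aeval _ (C b)) = _
        rw [algHom_C, eval_C]
        simp
      · intro i
        change Polynomial.eval a (aeval _ (X i)) = _
        rw [aeval_X, eval_X]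
        simp
        ring
    exact congrArg (fun φ => φ 𝓓.D) h1
  have h3 : Polynomial.X * P = Polynomial.X * Polynomial.C (eval c 𝓓.D) := by
    apply Polynomial.funext
    intro t
    rw [Polynomial.eval_mul, Polynomial.eval_mul, Polynomial.eval_X, Polynomial.eval_C]
    by_cases ht : t = 0
    · rw [ht, zero_mul, zero_mul]
    · rw [hP, h2 t ht]
  have h4 : P = Polynomial.C (eval c 𝓓.D) := mul_left_cancel₀ Polynomial.X_ne_zero h3
  have h5 := hP 0
  rw [h4, Polynomial.eval_C, zero_smul] at h5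
  have h6 : NZ (tup (0 : Ix N d → k)) := (𝓓.iff 0).mp (by rw [← h5]; exact hc)
  have h7 := h6 (fun _ => 1) (by
    intro i
    unfold tup
    simp)
  exact one_ne_zero (congrFun h7 0)

end

end Pool.Agent.R855.Sing
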