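import Pool.Agent.R855.Sing.Inv

/-!
A form of Nakayama's lemma and zeros of forms off small linear subspaces.
-/

open MvPolynomial

namespace Pool.Agent.R855.Sing

noncomputable section

variable {k : Type} [Field k] {n : ℕ}

/-- the maximal ideal of the origin -/
def mx (k : Type) [Field k] (n : ℕ) : Ideal (MvPolynomial (Fin n) k) := RingHom.ker (eval 0)

theorem mem_mx {p : MvPolynomial (Fin n) k} : p ∈ mx k n ↔ eval 0 p = 0 := RingHom.mem_ker

theorem nak {m : ℕ} (E E' : Submodule (MvPolynomial (Fin n) k) (Fin m → MvPolynomial (Fin n) k))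
    (h : ∀ e ∈ E, ∃ s : MvPolynomial (Fin n) k, eval 0 s ≠ 0 ∧ s • e ∈ E' ⊔ mx k n • E) :
    ∃ u : MvPolynomial (Fin n) k, eval 0 u ≠ 0 ∧ ∀ e ∈ E, u • e ∈ E' := by
  classical
  let R := MvPolynomial (Fin n) k
  have hfg : E.FG := IsNoetherian.noetherian E
  obtain ⟨S, hS⟩ := hfg
  have hSE : ∀ e ∈ S, e ∈ E := fun e he => by rw [← hS]; exact Submodule.subset_span he
  choose! s hs1 hs2 using h
  let t : R := ∏ e ∈ S, s e
  have ht : eval 0 t ≠ 0 := by
    change eval 0 (∏ e ∈ S, s e) ≠ 0
    rw [map_prod]
    exact Finset.prod_ne_zero_iff.mpr fun e he => hs1 e (hSE e he)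
  have htE : ∀ e ∈ E, t • e ∈ E' ⊔ mx k n • E := by
    intro e he
    rw [← hS] at he
    induction he using Submodule.span_induction with
    | mem x hx =>
      change (∏ e ∈ S, s e) • x ∈ _
      rw [← Finset.prod_erase_mul _ _ hx, mul_smul]
      exact Submodule.smul_mem _ _ (hs2 x (hSE x hx))
    | zero => rw [smul_zero]; exact Submodule.zero_mem _
    | add x y _ _ hx hy => rw [smul_add]; exact Submodule.add_mem _ hx hy
    | smul a x _ hx => rw [smul_comm]; exact Submodule.smul_mem _ _ hx
  let N : Submodule R ((Fin m → R) ⧸ E') := E.map E'.mkQ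
  have hN : N ≤ mx k n • N := by
    rintro _ ⟨e, he, rfl⟩
    set c : k := eval 0 t with hc
    have h1 : (C c - t : R) ∈ mx k n := by
      rw [mem_mx, map_sub, eval_C, ← hc, sub_self]
    have h2 : E'.mkQ ((C c : R) • e) ∈ mx k n • N := by
      have h3 : (C c : R) • e = t • e + (C c - t) • e := by
        rw [← add_smul]; congr 1; ring
      rw [h3, map_add]
      apply Submodule.add_mem
      · obtain ⟨a, ha, b, hb, hab⟩ := Submodule.mem_sup.mp (htE e he)
        have h4 : E'.mkQ a = 0 := (Submodule.Quotient.mk_eq_zero E').mpr ha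
        rw [← hab, map_add, h4, zero_add]
        change E'.mkQ b ∈ mx k n • E.map E'.mkQ
        rw [← Submodule.map_smul'']
        exact Submodule.mem_map_of_mem hb
      · rw [map_smul]
        exact Submodule.smul_mem_smul h1 (Submodule.mem_map_of_mem he)
    have h4 : E'.mkQ e = (C c⁻¹ : R) • E'.mkQ ((C c : R) • e) := by
      rw [← map_smul, smul_smul, ← C_mul, inv_mul_cancel₀ ht, C_1, one_smul]
    rw [h4]
    exact Submodule.smul_mem _ _ h2
  obtain ⟨r, hr1, hr2⟩ := Submodule.exists_sub_one_mem_and_smul_eq_zero_of_fg_of_le_smul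
    (mx k n) N (Submodule.FG.map _ ⟨S, hS⟩) hN
  refine ⟨r, ?_, ?_⟩
  · rw [mem_mx, map_sub, map_one, sub_eq_zero] at hr1
    rw [hr1]
    exact one_ne_zero
  · intro e he
    have h5 := hr2 (E'.mkQ e) (Submodule.mem_map_of_mem he)
    rw [← map_smul] at h5
    exact (Submodule.Quotient.mk_eq_zero E').mp h5

theorem exists_notMem {V : Type} [AddCommGroup V] [Module k V] [Infinite k] [FiniteDimensional k V]
    {ι : Type} [Finite ι]
    (W : ι → Submodule k V) (hW : ∀ i, W i ≠ ⊤) : ∃ v, ∀ i, v ∉ W i := by
  classical
  have : Fintype ι := Fintype.ofFinite ι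
  have h := Subspace.biUnion_ne_univ_of_top_notMem (s := Finset.univ.image W) (by
    intro hcon
    rw [Finset.mem_image] at hcon
    obtain ⟨i, _, hi⟩ := hcon
    exact hW i hi)
  rw [Ne, Set.eq_univ_iff_forall] at h
  push Not at h
  obtain ⟨v, hv⟩ := h
  refine ⟨v, fun i hi => hv ?_⟩
  rw [Set.mem_iUnion₂]
  exact ⟨W i, Finset.mem_image_of_mem _ (Finset.mem_univ i), hi⟩

/-- A form of positive degree (or zero) has a zero outside finitely many linear subspaces of
codimension at least two. -/
theorem exists_zero [IsAlgClosed k] {ι : Type} [Finite ι]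
    (W : ι → Submodule k (Fin n → k)) (hW : ∀ i, Module.finrank k (W i) + 2 ≤ n)
    {g : MvPolynomial (Fin n) k} {e : ℕ} (hg : g.IsHomogeneous e) (he : e ≠ 0) :
    ∃ x : Fin n → k, eval x g = 0 ∧ ∀ i, x ∉ W i := by
  have hinf : Infinite k := IsAlgClosed.instInfinite
  have hn : Module.finrank k (Fin n → k) = n := by simp
  obtain ⟨u, hu⟩ := exists_notMem W (by
    intro i h
    have h1 := hW i
    rw [h, finrank_top, hn] at h1
    omega)
  obtain ⟨v, hv⟩ := exists_notMem (fun i => W i ⊔ Submodule.span k {u}) (by
    intro i h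
    have h1 := hW i
    have h2 := Submodule.finrank_add_le_finrank_add_finrank (W i) (Submodule.span k {u})
    have h3 : Module.finrank k (Submodule.span k {u}) ≤ 1 := by
      have := finrank_span_le_card (R := k) ({u} : Set (Fin n → k))
      simpa using this
    rw [h, finrank_top, hn] at h2
    omega)
  have hhom : ∀ (a : k) (x : Fin n → k), eval (a • x) g = a ^ e * eval x g := by
    intro a x
    rw [eval_eq', eval_eq', Finset.mul_sum]
    refine Finset.sum_congr rfl fun m hm => ?_
    have hdeg : ∑ i, m i = e := by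
      have := hg (mem_support_iff.mp hm)
      rw [← this]
      simp [Finsupp.weight_apply, Finsupp.sum_fintype]
    simp only [Pi.smul_apply, smul_eq_mul, mul_pow]
    rw [Finset.prod_mul_distrib, Finset.prod_pow_eq_pow_sum, hdeg]
    ring
  by_cases hgu : eval u g = 0
  · exact ⟨u, hgu, hu⟩
  -- the restriction to the line
  let P : Polynomial k := aeval (fun i => Polynomial.X * Polynomial.C (u i) + Polynomial.C (v i)) g
  have hP : ∀ a : k, P.eval a = eval (a • u + v) g := by
    intro a
    have h1 : (Polynomial.evalRingHom a).comp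
        (aeval (fun i => Polynomial.X * Polynomial.C (u i) + Polynomial.C (v i)) :
          MvPolynomial (Fin n) k →ₐ[k] Polynomial k).toRingHom = eval (a • u + v) := by
      apply MvPolynomial.ringHom_ext
      · intro b
        change Polynomial.eval a (aeval _ (C b)) = _
        rw [algHom_C, eval_C]
        simp
      · intro i
        change Polynomial.eval a (aeval _ (X i)) = _
        rw [aeval_X, eval_X]
        simp
        ring
    exact congrArg (fun φ => φ g) h1
  by_cases hroot : ∃ a, P.eval a = 0
  · obtain ⟨a, ha⟩ := hroot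
    rw [hP] at ha
    refine ⟨a • u + v, ha, fun i hi => hv i ?_⟩
    have h1 : v = (a • u + v) + (-a) • u := by
      rw [neg_smul]; abel
    rw [h1]
    exact Submodule.add_mem_sup hi (Submodule.smul_mem _ _ (Submodule.mem_span_singleton_self u))
  · exfalso
    -- `P` is a nonzero constant, so `g (u + t v)` would be too
    have hdeg : P.degree = 0 ∨ P = 0 := by
      by_contra hcon
      push Not at hcon
      obtain ⟨a, ha⟩ := IsAlgClosed.exists_root P hcon.1
      exact hroot ⟨a, ha⟩
    have hconst : ∃ b : k, P = Polynomial.C b := by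
      rcases hdeg with h | h
      · exact ⟨_, Polynomial.eq_C_of_degree_eq_zero h⟩
      · exact ⟨0, by rw [h, Polynomial.C_0]⟩
    obtain ⟨b, hb⟩ := hconst
    -- `g (u + t v) = t ^ e * g (t⁻¹ u + v) = b t ^ e` for `t ≠ 0`
    let Q : Polynomial k := aeval (fun i => Polynomial.C (u i) + Polynomial.X * Polynomial.C (v i)) g
    have hQ : ∀ t : k, Q.eval t = eval (u + t • v) g := by
      intro a
      have h1 : (Polynomial.evalRingHom a).comp
          (aeval (fun i => Polynomial.C (u i) + Polynomial.X * Polynomial.C (v i)) :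
            MvPolynomial (Fin n) k →ₐ[k] Polynomial k).toRingHom = eval (u + a • v) := by
        apply MvPolynomial.ringHom_ext
        · intro b
          change Polynomial.eval a (aeval _ (C b)) = _
          rw [algHom_C, eval_C]
          simp
        · intro i
          change Polynomial.eval a (aeval _ (X i)) = _
          rw [aeval_X, eval_X]
          simp
          ring
      exact congrArg (fun φ => φ g) h1
    have h2 : ∀ t : k, t ≠ 0 → Q.eval t = b * t ^ e := by
      intro t ht
      rw [hQ]
      have h3 : u + t • v = t • (t⁻¹ • u + v) := by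
        rw [smul_add, smul_smul, mul_inv_cancel₀ ht, one_smul]
      rw [h3, hhom, ← hP, hb, Polynomial.eval_C]
      ring
    have h3 : Polynomial.X * Q = Polynomial.X * (Polynomial.C b * Polynomial.X ^ e) := by
      apply Polynomial.funext
      intro t
      rw [Polynomial.eval_mul, Polynomial.eval_mul, Polynomial.eval_X]
      by_cases ht : t = 0
      · rw [ht, zero_mul, zero_mul]
      · rw [h2 t ht]
        simp
    have h4 : Q = Polynomial.C b * Polynomial.X ^ e := mul_left_cancel₀ Polynomial.X_ne_zero h3
    have h5 := hQ 0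
    rw [h4, zero_smul, add_zero] at h5
    apply hgu
    rw [← h5]
    simp [he]

end

end Pool.Agent.R855.Sing
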