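import Pool.Agent.R855.Sing.SingA

/-!
Generators of the maximal ideal at a map without automorphisms.
-/

open MvPolynomial

namespace Pool.Agent.R855.Sing

open Pool.Agent.Helper819.Apolar Pool.Agent.Helper819.Dyn Pool.Agent.Helper819

noncomputable section

set_option linter.unusedSectionVars false

section gen

variable {k : Type} [Field k] {σ : Type}

theorem aeval_homog_mem {R : Type} [CommRing R] [Algebra k R] (𝔫 : Ideal R) {Q : MvPolynomial σ k}
    {j : ℕ} (hQ : Q.IsHomogeneous j) (y : σ → R) (hy : ∀ p, y p ∈ 𝔫) : aeval y Q ∈ 𝔫 ^ j := by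
  classical
  rw [Q.as_sum, map_sum]
  refine Submodule.sum_mem _ fun m hm => ?_
  rw [aeval_monomial]
  apply Ideal.mul_mem_left
  have hdeg : ∑ i ∈ m.support, m i = j := by
    have : m.degree = j := by
      by_contra hne
      exact (mem_support_iff.mp hm) (hQ.coeff_eq_zero hne)
    rw [← this]
    rfl
  rw [← hdeg, ← Finset.prod_pow_eq_pow_sum]
  exact Ideal.prod_mem_prod fun i _ => Ideal.pow_mem_pow (hy i) _

theorem aeval_homog_mul {R : Type} [CommRing R] [Algebra k R] {Q : MvPolynomial σ k}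
    {j : ℕ} (hQ : Q.IsHomogeneous j) (t : R) (y : σ → R) :
    aeval (fun i => t * y i) Q = t ^ j * aeval y Q := by
  classical
  conv_lhs => rw [Q.as_sum]
  conv_rhs => rw [Q.as_sum]
  rw [map_sum, map_sum, Finset.mul_sum]
  refine Finset.sum_congr rfl fun m hm => ?_
  rw [aeval_monomial, aeval_monomial, Finsupp.prod, Finsupp.prod]
  have hdeg : ∑ i ∈ m.support, m i = j := by
    have : m.degree = j := by
      by_contra hne
      exact (mem_support_iff.mp hm) (hQ.coeff_eq_zero hne)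
    rw [← this]
    rfl
  simp only [mul_pow]
  rw [Finset.prod_mul_distrib, Finset.prod_pow_eq_pow_sum, hdeg]
  ring

theorem ord_mem_pow [Infinite k] {M : ℕ} {P : MvPolynomial σ k} {c : σ → k} (h : Gr.Ord M P c) :
    P ∈ (RingHom.ker (eval c)) ^ M := by
  set 𝔫 := RingHom.ker (eval c) with h𝔫
  let y : σ → MvPolynomial σ k := fun p => X p - C (c p)
  have hy : ∀ p, y p ∈ 𝔫 := by
    intro p
    rw [h𝔫, RingHom.mem_ker]
    change eval c (X p - C (c p)) = 0
    rw [map_sub, eval_X, eval_C, sub_self]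
  have h1 : (Gr.tayl (fun p => (C (c p) : MvPolynomial σ k)) y P).eval 1 = P := by
    rw [Gr.eval_tayl]
    have : (fun p => C (c p) + 1 * y p) = (X : σ → MvPolynomial σ k) := by
      funext p
      change C (c p) + 1 * (X p - C (c p)) = X p
      ring
    rw [this]
    exact aeval_X_left_apply P
  have h2 : ∀ i, (Gr.tayl (fun p => (C (c p) : MvPolynomial σ k)) y P).coeff i =
      aeval y (Gr.lf i P c) := fun i => (Gr.aeval_lf i P c y).symm
  rw [← h1, Polynomial.eval_eq_sum_range]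
  refine Submodule.sum_mem _ fun i _ => ?_
  rw [one_pow, mul_one, h2]
  by_cases hi : i < M
  · rw [h i hi, map_zero]
    exact Submodule.zero_mem _
  · exact Ideal.pow_le_pow_right (by omega) (aeval_homog_mem 𝔫 (Gr.lf_homog i P c) y hy)

/-- leading forms of substitutions -/
theorem lf_aeval {n : ℕ} {q : Fin n → MvPolynomial σ k} {c : σ → k} (hq : ∀ i, Gr.Ord 1 (q i) c)
    {h : MvPolynomial (Fin n) k} {j : ℕ} (hh : h.IsHomogeneous j) :
    Gr.Ord j (aeval q h) c ∧ Gr.lf j (aeval q h) c = aeval (fun i => Gr.lf 1 (q i) c) h := by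
  let τ : MvPolynomial σ k →ₐ[k] Polynomial (MvPolynomial σ k) :=
    Gr.tayl (fun p => (C (c p) : MvPolynomial σ k)) X
  have h1 : ∀ i, τ (q i) = Polynomial.X * (τ (q i)).divX := by
    intro i
    have h2 := Polynomial.divX_mul_X_add (τ (q i))
    have h3 : (τ (q i)).coeff 0 = 0 := hq i 0 (by omega)
    rw [h3, Polynomial.C_0, add_zero, mul_comm] at h2
    exact h2.symm
  have h2 : τ (aeval q h) = Polynomial.X ^ j * aeval (fun i => (τ (q i)).divX) h := by
    have h3 := comp_aeval_apply q τ h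
    rw [h3, ← aeval_homog_mul hh]
    congr 2
    funext i
    exact h1 i
  constructor
  · intro i hi
    change (τ (aeval q h)).coeff i = 0
    rw [h2, Polynomial.coeff_X_pow_mul', if_neg (by omega)]
  · change (τ (aeval q h)).coeff j = _
    rw [h2, Polynomial.coeff_X_pow_mul', if_pos le_rfl, Nat.sub_self,
      Polynomial.coeff_zero_eq_eval_zero]
    have h3 := comp_aeval_apply (fun i => (τ (q i)).divX)
      ((Polynomial.aeval (0 : MvPolynomial σ k) : Polynomial (MvPolynomial σ k) →ₐ[MvPolynomial σ k]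
        MvPolynomial σ k).restrictScalars k) h
    change (Polynomial.aeval (0 : MvPolynomial σ k) : Polynomial (MvPolynomial σ k)
      →ₐ[MvPolynomial σ k] MvPolynomial σ k) _ = _ at h3
    have h4 : ∀ p : Polynomial (MvPolynomial σ k),
        (Polynomial.aeval (0 : MvPolynomial σ k) : Polynomial (MvPolynomial σ k)
      →ₐ[MvPolynomial σ k] MvPolynomial σ k) p = p.eval 0 := fun p => rfl
    rw [h4] at h3
    rw [h3]
    congr 2
    funext i
    change (Polynomial.aeval (0 : MvPolynomial σ k) : Polynomial (MvPolynomial σ k)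
      →ₐ[MvPolynomial σ k] MvPolynomial σ k) ((τ (q i)).divX) = _
    rw [h4, ← Polynomial.coeff_zero_eq_eval_zero, Polynomial.coeff_divX]
    rfl

end gen

variable {k : Type} [Field k] [IsAlgClosed k] [CharZero k] {N d : ℕ} {f : Ix N d → k}

theorem semi_aeval {α : Gr.RAct Unit (N + 1) (Ix N d)} {w : Unit → ℕ} {n : ℕ}
    {q : Fin n → MvPolynomial (Ix N d) k} (hq : ∀ i, Gr.IsSemi α w (q i))
    {h : MvPolynomial (Fin n) k} {j : ℕ} (hh : h.IsHomogeneous j) :
    Gr.IsSemi α (j • w) (aeval q h) := by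
  intro A c
  have h1 : ∀ c : Ix N d → k, eval c (aeval q h) = eval (fun i => eval c (q i)) h := by
    intro c
    have h2 := comp_aeval_apply q (aeval c : MvPolynomial (Ix N d) k →ₐ[k] k) h
    rw [Gr.aeval_eq_eval_self, Gr.aeval_eq_eval_self] at h2
    simp only [Gr.aeval_eq_eval_self] at h2
    exact h2
  rw [h1, h1, Gr.detw_smul]
  have h2 : (fun i => eval (α.act A c) (q i)) = fun i => Gr.detw w A * eval c (q i) :=
    funext fun i => hq i A c
  rw [h2]
  have h3 := aeval_homog_mul hh (Gr.detw w A) (fun i => eval c (q i))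
  rw [Gr.aeval_eq_eval_self, Gr.aeval_eq_eval_self] at h3
  exact h3

namespace Slice

variable (𝓢 : Slice f) (𝓓 : DD k N d)

/-- approximation of semi-invariants by polynomials in the coordinates -/
theorem approx (hf : eval f 𝓓.D ≠ 0) (M : ℕ)
    (q : Fin 𝓢.n → MvPolynomial (Ix N d) k)
    (hq : ∀ i, Gr.IsSemi (MA N d).toRAct (M • 𝓓.r) (q i)) (hq1 : ∀ i, Gr.Ord 1 (q i) f)
    (hq2 : ∀ i, Gr.lf 1 (q i) f = C (eval f 𝓓.D ^ M) * 𝓢.pl (X i))
    (m : ℕ) (P : MvPolynomial (Ix N d) k) (hP : Gr.IsSemi (MA N d).toRAct (m • 𝓓.r) P)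
    (hP0 : eval f P = 0) (K : ℕ) :
    ∃ (L : ℕ) (a p' : MvPolynomial (Ix N d) k), a ∈ Ideal.span (Set.range q) ∧
      Gr.IsSemi (MA N d).toRAct ((L + m) • 𝓓.r) p' ∧ Gr.Ord (K + 1) p' f ∧
      𝓓.D ^ L * P = a + p' := by
  have hinf : Infinite k := IsAlgClosed.instInfinite
  induction K with
  | zero =>
    refine ⟨0, 0, P, Submodule.zero_mem _, by rwa [zero_add], ?_, by rw [pow_zero]; ring⟩
    intro i hi
    have hi0 : i = 0 := by omega
    subst hi0
    apply MvPolynomial.funext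
    intro v
    rw [Gr.eval_lf, Gr.tayl_coeff_zero, Gr.aeval_eq_eval_self, hP0, map_zero]
  | succ K ih =>
    obtain ⟨L, a, p', ha, hp', hord, heq⟩ := ih
    set Λ := Gr.lf (K + 1) p' f with hΛ
    set h := aeval 𝓢.sl Λ with hh
    have hhom : h.IsHomogeneous (K + 1) := by
      rw [hh, hΛ, ← Th_res]
      exact Th_homog _ _
    have hpl : 𝓢.pl h = Λ := 𝓢.pl_sl fun Y v => Gr.lf_xi (α := MA N d) hp' hord (un Y) v
    set G := aeval q h with hG
    obtain ⟨hG1, hG2⟩ := lf_aeval hq1 hhom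
    have hG3 : Gr.IsSemi (MA N d).toRAct ((K + 1) • (M • 𝓓.r)) G := semi_aeval hq hhom
    have hG4 : Gr.lf (K + 1) G f = C ((eval f 𝓓.D ^ M) ^ (K + 1)) * Λ := by
      rw [hG2]
      have h1 : (fun i => Gr.lf 1 (q i) f) = fun i => C (eval f 𝓓.D ^ M) * 𝓢.yl i := by
        funext i
        rw [hq2]
        congr 1
        exact aeval_X _ _
      rw [h1, aeval_homog_mul hhom, ← C_pow]
      congr 1
    have hG5 : G ∈ Ideal.span (Set.range q) := by
      have h1 := aeval_homog_mem (Ideal.span (Set.range q)) hhom q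
        (fun i => Ideal.subset_span ⟨i, rfl⟩)
      exact Ideal.pow_le_self (Nat.succ_ne_zero K) h1
    set W := L + m with hW
    set γ : k := (eval f 𝓓.D ^ W)⁻¹ with hγ
    refine ⟨(K + 1) * M + L, 𝓓.D ^ ((K + 1) * M) * a + C γ * 𝓓.D ^ W * G,
      𝓓.D ^ ((K + 1) * M) * p' - C γ * 𝓓.D ^ W * G, ?_, ?_, ?_, ?_⟩
    · apply Submodule.add_mem
      · exact Ideal.mul_mem_left _ _ ha
      · exact Ideal.mul_mem_left _ _ hG5
    · apply Gr.IsSemi.sub
      · have h1 : ((K + 1) * M + L + m) • 𝓓.r = ((K + 1) * M) • 𝓓.r + W • 𝓓.r := by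
          rw [← add_smul, hW, add_assoc]
        rw [h1]
        exact (𝓓.semi.pow _).mul hp'
      · have h1 : ((K + 1) * M + L + m) • 𝓓.r = W • 𝓓.r + (K + 1) • (M • 𝓓.r) := by
          rw [smul_smul, ← add_smul, hW]
          congr 1
          ring
        rw [h1, mul_assoc]
        exact ((𝓓.semi.pow W).mul hG3).C_mul γ
    · intro i hi
      rcases Nat.lt_succ_iff_lt_or_eq.mp hi with hi' | rfl
      · exact ((hord.mul_left _).sub (hG1.mul_left _)) i hi'
      · have e1 : eval f (𝓓.D ^ ((K + 1) * M)) = eval f 𝓓.D ^ ((K + 1) * M) := map_pow _ _ _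
        have e2 : eval f (C γ * 𝓓.D ^ W) = γ * eval f 𝓓.D ^ W := by
          rw [map_mul, eval_C, map_pow]
        rw [Gr.lf_sub, Gr.lf_mul_left hord, Gr.lf_mul_left hG1, hG4, e1, e2, ← mul_assoc,
          ← C_mul, ← hΛ, ← sub_mul, ← C_sub]
        have h1 : eval f 𝓓.D ^ ((K + 1) * M) -
            γ * eval f 𝓓.D ^ W * (eval f 𝓓.D ^ M) ^ (K + 1) = 0 := by
          rw [hγ, inv_mul_cancel₀ (pow_ne_zero _ hf), one_mul, ← pow_mul, mul_comm M, sub_self]
        rw [h1, C_0, zero_mul]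
    · rw [pow_add, mul_assoc, heq]
      ring

theorem krull (hf : eval f 𝓓.D ≠ 0) (M : ℕ)
    (q : Fin 𝓢.n → MvPolynomial (Ix N d) k)
    (hq : ∀ i, Gr.IsSemi (MA N d).toRAct (M • 𝓓.r) (q i)) (hq1 : ∀ i, Gr.Ord 1 (q i) f)
    (hq2 : ∀ i, Gr.lf 1 (q i) f = C (eval f 𝓓.D ^ M) * 𝓢.pl (X i))
    (m : ℕ) (P : MvPolynomial (Ix N d) k) (hP : Gr.IsSemi (MA N d).toRAct (m • 𝓓.r) P)
    (hP0 : eval f P = 0) : ∃ a, eval f a ≠ 0 ∧ a * P ∈ Ideal.span (Set.range q) := by
  have hinf : Infinite k := IsAlgClosed.instInfinite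
  set 𝔞 := Ideal.span (Set.range q) with h𝔞
  set 𝔫 : Ideal (MvPolynomial (Ix N d) k) := RingHom.ker (eval f) with h𝔫
  have h𝔫max : 𝔫.IsMaximal := RingHom.ker_isMaximal_of_surjective (eval f)
    (fun a => ⟨C a, eval_C a⟩)
  let q𝔞 := Ideal.Quotient.mk 𝔞
  let 𝔫1 : Ideal (MvPolynomial (Ix N d) k ⧸ 𝔞) := 𝔫.map q𝔞
  have hmem : ∀ M', P ∈ 𝔞 ⊔ 𝔫 ^ M' := by
    intro M'
    obtain ⟨L, a, p', ha, hp', hord, heq⟩ := 𝓢.approx 𝓓 hf M q hq hq1 hq2 m P hP hP0 M'
    have hp'n : p' ∈ 𝔫 ^ M' := Ideal.pow_le_pow_right (Nat.le_succ M') (ord_mem_pow hord)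
    have hcop : 𝔫 ^ M' ⊔ Ideal.span {𝓓.D ^ L} = ⊤ := by
      apply Ideal.pow_sup_eq_top
      rw [Ideal.eq_top_iff_one]
      by_contra hcon
      have h1 : 𝔫 = 𝔫 ⊔ Ideal.span {𝓓.D ^ L} := h𝔫max.eq_of_le
        (fun h => hcon (by rw [h]; trivial)) le_sup_left
      have h2 : 𝓓.D ^ L ∈ 𝔫 := by
        rw [h1]
        exact Submodule.mem_sup_right (Ideal.subset_span rfl)
      rw [h𝔫, RingHom.mem_ker, map_pow] at h2
      exact pow_ne_zero L hf h2
    have h1 : (1 : MvPolynomial (Ix N d) k) ∈ 𝔫 ^ M' ⊔ Ideal.span {𝓓.D ^ L} := by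
      rw [hcop]; trivial
    obtain ⟨n, hn, u', hu', hnu⟩ := Submodule.mem_sup.mp h1
    obtain ⟨u, rfl⟩ := Ideal.mem_span_singleton'.mp hu'
    have h2 : P = u * a + (n * P + u * p') := by
      have : P = (n + u * 𝓓.D ^ L) * P := by rw [hnu, one_mul]
      conv_lhs => rw [this]
      rw [add_mul, mul_assoc, heq]
      ring
    rw [h2]
    exact Submodule.add_mem_sup (Ideal.mul_mem_left _ _ ha)
      (Submodule.add_mem _ (Ideal.mul_mem_right _ _ hn) (Ideal.mul_mem_left _ _ hp'n))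
  have hiInf : q𝔞 P ∈ (⨅ i : ℕ, 𝔫1 ^ i • ⊤ :
      Submodule (MvPolynomial (Ix N d) k ⧸ 𝔞) (MvPolynomial (Ix N d) k ⧸ 𝔞)) := by
    rw [Submodule.mem_iInf]
    intro M'
    rw [smul_eq_mul, Ideal.mul_top]
    change _ ∈ (𝔫.map q𝔞) ^ M'
    rw [← Ideal.map_pow]
    obtain ⟨a, ha, b, hb', hab⟩ := Submodule.mem_sup.mp (hmem M')
    rw [← hab, map_add, Ideal.Quotient.eq_zero_iff_mem.mpr ha, zero_add]
    exact Ideal.mem_map_of_mem _ hb'
  obtain ⟨r, hr⟩ := (Ideal.mem_iInf_smul_pow_eq_bot_iff 𝔫1 (q𝔞 P)).mp hiInf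
  obtain ⟨n', hn', hn2⟩ := (Ideal.mem_map_iff_of_surjective q𝔞
    Ideal.Quotient.mk_surjective).mp r.2
  refine ⟨1 - n', ?_, ?_⟩
  · rw [map_sub, map_one, (RingHom.mem_ker).mp hn', sub_zero]
    exact one_ne_zero
  · rw [← Ideal.Quotient.eq_zero_iff_mem, map_mul, map_sub, map_one]
    change (1 - q𝔞 n') * q𝔞 P = 0
    rw [hn2, sub_mul, one_mul]
    rw [smul_eq_mul] at hr
    rw [hr, sub_self]

/-- Semi-invariants vanishing at `f` lie in the ideal of the coordinates, locally at `f`. -/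
theorem main_gen (hd : 2 ≤ d) (hf : eval f 𝓓.D ≠ 0) (M : ℕ)
    (q : Fin 𝓢.n → MvPolynomial (Ix N d) k)
    (hq : ∀ i, Gr.IsSemi (MA N d).toRAct (M • 𝓓.r) (q i)) (hq1 : ∀ i, Gr.Ord 1 (q i) f)
    (hq2 : ∀ i, Gr.lf 1 (q i) f = C (eval f 𝓓.D ^ M) * 𝓢.pl (X i))
    (m : ℕ) (P : MvPolynomial (Ix N d) k) (hP : Gr.IsSemi (MA N d).toRAct (m • 𝓓.r) P)
    (hP0 : eval f P = 0) :
    ∃ (l : ℕ) (s : MvPolynomial (Ix N d) k) (α : Fin 𝓢.n → MvPolynomial (Ix N d) k)
        (v : ℕ), Gr.IsSemi (MA N d).toRAct (l • 𝓓.r) s ∧ eval f s ≠ 0 ∧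
        (∀ i, Gr.IsSemi (MA N d).toRAct (v • 𝓓.r) (α i)) ∧
        v + M = l + m ∧ s * P = ∑ i, α i * q i := by
  have hinf : Infinite k := IsAlgClosed.instInfinite
  obtain ⟨a, ha, haP⟩ := 𝓢.krull 𝓓 hf M q hq hq1 hq2 m P hP hP0
  set 𝔞 := Ideal.span (Set.range q) with h𝔞
  -- the conductor and the ideal of the orbit
  let J : Ideal (MvPolynomial (Ix N d) k) :=
    { carrier := {c | c * P ∈ 𝔞}
      add_mem' := by
        intro x y hx hy
        change (x + y) * P ∈ 𝔞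
        rw [add_mul]
        exact Submodule.add_mem _ hx hy
      zero_mem' := by
        change 0 * P ∈ 𝔞
        rw [zero_mul]
        exact Submodule.zero_mem _
      smul_mem' := by
        intro x y hy
        change (x * y) * P ∈ 𝔞
        rw [mul_assoc]
        exact Ideal.mul_mem_left _ _ hy }
  let I : Ideal (MvPolynomial (Ix N d) k) :=
    RingHom.ker (aeval (Gr.orb (MA N d).toRAct f) :
      MvPolynomial (Ix N d) k →ₐ[k] Gr.KJ Unit (N + 1) k)
  have hstab : ∀ (A : Gr.Mt Unit (N + 1) k), (∀ s, (A s).det ≠ 0) → ∀ x ∈ 𝔞,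
      Gr.compT (MA N d).toRAct A x ∈ 𝔞 := by
    intro A hA x hx
    have hle : 𝔞 ≤ 𝔞.comap
        (Gr.compT (MA N d).toRAct A : MvPolynomial (Ix N d) k →ₐ[k] _) := by
      rw [h𝔞, Ideal.span_le]
      rintro _ ⟨i, rfl⟩
      change Gr.compT (MA N d).toRAct A (q i) ∈ 𝔞
      have h1 : Gr.compT (MA N d).toRAct A (q i) = C (Gr.detw (M • 𝓓.r) A) * q i := by
        apply MvPolynomial.funext
        intro c
        rw [Gr.eval_compT, hq i A c, map_mul, eval_C]
      rw [h1]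
      exact Ideal.mul_mem_left _ _ (Ideal.subset_span ⟨i, rfl⟩)
    exact hle hx
  have hJ : ∀ (A : Gr.Mt Unit (N + 1) k), (∀ s, (A s).det ≠ 0) → ∀ x ∈ J,
      Gr.compT (MA N d).toRAct A x ∈ J := by
    intro A hA x hx
    have h5 := hstab A hA _ hx
    rw [map_mul] at h5
    have h6 : Gr.compT (MA N d).toRAct A P = C (Gr.detw (m • 𝓓.r) A) * P := by
      apply MvPolynomial.funext
      intro c
      rw [Gr.eval_compT, hP A c, map_mul, eval_C]
    rw [h6] at h5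
    have h8 := Ideal.mul_mem_left _ (C (Gr.detw (m • 𝓓.r) A)⁻¹) h5
    have h9 : (C (Gr.detw (m • 𝓓.r) A)⁻¹ * (Gr.compT (MA N d).toRAct A x *
        (C (Gr.detw (m • 𝓓.r) A) * P)) : MvPolynomial (Ix N d) k) =
        Gr.compT (MA N d).toRAct A x * P := by
      have h10 : (C (Gr.detw (m • 𝓓.r) A)⁻¹ * C (Gr.detw (m • 𝓓.r) A) :
          MvPolynomial (Ix N d) k) = 1 := by
        rw [← C_mul, inv_mul_cancel₀ (Gr.detw_ne_zero _ _ hA), C_1]
      linear_combination (Gr.compT (MA N d).toRAct A x * P) * h10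
    rw [h9] at h8
    exact h8
  have hrad : 𝓓.D ∈ (J ⊔ I).radical := by
    rw [← vanishingIdeal_zeroLocus_eq_radical (K := k), mem_vanishingIdeal_iff]
    intro c hc
    by_contra hne
    rw [Gr.aeval_eq_eval_self] at hne
    have hz : ∀ x ∈ J ⊔ I, eval c x = 0 := by
      intro x hx
      have := (mem_zeroLocus_iff.mp hc) x hx
      rwa [Gr.aeval_eq_eval_self] at this
    obtain ⟨A, hA, rfl⟩ := 𝓓.closed hd hf c hne (fun P' hP' => hz P' (Submodule.mem_sup_right hP'))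
    apply ha
    have h1 := hJ (un A⁻¹) (fun _ => det_inv_ne hA) a haP
    have h2 := hz _ (Submodule.mem_sup_left h1)
    rw [Gr.eval_compT] at h2
    have h3 : (MA N d).act (un A⁻¹) (actT A f) = f := actT_inv hA f
    rwa [h3] at h2
  obtain ⟨e, he⟩ := hrad
  -- enlarge the exponent
  have he' : 𝓓.D ^ (e + M) ∈ J ⊔ I := by
    rw [pow_add]
    exact Ideal.mul_mem_right _ _ he
  obtain ⟨κ, hκ, ι, hι, hκι⟩ := Submodule.mem_sup.mp he'
  set l := e + M with hl
  set w := l • 𝓓.r with hw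
  have hsum := congrArg (Gr.sharp (MA N d).toRAct w) hκι
  rw [Gr.sharp_add, Gr.sharp_semi _ (𝓓.semi.pow l)] at hsum
  have hι0 : eval f (Gr.sharp (MA N d).toRAct w ι) = 0 := by
    apply Gr.sharp_vanish
    intro A _
    have h1 := Gr.eval_aeval_orb (MA N d).toRAct A f ι
    have h2 : aeval (Gr.orb (MA N d).toRAct f) ι = 0 := hι
    rw [h2, map_zero] at h1
    exact h1.symm
  have hs0 : eval f (Gr.sharp (MA N d).toRAct w κ) ≠ 0 := by
    have h1 := congrArg (eval f) hsum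
    rw [map_add, hι0, add_zero, map_pow] at h1
    rw [h1]
    exact pow_ne_zero _ hf
  obtain ⟨c, hc⟩ := (Submodule.mem_span_range_iff_exists_fun _).mp
    (show κ * P ∈ Submodule.span _ (Set.range q) from hκ)
  refine ⟨l, Gr.sharp (MA N d).toRAct w κ, fun i => Gr.sharp (MA N d).toRAct ((e + m) • 𝓓.r) (c i),
    e + m, Gr.isSemi_sharp _ _ _, hs0, fun i => Gr.isSemi_sharp _ _ _, by omega, ?_⟩
  have h1 := congrArg (Gr.sharp (MA N d).toRAct (w + m • 𝓓.r)) hc
  rw [Gr.sharp_mul_semi _ _ hP, Gr.sharp_sum] at h1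
  rw [← h1]
  refine Finset.sum_congr rfl fun i _ => ?_
  have h2 : w + m • 𝓓.r = (e + m) • 𝓓.r + M • 𝓓.r := by
    rw [hw, ← add_smul, ← add_smul, hl]
    congr 1
    ring
  rw [h2, smul_eq_mul, Gr.sharp_mul_semi _ _ (hq i)]

/-- The coordinates exist when the stabiliser is trivial. -/
theorem exists_coords (hd : 2 ≤ d) (hf : eval f 𝓓.D ≠ 0)
    (hst : ∀ A ∈ Stab f, ∃ a : k, A = a • 1) :
    ∃ (M : ℕ) (q : Fin 𝓢.n → MvPolynomial (Ix N d) k),
      (∀ i, Gr.IsSemi (MA N d).toRAct (M • 𝓓.r) (q i)) ∧ (∀ i, Gr.Ord 1 (q i) f) ∧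
      (∀ i, Gr.lf 1 (q i) f = C (eval f 𝓓.D ^ M) * 𝓢.pl (X i)) := by
  have hinf : Infinite k := IsAlgClosed.instInfinite
  have hNZ := (𝓓.iff f).mp hf
  have hG : ∀ h : MvPolynomial (Fin 𝓢.n) k, IsInvG 𝓢.grp h := by
    rintro h g ⟨A, hA, hAg⟩ x
    obtain ⟨a, ha⟩ := hst A hA
    have h3 : x = 𝓢.y (𝓢.s x) := (𝓢.ys x).symm
    have h4 : (g : Matrix (Fin 𝓢.n) (Fin 𝓢.n) k).mulVec x = x := by
      conv_lhs => rw [h3]
      rw [← hAg, scalar_stab hNZ hA ha, 𝓢.ys]
    rw [h4]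
  choose m q h1 h2 h3 h4 using fun i => 𝓢.hlead 𝓓 hd hf 1 (X i) (isHomogeneous_X _ _) (hG _)
  set M := ∑ i, m i with hM
  have hm : ∀ i, m i ≤ M := fun i =>
    Finset.single_le_sum (f := m) (fun _ _ => Nat.zero_le _) (Finset.mem_univ i)
  refine ⟨M, fun i => 𝓓.D ^ (M - m i) * q i, fun i => ?_, fun i => (h2 i).mul_left _,
    fun i => ?_⟩
  · have h5 : M • 𝓓.r = (M - m i) • 𝓓.r + m i • 𝓓.r := by
      rw [← add_smul, Nat.sub_add_cancel (hm i)]
    rw [h5]
    exact (𝓓.semi.pow _).mul (h1 i)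
  · rw [Gr.lf_mul_left (h2 i), h3, map_pow, ← mul_assoc, ← C_mul, ← pow_add,
      Nat.sub_add_cancel (hm i)]

end Slice

end

end Pool.Agent.R855.Sing
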