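import Pool.Agent.R855.Sing.Hom

/-!
Regularity of the local rings of the moduli space.
-/

open MvPolynomial

namespace Pool.Agent.R855.Sing

open Pool.Agent.Helper819.Apolar Pool.Agent.Helper819.Dyn Pool.Agent.Helper819

noncomputable section

set_option linter.unusedSectionVars false

section gen

/-- an ideal of small rank has few generators -/
theorem exists_gens {R : Type} [CommRing R] (I : Ideal R) (hI : I.FG) {n : ℕ}
    (h : Submodule.spanFinrank I ≤ n) : ∃ T : Fin n → R, Ideal.span (Set.range T) = I := by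
  classical
  have hfin := Submodule.FG.finite_generators hI
  have hcard := Submodule.FG.generators_ncard hI
  let S := hfin.toFinset
  have hS : S.card ≤ n := by
    rw [← Set.ncard_eq_toFinset_card _ hfin, hcard]
    exact h
  let e := S.equivFin
  refine ⟨fun i => if hi : (i : ℕ) < S.card then (e.symm ⟨i, hi⟩ : R) else 0, ?_⟩
  apply le_antisymm
  · rw [Ideal.span_le]
    rintro _ ⟨i, rfl⟩
    change (if hi : (i : ℕ) < S.card then (e.symm ⟨i, hi⟩ : R) else 0) ∈ I
    split_ifs with hi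
    · exact Submodule.FG.generators_mem I (hfin.mem_toFinset.mp (e.symm ⟨i, hi⟩).2)
    · exact I.zero_mem
  · conv_lhs => rw [← Submodule.span_generators I]
    change Submodule.span R _ ≤ Submodule.span R _
    rw [Submodule.span_le]
    intro x hx
    have hxS : x ∈ S := hfin.mem_toFinset.mpr hx
    apply Submodule.subset_span
    refine ⟨⟨e ⟨x, hxS⟩, lt_of_lt_of_le (e ⟨x, hxS⟩).2 hS⟩, ?_⟩
    change (if hi : (e ⟨x, hxS⟩ : ℕ) < S.card then (e.symm ⟨e ⟨x, hxS⟩, hi⟩ : R) else 0) = x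
    rw [dif_pos (e ⟨x, hxS⟩).2]
    simp

/-- generators of the maximal ideal of a localization -/
theorem exists_num {B : Type} [CommRing B] (𝔭 : Ideal B) [𝔭.IsPrime] {n : ℕ}
    (T : Fin n → Localization.AtPrime 𝔭)
    (hT : Ideal.span (Set.range T) = IsLocalRing.maximalIdeal (Localization.AtPrime 𝔭)) :
    ∃ b : Fin n → B, (∀ i, b i ∈ 𝔭) ∧ ∀ x ∈ 𝔭, ∃ s, s ∉ 𝔭 ∧ s * x ∈ Ideal.span (Set.range b) := by
  have h1 : ∀ i, ∃ (b : B) (s : 𝔭.primeCompl),
      T i = IsLocalization.mk' (Localization.AtPrime 𝔭) b s := by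
    intro i
    obtain ⟨b, s, h⟩ := IsLocalization.exists_mk'_eq 𝔭.primeCompl (T i)
    exact ⟨b, s, h.symm⟩
  choose b s hb using h1
  have hspan : Ideal.span (Set.range T) =
      (Ideal.span (Set.range b)).map (algebraMap B (Localization.AtPrime 𝔭)) := by
    apply le_antisymm
    · rw [Ideal.span_le]
      rintro _ ⟨i, rfl⟩
      change T i ∈ (Ideal.span (Set.range b)).map (algebraMap B (Localization.AtPrime 𝔭))
      rw [hb, IsLocalization.mk'_eq_mul_mk'_one]
      exact Ideal.mul_mem_right _ _ (Ideal.mem_map_of_mem _ (Ideal.subset_span ⟨i, rfl⟩))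
    · rw [Ideal.map_span, Ideal.span_le]
      rintro _ ⟨_, ⟨i, rfl⟩, rfl⟩
      change algebraMap B (Localization.AtPrime 𝔭) (b i) ∈ Ideal.span (Set.range T)
      have h2 : algebraMap B (Localization.AtPrime 𝔭) (b i) =
          T i * algebraMap B (Localization.AtPrime 𝔭) (s i) := by
        rw [hb, IsLocalization.mk'_spec]
      rw [h2]
      exact Ideal.mul_mem_right _ _ (Ideal.subset_span ⟨i, rfl⟩)
  refine ⟨b, fun i => ?_, fun x hx => ?_⟩
  · have h2 : T i ∈ IsLocalRing.maximalIdeal (Localization.AtPrime 𝔭) := by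
      rw [← hT]
      exact Ideal.subset_span ⟨i, rfl⟩
    rw [hb] at h2
    exact (IsLocalization.AtPrime.mk'_mem_maximal_iff (Localization.AtPrime 𝔭) 𝔭 _ _).mp h2
  · have h2 : algebraMap B (Localization.AtPrime 𝔭) x ∈
        IsLocalRing.maximalIdeal (Localization.AtPrime 𝔭) := by
      rw [← Localization.AtPrime.map_eq_maximalIdeal]
      exact Ideal.mem_map_of_mem _ hx
    rw [← hT, hspan, IsLocalization.algebraMap_mem_map_algebraMap_iff 𝔭.primeCompl] at h2
    obtain ⟨m, hm, h3⟩ := h2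
    exact ⟨m, hm, h3⟩

theorem spanFinrank_le {B : Type} [CommRing B] (𝔭 : Ideal B) [𝔭.IsPrime] {n : ℕ}
    (b : Fin n → B) (hb : ∀ i, b i ∈ 𝔭)
    (h : ∀ x ∈ 𝔭, ∃ s, s ∉ 𝔭 ∧ s * x ∈ Ideal.span (Set.range b)) :
    Submodule.spanFinrank (IsLocalRing.maximalIdeal (Localization.AtPrime 𝔭)) ≤ n := by
  have h1 : IsLocalRing.maximalIdeal (Localization.AtPrime 𝔭) =
      Ideal.span (Set.range fun i => algebraMap B (Localization.AtPrime 𝔭) (b i)) := by
    apply le_antisymm
    · rw [← Localization.AtPrime.map_eq_maximalIdeal, Ideal.map_le_iff_le_comap]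
      intro x hx
      obtain ⟨s, hs, h2⟩ := h x hx
      have h3 : algebraMap B (Localization.AtPrime 𝔭) x ∈
          (Ideal.span (Set.range b)).map (algebraMap B (Localization.AtPrime 𝔭)) := by
        rw [IsLocalization.algebraMap_mem_map_algebraMap_iff 𝔭.primeCompl]
        exact ⟨s, hs, h2⟩
      rw [Ideal.map_span, ← Set.range_comp] at h3
      exact h3
    · rw [Ideal.span_le]
      rintro _ ⟨i, rfl⟩
      rw [← Localization.AtPrime.map_eq_maximalIdeal]
      exact Ideal.mem_map_of_mem _ (hb i)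
  rw [h1]
  refine (Submodule.spanFinrank_span_le_ncard_of_finite (Set.finite_range _)).trans ?_
  rw [← Set.image_univ]
  refine (Set.ncard_image_le Set.finite_univ).trans ?_
  simp

theorem exists_num_of_regular {B : Type} [CommRing B] (𝔭 : Ideal B) [𝔭.IsPrime] {n : ℕ}
    (hB : ringKrullDim B ≤ n) (h : IsRegularLocalRing (Localization.AtPrime 𝔭)) :
    ∃ b : Fin n → B, (∀ i, b i ∈ 𝔭) ∧
      ∀ x ∈ 𝔭, ∃ s, s ∉ 𝔭 ∧ s * x ∈ Ideal.span (Set.range b) := by
  have hreg := h.spanFinrank_maximalIdeal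
  have hdim : ringKrullDim (Localization.AtPrime 𝔭) ≤ n := by
    rw [IsLocalization.AtPrime.ringKrullDim_eq_height 𝔭 (Localization.AtPrime 𝔭)]
    exact (Ideal.height_le_ringKrullDim_of_isPrime).trans hB
  rw [← hreg] at hdim
  have hn : Submodule.spanFinrank (IsLocalRing.maximalIdeal (Localization.AtPrime 𝔭)) ≤ n := by
    exact_mod_cast hdim
  obtain ⟨T, hT⟩ := exists_gens _ (IsNoetherian.noetherian _) hn
  exact exists_num 𝔭 T hT

theorem regular_of_num {B : Type} [CommRing B] (hB : IsNoetherianRing B) (𝔭 : Ideal B)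
    [𝔭.IsPrime] {n : ℕ}
    (b : Fin n → B) (hb : ∀ i, b i ∈ 𝔭)
    (h : ∀ x ∈ 𝔭, ∃ s, s ∉ 𝔭 ∧ s * x ∈ Ideal.span (Set.range b)) (hn : (n : ℕ∞) ≤ 𝔭.height) :
    IsRegularLocalRing (Localization.AtPrime 𝔭) := by
  have hnoeth2 : IsNoetherianRing (Localization.AtPrime 𝔭) :=
    IsLocalization.isNoetherianRing 𝔭.primeCompl _ hB
  apply IsRegularLocalRing.of_spanFinrank_maximalIdeal_le
  rw [IsLocalization.AtPrime.ringKrullDim_eq_height 𝔭 (Localization.AtPrime 𝔭)]
  have h1 := spanFinrank_le 𝔭 b hb h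
  calc ((Submodule.spanFinrank (IsLocalRing.maximalIdeal (Localization.AtPrime 𝔭)) : ℕ) :
        WithBot ℕ∞) ≤ ((n : ℕ) : WithBot ℕ∞) := by exact_mod_cast h1
    _ ≤ (𝔭.height : WithBot ℕ∞) := by exact_mod_cast hn

end gen

variable {k : Type} [Field k] [IsAlgClosed k] [CharZero k] {N d : ℕ}

/-- the prime ideal of a map -/
abbrev pF (F : EndTuple k N d) : Ideal (InvRing k N d) := RingHom.ker (evF F)

instance pF_isPrime (F : EndTuple k N d) : (pF F).IsPrime := RingHom.ker_isPrime _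

variable {F : EndTuple k N d} (𝓢 : Slice (cf (d := d) F.1)) (𝓓 : DD k N d)

include 𝓢 𝓓 in
theorem dim_le (hd : 2 ≤ d) : ringKrullDim (InvRing k N d) ≤ 𝓢.n := by
  have h1 := invRing_isDomain hd F
  exact krull_le (phi 𝓢 𝓓 hd) (phi_injective 𝓢 𝓓 hd) trdeg_loc

include 𝓢 𝓓 in
theorem stab_of_regular (hN : 2 ≤ N) (hd : 2 ≤ d)
    (h : IsRegularLocalRing (Localization.AtPrime (pF F))) :
    ∀ A ∈ Stab (cf (d := d) F.1), ∃ a : k, A = a • 1 := by
  obtain ⟨b, hb1, hb2⟩ := exists_num_of_regular (pF F) (dim_le 𝓢 𝓓 hd) h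
  choose w P hP using fun i => DD.Is.exists 𝓓 hd (b i) F
  apply 𝓢.no_aut hN hd 𝓓 (𝓓.ne F) P w (fun i => (hP i).1) (fun i => ((hP i).ev F).mp (hb1 i))
  intro m Q hQ hQ0
  obtain ⟨x, hx⟩ := DD.Is.mk 𝓓 hd hQ
  have hx𝔭 : x ∈ pF F := (hx.ev F).mpr hQ0
  obtain ⟨s, hs, hsx⟩ := hb2 x hx𝔭
  obtain ⟨a, ha⟩ := (Submodule.mem_span_range_iff_exists_fun _).mp
    (show s * x ∈ Submodule.span _ (Set.range b) from hsx)
  obtain ⟨l0, S, hS⟩ := DD.Is.exists 𝓓 hd s F
  choose v0 A hA using fun i => DD.Is.exists 𝓓 hd (a i) F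
  set K := ∑ i, (v0 i + w i) with hK
  have hKi : ∀ i, v0 i + w i ≤ K := fun i =>
    Finset.single_le_sum (f := fun i => v0 i + w i) (fun _ _ => Nat.zero_le _)
      (Finset.mem_univ i)
  refine ⟨K + l0, 𝓓.D ^ K * S, fun i => 𝓓.D ^ (K + l0 + m - (v0 i + w i)) * A i,
    fun i => (K + l0 + m - (v0 i + w i)) + v0 i, (hS.shift K).1, ?_, fun i => ?_, fun i => ?_, ?_⟩
  · rw [map_mul, map_pow]
    refine mul_ne_zero (pow_ne_zero _ (𝓓.ne F)) fun h0 => hs ((hS.ev F).mpr h0)
  · exact Se.mul (Se.pow _) (hA i).1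
  · have := hKi i
    change K + l0 + m - (v0 i + w i) + v0 i + w i = K + l0 + m
    omega
  · have h1 : 𝓓.Is (s * x) (K + l0 + m) (𝓓.D ^ K * S * Q) := (hS.shift K).mul hx
    have h2 : ∀ i, 𝓓.Is (a i * b i) (K + l0 + m)
        (𝓓.D ^ (K + l0 + m - (v0 i + w i)) * A i * P i) := by
      intro i
      have h3 := ((hA i).mul (hP i)).shift (K + l0 + m - (v0 i + w i))
      rw [Nat.sub_add_cancel (by have := hKi i; omega), ← mul_assoc] at h3
      exact h3
    have h3 : ∀ t : Finset (Fin 𝓢.n), 𝓓.Is (∑ i ∈ t, a i * b i) (K + l0 + m)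
        (∑ i ∈ t, 𝓓.D ^ (K + l0 + m - (v0 i + w i)) * A i * P i) := by
      classical
      intro t
      induction t using Finset.induction_on with
      | empty => rw [Finset.sum_empty, Finset.sum_empty]; exact DD.Is.zero _
      | insert i t hi ih =>
        rw [Finset.sum_insert hi, Finset.sum_insert hi]
        exact (h2 i).add ih
    have h4 := h3 Finset.univ
    have h5 : ∑ i, a i * b i = s * x := ha
    rw [h5] at h4
    exact h1.poly_eq F h4

/-- the linear part of a polynomial -/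
theorem Th_coeff_one {n : ℕ} (p : MvPolynomial (Fin n) k) : (Th p).coeff 1 =
    ∑ j, C (eval 0 (pderiv j p)) * X j := by
  induction p using MvPolynomial.induction_on with
  | C a =>
    rw [Th_C, Polynomial.coeff_C_succ]
    simp
  | add p q hp hq =>
    rw [map_add, Polynomial.coeff_add, hp, hq, ← Finset.sum_add_distrib]
    refine Finset.sum_congr rfl fun j _ => ?_
    rw [map_add, map_add, C_add]
    ring
  | mul_X p l hp =>
    rw [map_mul, Th_X, ← mul_assoc, Polynomial.coeff_mul_X, Polynomial.coeff_mul_C,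
      Th_coeff_zero, Finset.sum_eq_single l]
    · rw [Derivation.leibniz, pderiv_X_self]
      simp
    · intro j _ hj
      rw [Derivation.leibniz, pderiv_X_of_ne hj.symm]
      simp
    · simp

theorem lf_zero {n : ℕ} (p : MvPolynomial (Fin n) k) (j : ℕ) :
    Gr.lf j p (0 : Fin n → k) = (Th p).coeff j := by
  unfold Gr.lf Gr.tayl Th
  have h : (fun p : Fin n => Polynomial.C (C ((0 : Fin n → k) p)) + Polynomial.X *
      Polynomial.C (X p : MvPolynomial (Fin n) k)) =
      fun i => Polynomial.C (X i) * Polynomial.X := by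
    funext i
    rw [Pi.zero_apply, C_0, Polynomial.C_0, zero_add, mul_comm]
  rw [h]

theorem mem_mx_sq {n : ℕ} {p : MvPolynomial (Fin n) k} (h0 : (Th p).coeff 0 = 0)
    (h1 : (Th p).coeff 1 = 0) : p ∈ mx k n ^ 2 := by
  have hinf : Infinite k := IsAlgClosed.instInfinite
  have h2 : Gr.Ord 2 p (0 : Fin n → k) := by
    intro i hi
    rw [lf_zero]
    have : i = 0 ∨ i = 1 := by omega
    rcases this with rfl | rfl
    · exact h0
    · exact h1
  exact ord_mem_pow h2

/-- Elements with independent linear parts generate the maximal ideal of the origin. -/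
theorem span_eq_max {n : ℕ} (ρ : Fin n → MvPolynomial (Fin n) k) (c : k) (hc : c ≠ 0)
    (h0 : ∀ i, eval 0 (ρ i) = 0) (h1 : ∀ i, (Th (ρ i)).coeff 1 = C c * X i) :
    IsLocalRing.maximalIdeal (Lc k n) ≤
      Ideal.span (Set.range fun i => algebraMap (MvPolynomial (Fin n) k) (Lc k n) (ρ i)) := by
  have key : mx k n ≤ Ideal.span (Set.range ρ) ⊔ mx k n ^ 2 := by
    intro p hp
    set a : Fin n → k := fun j => eval 0 (pderiv j p) with ha
    set q := ∑ j, C (a j * c⁻¹) * ρ j with hq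
    have hq1 : q ∈ Ideal.span (Set.range ρ) :=
      Submodule.sum_mem _ fun j _ => Ideal.mul_mem_left _ _ (Ideal.subset_span ⟨j, rfl⟩)
    have h2 : p - q ∈ mx k n ^ 2 := by
      apply mem_mx_sq
      · rw [Th_coeff_zero, map_sub, mem_mx.mp hp, hq, map_sum, Finset.sum_eq_zero, sub_zero, C_0]
        intro j _
        rw [map_mul, h0, mul_zero]
      · rw [map_sub, Polynomial.coeff_sub, Th_coeff_one p, hq, map_sum, Polynomial.finsetSum_coeff,
          sub_eq_zero]
        refine Finset.sum_congr rfl fun j _ => ?_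
        rw [map_mul, Th_C, Polynomial.coeff_C_mul, h1, ← mul_assoc, ← C_mul,
          mul_assoc, inv_mul_cancel₀ hc, mul_one]
    have h3 : p = q + (p - q) := by ring
    rw [h3]
    exact Submodule.add_mem_sup hq1 h2
  have h2 := Ideal.map_mono (f := algebraMap (MvPolynomial (Fin n) k) (Lc k n)) key
  rw [Ideal.map_sup, Ideal.map_pow, Localization.AtPrime.map_eq_maximalIdeal, Ideal.map_span,
    ← Set.range_comp] at h2
  apply Submodule.le_of_le_smul_of_le_jacobson_bot (I := IsLocalRing.maximalIdeal (Lc k n))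
    (IsNoetherian.noetherian _)
  · exact IsLocalRing.maximalIdeal_le_jacobson _
  · rw [smul_eq_mul, ← pow_two]
    exact h2

include 𝓢 𝓓 in
theorem le_height (hd : 2 ≤ d) {M : ℕ}
    {q : Fin 𝓢.n → MvPolynomial (Ix N d) k}
    (hq : ∀ i, 𝓓.Se M (q i)) (hq1 : ∀ i, Gr.Ord 1 (q i) (cf F.1))
    (hq2 : ∀ i, Gr.lf 1 (q i) (cf F.1) = C (eval (cf F.1) 𝓓.D ^ M) * 𝓢.pl (X i)) :
    (𝓢.n : ℕ∞) ≤ (pF F).height := by
  classical
  have hinf : Infinite k := IsAlgClosed.instInfinite
  have hnoeth := 𝓓.noeth hd F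
  obtain ⟨s, hs, hcard⟩ := Ideal.exists_finset_card_eq_height_of_isNoetherianRing (pF F)
  have h1 : IsLocalRing.maximalIdeal (Lc k 𝓢.n) ∈
      (Ideal.span (↑(s.image (phi 𝓢 𝓓 hd)) : Set (Lc k 𝓢.n))).minimalPrimes := by
    refine ⟨⟨inferInstance, ?_⟩, ?_⟩
    · rw [Ideal.span_le]
      intro x hx
      rw [Finset.coe_image] at hx
      obtain ⟨b, hb, rfl⟩ := hx
      exact (phi_mem 𝓢 𝓓 hd b).mpr (hs.1.2 (Ideal.subset_span hb))
    · rintro Q ⟨hQ1, hQ2⟩ hQ3
      have hQ' : pF F ≤ Q.comap (phi 𝓢 𝓓 hd) := by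
        apply hs.2
        · refine ⟨Ideal.comap_isPrime _ _, ?_⟩
          rw [Ideal.span_le]
          intro b hb
          exact hQ2 (Ideal.subset_span (by
            rw [Finset.coe_image]
            exact ⟨b, hb, rfl⟩))
        · intro b hb
          exact (phi_mem 𝓢 𝓓 hd b).mp (hQ3 hb)
      choose b hb using fun i => DD.Is.mk 𝓓 hd (hq i)
      have hq0 : ∀ i, eval (cf F.1) (q i) = 0 := by
        intro i
        have h2 := hq1 i 0 (by omega)
        have h3 := congrArg (eval (0 : Ix N d → k)) h2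
        rw [Gr.eval_lf, Gr.tayl_coeff_zero, Gr.aeval_eq_eval_self, map_zero] at h3
        exact h3
      refine (span_eq_max (fun i => 𝓢.res (q i)) (eval (cf F.1) 𝓓.D ^ M)
        (pow_ne_zero _ (𝓓.ne F)) (fun i => ?_) (fun i => ?_)).trans ?_
      · rw [𝓢.eval_res_zero, hq0]
      · rw [𝓢.Th_res, hq2, map_mul, 𝓢.sl_pl]
        congr 1
        exact algHom_C _ _
      · rw [Ideal.span_le]
        rintro _ ⟨i, rfl⟩
        have h4 : phi 𝓢 𝓓 hd (b i) ∈ Q := hQ' (((hb i).ev F).mpr (hq0 i))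
        rw [phi_eq 𝓢 𝓓 hd (hb i)] at h4
        change algebraMap (MvPolynomial (Fin 𝓢.n) k) (Lc k 𝓢.n) (𝓢.res (q i)) ∈ Q
        rw [← fr_spec 𝓢 𝓓 M (q i)]
        exact Ideal.mul_mem_right _ _ h4
  have h2 := Ideal.height_le_card_of_mem_minimalPrimes_span_finset h1
  have h3 : (IsLocalRing.maximalIdeal (Lc k 𝓢.n)).height = (mx k 𝓢.n).height := by
    have h4 := IsLocalRing.maximalIdeal_height_eq_ringKrullDim (R := Lc k 𝓢.n)
    rw [IsLocalization.AtPrime.ringKrullDim_eq_height (mx k 𝓢.n)] at h4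
    exact_mod_cast h4
  rw [h3] at h2
  rw [← hcard]
  refine le_height_mx.trans (h2.trans ?_)
  exact_mod_cast Finset.card_image_le

include 𝓢 𝓓 in
theorem regular_of_stab (hd : 2 ≤ d)
    (hst : ∀ A ∈ Stab (cf (d := d) F.1), ∃ a : k, A = a • 1) :
    IsRegularLocalRing (Localization.AtPrime (pF F)) := by
  obtain ⟨M, q, hq, hq1, hq2⟩ := 𝓢.exists_coords 𝓓 hd (𝓓.ne F) hst
  have hq0 : ∀ i, eval (cf F.1) (q i) = 0 := by
    intro i
    have h2 := hq1 i 0 (by omega)
    have h3 := congrArg (eval (0 : Ix N d → k)) h2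
    rw [Gr.eval_lf, Gr.tayl_coeff_zero, Gr.aeval_eq_eval_self, map_zero] at h3
    exact h3
  choose b hb using fun i => DD.Is.mk 𝓓 hd (hq i)
  apply regular_of_num (𝓓.noeth hd F) (pF F) b (fun i => ((hb i).ev F).mpr (hq0 i)) ?_
    (le_height 𝓢 𝓓 hd hq hq1 hq2)
  intro x hx
  obtain ⟨m, P, hP⟩ := DD.Is.exists 𝓓 hd x F
  obtain ⟨l, s, α, v, hs, hs0, hα, hv, heq⟩ := 𝓢.main_gen 𝓓 hd (𝓓.ne F) M q hq hq1 hq2 m P hP.1
    ((hP.ev F).mp hx)
  obtain ⟨s', hs'⟩ := DD.Is.mk 𝓓 hd hs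
  choose a ha using fun i => DD.Is.mk 𝓓 hd (hα i)
  refine ⟨s', fun h => hs0 ((hs'.ev F).mp h), ?_⟩
  have h2 : ∀ t : Finset (Fin 𝓢.n), 𝓓.Is (∑ i ∈ t, a i * b i) (v + M)
      (∑ i ∈ t, α i * q i) := by
    classical
    intro t
    induction t using Finset.induction_on with
    | empty => rw [Finset.sum_empty, Finset.sum_empty]; exact DD.Is.zero _
    | insert i t hi ih =>
      rw [Finset.sum_insert hi, Finset.sum_insert hi]
      exact ((ha i).mul (hb i)).add ih
  have h3 := hs'.mul hP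
  rw [heq, ← hv] at h3
  rw [h3.unique (h2 Finset.univ)]
  exact Submodule.sum_mem _ fun i _ => Ideal.mul_mem_left _ _ (Ideal.subset_span ⟨i, rfl⟩)

end

end Pool.Agent.R855.Sing
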