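import Pool.Agent.R855.Sing.Reg
import Pool.Agent.R855.Sing.Defs

/-!
The ring of invariant regular functions in terms of semi-invariants.
-/

open MvPolynomial

namespace Pool.Agent.R855.Sing

open Pool.Agent.Helper819.Apolar Pool.Agent.Helper819.Dyn Pool.Agent.Helper819

noncomputable section

set_option linter.unusedSectionVars false

variable {k : Type} [Field k] [IsAlgClosed k] [CharZero k] {N d : ℕ}

/-- the map with given coefficients -/
def toE (c : Ix N d → k) (hc : NZ (tup c)) : EndTuple k N d :=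
  ⟨tup c, (isEnd_iff _).mpr ⟨tup_homog c, hc⟩⟩

theorem NZ_of_E (F : EndTuple k N d) : NZ (tup (cf (d := d) F.1)) := by
  rw [tup_cf F.2.1]
  exact ((isEnd_iff _).mp F.2).2

theorem toE_cf (F : EndTuple k N d) : toE (cf F.1) (NZ_of_E F) = F :=
  Subtype.ext (tup_cf F.2.1)

theorem cf_toE (c : Ix N d → k) (hc : NZ (tup c)) : cf (toE c hc).1 = c := cf_tup c

/-- polynomials in all coefficients -/
def toIx (k : Type) [Field k] (N d : ℕ) : MvPolynomial (Fin (N + 1) × (Fin (N + 1) →₀ ℕ)) k →ₐ[k]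
    MvPolynomial (Ix N d) k := by
  classical
  exact aeval fun p => if h : p.2 ∈ Finset.finsuppAntidiag Finset.univ d then X (p.1, ⟨p.2, h⟩)
    else 0

theorem eval_toIx (F : EndTuple k N d) (P : MvPolynomial (Fin (N + 1) × (Fin (N + 1) →₀ ℕ)) k) :
    eval (cf F.1) (toIx k N d P) = eval (coords F) P := by
  classical
  have h1 : (eval (cf F.1)).comp (toIx k N d).toRingHom = eval (coords F) := by
    apply MvPolynomial.ringHom_ext
    · intro a
      change eval _ (toIx k N d (C a)) = _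
      unfold toIx
      rw [algHom_C]
      simp
    · intro p
      change eval _ (toIx k N d (X p)) = _
      unfold toIx
      rw [aeval_X, eval_X]
      split_ifs with h
      · rw [eval_X]
        rfl
      · rw [map_zero]
        symm
        apply (F.2.1 p.1).coeff_eq_zero
        intro h2
        exact h ((mem_Ex p.2).mpr h2)
  exact congrArg (fun φ => φ P) h1

/-- polynomials in the coefficients of degree `d` -/
def ofIx (k : Type) [Field k] (N d : ℕ) : MvPolynomial (Ix N d) k →ₐ[k]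
    MvPolynomial (Fin (N + 1) × (Fin (N + 1) →₀ ℕ)) k :=
  rename fun p => (p.1, p.2.1)

theorem eval_ofIx (F : EndTuple k N d) (P : MvPolynomial (Ix N d) k) :
    eval (coords F) (ofIx k N d P) = eval (cf F.1) P := by
  unfold ofIx
  rw [eval_rename]
  rfl

theorem conj_act (A : Matrix (Fin (N + 1)) (Fin (N + 1)) k) (hA : A.det ≠ 0)
    (F : EndTuple k N d) : ∃ φ : GL (Fin (N + 1)) k,
      (φ : Matrix (Fin (N + 1)) (Fin (N + 1)) k) = A ∧
      ∀ i, act A F.1 i = C A.det * conj φ F.1 i := by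
  have hinf : Infinite k := IsAlgClosed.instInfinite
  have hu : IsUnit A := (Matrix.isUnit_iff_isUnit_det A).mpr (isUnit_iff_ne_zero.mpr hA)
  refine ⟨hu.unit, rfl, ?_⟩
  intro i
  apply MvPolynomial.funext
  intro P
  rw [eval_act, map_mul, eval_C, conj_eval, Finset.mul_sum]
  refine Finset.sum_congr rfl fun j _ => ?_
  have hinv : (↑(hu.unit⁻¹) : Matrix (Fin (N + 1)) (Fin (N + 1)) k) = A.det⁻¹ • A.adjugate := by
    rw [Matrix.coe_units_inv, Matrix.inv_def, Ring.inverse_eq_inv']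
    simp
  rw [hinv]
  simp only [Matrix.smul_apply, smul_eq_mul, IsUnit.unit_spec]
  field_simp

theorem conj_isEnd (φ : GL (Fin (N + 1)) k) (F : EndTuple k N d) :
    ∃ G : EndTuple k N d, G.1 = conj φ F.1 := by
  obtain ⟨A, hAdef⟩ : ∃ A : Matrix (Fin (N + 1)) (Fin (N + 1)) k, A = φ.val := ⟨_, rfl⟩
  have hA : A.det ≠ 0 := by
    rw [hAdef]
    exact ((Matrix.isUnit_iff_isUnit_det _).mp φ.isUnit).ne_zero
  obtain ⟨φ', h1, h2⟩ := conj_act A hA F
  rw [hAdef] at h1
  have h3 : φ' = φ := Units.ext h1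
  rw [h3] at h2
  have h4 : ∀ i, conj φ F.1 i = C A.det⁻¹ * act A F.1 i := by
    intro i
    rw [h2, ← mul_assoc, ← C_mul, inv_mul_cancel₀ hA, C_1, one_mul]
  refine ⟨⟨conj φ F.1, ?_⟩, rfl⟩
  have h5 := act_isEnd A hA F.2
  rw [isEnd_iff] at h5 ⊢
  refine ⟨fun i => ?_, fun x hx => ?_⟩
  · rw [h4]
    exact (h5.1 i).C_mul _
  · apply h5.2 x
    intro i
    have h6 := hx i
    rw [h4, map_mul, eval_C] at h6
    exact (mul_eq_zero.mp h6).resolve_left (inv_ne_zero hA)

variable (𝓓 : DD k N d)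

theorem DD.ne (F : EndTuple k N d) : eval (cf F.1) 𝓓.D ≠ 0 := (𝓓.iff _).mpr (NZ_of_E F)

theorem DD.poly_ext {P Q : MvPolynomial (Ix N d) k} (h0 : 𝓓.D ≠ 0)
    (h : ∀ F : EndTuple k N d, eval (cf F.1) P = eval (cf F.1) Q) : P = Q := by
  have hinf : Infinite k := IsAlgClosed.instInfinite
  have h5 : (P - Q) * 𝓓.D = 0 := by
    apply MvPolynomial.funext
    intro c
    rw [map_mul, map_sub, map_zero]
    by_cases hc : eval c 𝓓.D = 0
    · rw [hc, mul_zero]
    · have h6 := h (toE c ((𝓓.iff c).mp hc))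
      rw [cf_toE] at h6
      rw [h6, sub_self, zero_mul]
  exact sub_eq_zero.mp ((mul_eq_zero.mp h5).resolve_right h0)

theorem DD.D_ne_zero (F : EndTuple k N d) : 𝓓.D ≠ 0 := by
  intro h0
  apply 𝓓.ne F
  rw [h0, map_zero]

/-- existence of a global fraction -/
theorem DD.exists_frac (h : EndTuple k N d → k) (hreg : IsReg h) :
    ∃ (m : ℕ) (P : MvPolynomial (Ix N d) k), ∀ F : EndTuple k N d,
      h F * eval (cf F.1) 𝓓.D ^ m = eval (cf F.1) P := by
  let J : Ideal (MvPolynomial (Ix N d) k) :=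
    { carrier := {Q | ∃ P : MvPolynomial (Ix N d) k, ∀ F : EndTuple k N d,
        h F * eval (cf F.1) Q = eval (cf F.1) P}
      add_mem' := by
        rintro Q Q' ⟨P, hP⟩ ⟨P', hP'⟩
        exact ⟨P + P', fun c => by rw [map_add, map_add, mul_add, hP, hP']⟩
      zero_mem' := ⟨0, fun c => by rw [map_zero, mul_zero]⟩
      smul_mem' := by
        rintro R Q ⟨P, hP⟩
        exact ⟨R * P, fun c => by rw [smul_eq_mul, map_mul, map_mul, ← hP]; ring⟩ }
  have hrad : 𝓓.D ∈ J.radical := by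
    rw [← vanishingIdeal_zeroLocus_eq_radical (K := k), mem_vanishingIdeal_iff]
    intro c0 hc0
    by_contra hne
    rw [Gr.aeval_eq_eval_self] at hne
    set F0 := toE c0 ((𝓓.iff c0).mp hne) with hF0
    obtain ⟨_, P, Q, _, _, hQ, h1⟩ := hreg F0
    rw [← eval_toIx] at hQ
    have h2 : toIx k N d Q * toIx k N d Q ∈ J := by
      refine ⟨toIx k N d Q * toIx k N d P, fun F => ?_⟩
      rw [map_mul, map_mul]
      by_cases h0 : eval (cf F.1) (toIx k N d Q) = 0
      · rw [h0]; ring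
      · have h3 := h1 F (by rw [← eval_toIx]; exact h0)
        rw [← eval_toIx, ← eval_toIx] at h3
        rw [h3]
        field_simp
    have h3 := (mem_zeroLocus_iff.mp hc0) _ h2
    rw [Gr.aeval_eq_eval_self, map_mul] at h3
    apply hQ
    have h4 : cf F0.1 = c0 := cf_toE c0 _
    rw [h4]
    exact mul_self_eq_zero.mp h3
  obtain ⟨m, P, hP⟩ := hrad
  refine ⟨m, P, fun c => ?_⟩
  rw [← hP, map_pow]

/-- invariance under the group of matrices -/
theorem inv_actT (hd : 2 ≤ d) {h : EndTuple k N d → k} (hh : IsInvReg h)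
    (A : Matrix (Fin (N + 1)) (Fin (N + 1)) k) (hA : A.det ≠ 0) (c : Ix N d → k)
    (hc : NZ (tup c)) (hc' : NZ (tup (actT A c))) : h (toE (actT A c) hc') = h (toE c hc) := by
  have hinf : Infinite k := IsAlgClosed.instInfinite
  obtain ⟨φ, hφ1, hφ⟩ := conj_act A hA (toE c hc)
  obtain ⟨G, hG⟩ := conj_isEnd φ (toE c hc)
  rw [← hh.2 φ (toE c hc) G hG]
  -- scaling by a scalar matrix
  obtain ⟨t, ht⟩ := IsAlgClosed.exists_pow_nat_eq A.det (n := d - 1) (by omega)
  have ht0 : t ≠ 0 := by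
    rintro rfl
    rw [zero_pow (by omega)] at ht
    exact hA ht.symm
  let T : Matrix (Fin (N + 1)) (Fin (N + 1)) k := t • 1
  have hT : T.det ≠ 0 := by
    change (t • (1 : Matrix (Fin (N + 1)) (Fin (N + 1)) k)).det ≠ 0
    rw [Matrix.det_smul, Matrix.det_one, mul_one]
    exact pow_ne_zero _ ht0
  obtain ⟨ψ, hψ1, hψ⟩ := conj_act T hT G
  apply hh.2 ψ
  funext i
  have e1 : (toE (actT A c) hc').1 = act A (tup c) := tup_actT A c
  rw [e1]
  have e2 : act A (tup c) i = C A.det * conj φ (toE c hc).1 i := hφ i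
  rw [e2, ← hG]
  -- `act T G = t ^ (N + d) G`, `det T = t ^ (N + 1)`
  have e3 : act T G.1 i = C (t ^ (N + d)) * G.1 i := by
    have h1 := tup_actT T (cf (d := d) G.1)
    rw [actT_scalar, tup_smul, tup_cf G.2.1] at h1
    exact (congrFun h1 i).symm
  have e4 := hψ i
  have e5 : T.det = t ^ (N + 1) := by
    change (t • (1 : Matrix (Fin (N + 1)) (Fin (N + 1)) k)).det = _
    rw [Matrix.det_smul, Matrix.det_one, mul_one, Fintype.card_fin]
  rw [e3, e5] at e4
  have e6 : (C (t ^ (N + d)) : MvPolynomial (Fin (N + 1)) k) = C (t ^ (N + 1)) * C (t ^ (d - 1)) := by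
    rw [← C_mul, ← pow_add]
    congr 2
    omega
  rw [e6, mul_assoc] at e4
  have e7 : (C (t ^ (N + 1)) : MvPolynomial (Fin (N + 1)) k) ≠ 0 := by
    rw [Ne, C_eq_zero]
    exact pow_ne_zero _ ht0
  rw [← mul_left_cancel₀ e7 e4, ht]

include 𝓓 in
theorem DD.NZ_act {c : Ix N d → k} (hc : NZ (tup c))
    {A : Matrix (Fin (N + 1)) (Fin (N + 1)) k} (hA : A.det ≠ 0) : NZ (tup (actT A c)) :=
  (𝓓.iff _).mp (𝓓.act_ne ((𝓓.iff _).mpr hc) hA)

/-- Invariant regular functions are quotients of semi-invariants. -/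
theorem DD.exists_semi (hd : 2 ≤ d) (h : EndTuple k N d → k) (hh : IsInvReg h)
    (F0 : EndTuple k N d) :
    ∃ (m : ℕ) (P : MvPolynomial (Ix N d) k), Gr.IsSemi (MA N d).toRAct (m • 𝓓.r) P ∧
      ∀ F : EndTuple k N d, h F = eval (cf F.1) P / eval (cf F.1) 𝓓.D ^ m := by
  have hinf : Infinite k := IsAlgClosed.instInfinite
  obtain ⟨m, P, hP⟩ := 𝓓.exists_frac h hh.1
  refine ⟨m, P, ?_, ?_⟩
  · have h1 : ∀ (c : Ix N d → k), NZ (tup c) → ∀ (A : Gr.Mt Unit (N + 1) k),
        eval ((MA N d).act A c) P = Gr.detw (m • 𝓓.r) A * eval c P := by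
      intro c hc A
      have h2 : aeval (Gr.orb (MA N d).toRAct c) P =
          C (eval c P) * Gr.dtw (N + 1) k (m • 𝓓.r) := by
        apply Gr.poly_ext
        intro A hA
        rw [Gr.eval_aeval_orb, map_mul, eval_C, Gr.eval_dtw]
        have hc' := 𝓓.NZ_act hc (hA ())
        have h3 := hP (toE (actT (A ()) c) hc')
        rw [inv_actT hd hh (A ()) (hA ()) c hc hc', cf_toE] at h3
        have h4 := 𝓓.semi A c
        change eval (actT (A ()) c) 𝓓.D = _ at h4
        have h5 := hP (toE c hc)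
        rw [cf_toE] at h5
        change eval (actT (A ()) c) P = _
        rw [← h3, h4, mul_pow, ← h5, Gr.detw_smul]
        ring
      rw [← Gr.eval_aeval_orb, h2, map_mul, eval_C, Gr.eval_dtw, mul_comm]
    intro A c
    have h5 : Gr.compT (MA N d).toRAct A P = C (Gr.detw (m • 𝓓.r) A) * P := by
      apply 𝓓.poly_ext (𝓓.D_ne_zero F0)
      intro F
      rw [Gr.eval_compT, map_mul, eval_C]
      exact h1 _ (NZ_of_E F) A
    have h8 := congrArg (eval c) h5
    rw [map_mul, eval_C, Gr.eval_compT] at h8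
    exact h8
  · intro F
    rw [← hP, mul_div_cancel_right₀ _ (pow_ne_zero _ (𝓓.ne F))]

/-- degrees of semi-invariants -/
theorem DD.exists_degree (hd : 1 ≤ d) (F0 : EndTuple k N d) :
    ∃ e0 : ℕ, ∀ (m : ℕ) (P : MvPolynomial (Ix N d) k),
      Gr.IsSemi (MA N d).toRAct (m • 𝓓.r) P → P.IsHomogeneous (m * e0) := by
  have hinf : Infinite k := IsAlgClosed.instInfinite
  set c := cf (d := d) F0.1 with hc
  have hD := 𝓓.ne F0
  rw [← hc] at hD
  have key : ∀ (m : ℕ) (P : MvPolynomial (Ix N d) k), Gr.IsSemi (MA N d).toRAct (m • 𝓓.r) P →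
      ∀ (s : k) (x : Ix N d → k), eval (s ^ (N + d) • x) P =
        s ^ ((N + 1) * (m * 𝓓.r ())) * eval x P := by
    intro m P hP s x
    have h3 := hP (un (s • 1)) x
    rw [detw_unit] at h3
    change eval (actT (s • 1) x) P = _ at h3
    rw [actT_scalar] at h3
    rw [h3]
    congr 1
    change (s • (1 : Matrix (Fin (N + 1)) (Fin (N + 1)) k)).det ^ (m * 𝓓.r ()) = _
    rw [Matrix.det_smul, Matrix.det_one, mul_one, Fintype.card_fin, ← pow_mul]
  let p : Polynomial k := aeval (fun q => Polynomial.X * Polynomial.C (c q)) 𝓓.D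
  have hp : ∀ a : k, p.eval a = eval (a • c) 𝓓.D := by
    intro a
    have h1 : (Polynomial.evalRingHom a).comp
        (aeval (fun q => Polynomial.X * Polynomial.C (c q)) :
          MvPolynomial (Ix N d) k →ₐ[k] Polynomial k).toRingHom = eval (a • c) := by
      apply MvPolynomial.ringHom_ext
      · intro b
        change Polynomial.eval a (aeval _ (C b)) = _
        rw [algHom_C, eval_C]
        simp
      · intro i
        change Polynomial.eval a (aeval _ (X i)) = _
        rw [aeval_X, eval_X]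
        simp
        ring
    exact congrArg (fun φ => φ 𝓓.D) h1
  have h1 : Polynomial.expand k (N + d) p =
      Polynomial.C (eval c 𝓓.D) * Polynomial.X ^ ((N + 1) * 𝓓.r ()) := by
    apply Polynomial.funext
    intro t
    rw [Polynomial.expand_eval, hp]
    have h2 := key 1 𝓓.D (by rw [one_smul]; exact 𝓓.semi) t c
    rw [h2, one_mul]
    simp
    ring
  have h2 := congrArg Polynomial.natDegree h1
  rw [Polynomial.natDegree_expand, Polynomial.natDegree_C_mul_X_pow _ _ hD] at h2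
  refine ⟨p.natDegree, fun m P hP => ?_⟩
  apply homog_of_scale
  intro a x
  obtain ⟨t, ht⟩ := IsAlgClosed.exists_pow_nat_eq a (n := N + d) (by omega)
  have h3 := key m P hP t x
  rw [ht] at h3
  rw [h3, ← ht, ← pow_mul]
  congr 2
  calc (N + 1) * (m * 𝓓.r ()) = m * ((N + 1) * 𝓓.r ()) := by ring
    _ = (N + d) * (m * p.natDegree) := by rw [← h2]; ring

theorem DD.mk_inv (hd : 1 ≤ d) (m : ℕ) (P : MvPolynomial (Ix N d) k)
    (hP : Gr.IsSemi (MA N d).toRAct (m • 𝓓.r) P) :
    IsInvReg (fun F : EndTuple k N d => eval (cf F.1) P / eval (cf F.1) 𝓓.D ^ m) := by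
  have hinf : Infinite k := IsAlgClosed.instInfinite
  refine ⟨fun F0 => ?_, ?_⟩
  · obtain ⟨e0, he0⟩ := 𝓓.exists_degree hd F0
    refine ⟨m * e0, ofIx k N d P, ofIx k N d (𝓓.D ^ m), ?_, ?_, ?_, fun G _ => ?_⟩
    · exact (he0 m P hP).rename_isHomogeneous
    · exact (he0 m _ (𝓓.semi.pow m)).rename_isHomogeneous
    · rw [eval_ofIx, map_pow]
      exact pow_ne_zero _ (𝓓.ne F0)
    · rw [eval_ofIx, eval_ofIx, map_pow]
  · intro φ F G hG
    obtain ⟨A, hAdef⟩ : ∃ A : Matrix (Fin (N + 1)) (Fin (N + 1)) k, A = φ.val := ⟨_, rfl⟩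
    have hA : A.det ≠ 0 := by
      rw [hAdef]
      exact ((Matrix.isUnit_iff_isUnit_det _).mp φ.isUnit).ne_zero
    obtain ⟨φ', h1, h2⟩ := conj_act A hA F
    rw [hAdef] at h1
    have h3 : φ' = φ := Units.ext h1
    rw [h3, ← hG] at h2
    have h4 : actT A (cf (d := d) F.1) = A.det • cf G.1 := by
      unfold actT
      rw [tup_cf F.2.1, ← cf_C_mul]
      congr 1
      funext i
      exact h2 i
    obtain ⟨e0, he0⟩ := 𝓓.exists_degree hd F
    have h5 : ∀ Q : MvPolynomial (Ix N d) k, Gr.IsSemi (MA N d).toRAct (m • 𝓓.r) Q →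
        A.det ^ (m * e0) * eval (cf G.1) Q = Gr.detw (m • 𝓓.r) (un A) * eval (cf F.1) Q := by
      intro Q hQ
      rw [← hQ (un A) (cf F.1)]
      change _ = eval (actT A (cf F.1)) Q
      rw [h4, eval_smul_hom (he0 m Q hQ)]
    have h6 := h5 P hP
    have h7 := h5 _ (𝓓.semi.pow m)
    rw [map_pow, map_pow] at h7
    have h8 : A.det ^ (m * e0) ≠ 0 := pow_ne_zero _ hA
    have h9 : Gr.detw (m • 𝓓.r) (un A) ≠ 0 := Gr.detw_ne_zero _ _ fun _ => hA
    rw [div_eq_div_iff (pow_ne_zero _ (𝓓.ne G)) (pow_ne_zero _ (𝓓.ne F))]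
    apply mul_left_cancel₀ h8
    apply mul_left_cancel₀ h9
    linear_combination (Gr.detw (m • 𝓓.r) (un A) * eval (cf F.1) 𝓓.D ^ m) * h6 -
      (Gr.detw (m • 𝓓.r) (un A) * eval (cf F.1) P) * h7

end

end Pool.Agent.R855.Sing
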