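import Pool.Agent.R855.Sing.Slice

/-!
Maps whose local ring has too few generators have no automorphisms.
-/

open MvPolynomial

namespace Pool.Agent.R855.Sing

open Pool.Agent.Helper819.Apolar Pool.Agent.Helper819.Dyn Pool.Agent.Helper819

noncomputable section

set_option linter.unusedSectionVars false

variable {k : Type} [Field k] [IsAlgClosed k] [CharZero k] {N d : ℕ} {f : Ix N d → k}

theorem NZ_ne_zero (hf : NZ (tup f)) : f ≠ 0 := by
  rintro rfl
  have h7 := hf (fun _ => 1) (by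
    intro i
    unfold tup
    simp)
  exact one_ne_zero (congrFun h7 0)

/-- scalars in the stabiliser act trivially -/
theorem scalar_stab (hf : NZ (tup f)) {A : Matrix (Fin (N + 1)) (Fin (N + 1)) k}
    (hA : A ∈ Stab f) {a : k} (ha : A = a • 1) (v : Ix N d → k) : actT A v = v := by
  have h1 := hA.2
  rw [ha, actT_scalar] at h1 ⊢
  have h2 : (a ^ (N + d) - 1) • f = 0 := by rw [sub_smul, h1, one_smul, sub_self]
  rcases smul_eq_zero.mp h2 with h3 | h3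
  · rw [sub_eq_zero.mp h3, one_smul]
  · exact absurd h3 (NZ_ne_zero hf)

namespace Slice

variable (𝓢 : Slice f)

theorem finite_grp (hd : 2 ≤ d) (hf : NZ (tup f)) : Finite 𝓢.grp := by
  have h1 : Finite (Stab f) := (finite_stab hd f hf).to_subtype
  choose A hA hA2 using fun g : 𝓢.grp => (𝓢.mem_grp g.1).mp g.2
  refine Finite.of_injective (fun g : 𝓢.grp => (⟨A g, hA g⟩ : Stab f)) ?_
  intro g g' h
  have h2 : A g = A g' := congrArg Subtype.val h
  apply Subtype.ext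
  apply grp_ext
  intro x
  have h3 : x = 𝓢.y (𝓢.s x) := (𝓢.ys x).symm
  rw [h3, ← hA2, ← hA2, h2]

theorem card_le : Fintype.card (Ix N d) ≤ 𝓢.n + Module.finrank k (Tn f) := by
  let φ : (Ix N d → k) →ₗ[k] (Fin 𝓢.n → k) × Tn f :=
    LinearMap.prod 𝓢.y ((LinearMap.id - 𝓢.s ∘ₗ 𝓢.y).codRestrict _ fun v => 𝓢.sub_mem v)
  have hφ : Function.Injective φ := by
    intro a b hab
    have h1 : 𝓢.y a = 𝓢.y b := congrArg Prod.fst hab
    have h2 : a - 𝓢.s (𝓢.y a) = b - 𝓢.s (𝓢.y b) := congrArg Subtype.val (congrArg Prod.snd hab)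
    rw [h1] at h2
    exact sub_left_injective h2
  have h1 := LinearMap.finrank_le_finrank_of_injective hφ
  rw [Module.finrank_pi, Module.finrank_prod, Module.finrank_pi, Fintype.card_fin] at h1
  exact h1

theorem hcod (hN : 2 ≤ N) (hd : 2 ≤ d) (hf : NZ (tup f)) (g : GL (Fin 𝓢.n) k)
    (hg : g ∈ 𝓢.grp) (hne : g ≠ 1) : Module.finrank k (fixS g) + 2 ≤ 𝓢.n := by
  obtain ⟨A, hA, hAg⟩ := hg
  have hns : ∀ a : k, A ≠ a • 1 := by
    intro a ha
    apply hne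
    apply grp_ext
    intro x
    have h3 : x = 𝓢.y (𝓢.s x) := (𝓢.ys x).symm
    rw [h3, ← hAg, scalar_stab hf hA ha]
    simp
  have h1 := cod hN hd hf A hA.1 hA.2 hns
  let φ : fixS g × Tn f →ₗ[k] WA f A :=
    LinearMap.codRestrict _ (LinearMap.coprod (𝓢.s ∘ₗ (fixS g).subtype) (Tn f).subtype) (by
      rintro ⟨x, t⟩
      rw [mem_WA, ← 𝓢.ker, map_sub, hAg]
      change (g : Matrix (Fin 𝓢.n) (Fin 𝓢.n) k).mulVec (𝓢.y (𝓢.s x.1 + t.1)) -
        𝓢.y (𝓢.s x.1 + t.1) = 0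
      rw [map_add, (𝓢.ker _).mpr t.2, add_zero, 𝓢.ys, (mem_fixS g x.1).mp x.2, sub_self])
  have hφ : Function.Injective φ := by
    rw [injective_iff_map_eq_zero]
    rintro ⟨x, t⟩ hxt
    have h2 : 𝓢.s x.1 + t.1 = 0 := congrArg Subtype.val hxt
    have h3 := congrArg 𝓢.y h2
    rw [map_add, (𝓢.ker _).mpr t.2, add_zero, 𝓢.ys, map_zero] at h3
    rw [h3, map_zero, zero_add] at h2
    exact Prod.ext (Subtype.ext h3) (Subtype.ext h2)
  have h2 := LinearMap.finrank_le_finrank_of_injective hφ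
  rw [Module.finrank_prod] at h2
  have h3 := 𝓢.card_le
  omega

theorem hlead (𝓓 : DD k N d) (hd : 2 ≤ d) (hf : eval f 𝓓.D ≠ 0) (j : ℕ)
    (h : MvPolynomial (Fin 𝓢.n) k) (hh : h.IsHomogeneous j) (hG : IsInvG 𝓢.grp h) :
    ∃ (m : ℕ) (q : MvPolynomial (Ix N d) k), Gr.IsSemi (MA N d).toRAct (m • 𝓓.r) q ∧
      Gr.Ord j q f ∧ Gr.lf j q f = C (eval f 𝓓.D ^ m) * 𝓢.pl h ∧
      Lo j (𝓢.res q) (C (eval f 𝓓.D ^ m) * h) := by
  have hinf : Infinite k := IsAlgClosed.instInfinite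
  obtain ⟨m, q, h1, h2, h3⟩ := 𝓓.lead hd hf j (𝓢.pl h) (𝓢.pl_homog hh) (by
    intro Y v
    rw [eval_pl, eval_pl, map_add, y_xi, add_zero]) (by
    intro A hA hfix v
    obtain ⟨g, hg, hgA⟩ := 𝓢.exists_grp (A := A) ⟨hA, hfix⟩
    rw [eval_pl, eval_pl, hgA, hG g hg])
  have h4 : Gr.lf j q f = C (eval f 𝓓.D ^ m) * 𝓢.pl h := by
    apply MvPolynomial.funext
    intro v
    rw [h3, map_mul, eval_C]
  refine ⟨m, q, h1, h2, h4, ?_⟩
  have h5 := 𝓢.Lo_res h2
  rw [h4, map_mul, sl_pl] at h5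
  have h6 : aeval 𝓢.sl (C (eval f 𝓓.D ^ m) : MvPolynomial (Ix N d) k) =
      C (eval f 𝓓.D ^ m) := algHom_C _ _
  rwa [h6] at h5

/-- the graded family of restrictions of semi-invariants -/
def fam (𝓓 : DD k N d) (hf : eval f 𝓓.D ≠ 0) : Fam k 𝓢.n where
  S m :=
    { carrier := {p | ∃ P, Gr.IsSemi (MA N d).toRAct (m • 𝓓.r) P ∧ p = 𝓢.res P}
      add_mem' := by
        rintro _ _ ⟨P, hP, rfl⟩ ⟨Q, hQ, rfl⟩
        exact ⟨P + Q, hP.add hQ, (map_add _ _ _).symm⟩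
      zero_mem' := ⟨0, Gr.IsSemi.zero, (map_zero _).symm⟩
      smul_mem' := by
        rintro a _ ⟨P, hP, rfl⟩
        refine ⟨C a * P, hP.C_mul a, ?_⟩
        rw [map_mul]
        have h6 : 𝓢.res (C a : MvPolynomial (Ix N d) k) = C a := algHom_C _ _
        rw [h6, smul_eq_C_mul] }
  δ := 𝓢.res 𝓓.D
  δ_mem := ⟨𝓓.D, by rw [one_smul]; exact 𝓓.semi, rfl⟩
  δ0 := by rw [eval_res_zero]; exact hf
  one_mem := ⟨1, by rw [zero_smul]; exact Gr.IsSemi.one, (map_one _).symm⟩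
  mul_mem := by
    rintro l m _ _ ⟨P, hP, rfl⟩ ⟨Q, hQ, rfl⟩
    refine ⟨P * Q, ?_, (map_mul _ _ _).symm⟩
    rw [add_smul]
    exact hP.mul hQ

theorem detw_stab (𝓓 : DD k N d) (hf : eval f 𝓓.D ≠ 0)
    {A : Matrix (Fin (N + 1)) (Fin (N + 1)) k} (hA : A ∈ Stab f) :
    Gr.detw 𝓓.r (un A) = 1 := by
  have h1 := 𝓓.semi (un A) f
  have h2 : (MA N d).act (un A) f = f := hA.2
  rw [h2] at h1
  apply mul_right_cancel₀ hf
  rw [← h1, one_mul]

theorem no_aut (hN : 2 ≤ N) (hd : 2 ≤ d) (𝓓 : DD k N d) (hf : eval f 𝓓.D ≠ 0)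
    (T : Fin 𝓢.n → MvPolynomial (Ix N d) k) (w : Fin 𝓢.n → ℕ)
    (hT : ∀ i, Gr.IsSemi (MA N d).toRAct (w i • 𝓓.r) (T i)) (hT0 : ∀ i, eval f (T i) = 0)
    (hgen : ∀ (m : ℕ) (P : MvPolynomial (Ix N d) k),
      Gr.IsSemi (MA N d).toRAct (m • 𝓓.r) P → eval f P = 0 →
      ∃ (l : ℕ) (s : MvPolynomial (Ix N d) k) (α : Fin 𝓢.n → MvPolynomial (Ix N d) k)
        (v : Fin 𝓢.n → ℕ), Gr.IsSemi (MA N d).toRAct (l • 𝓓.r) s ∧ eval f s ≠ 0 ∧
        (∀ i, Gr.IsSemi (MA N d).toRAct (v i • 𝓓.r) (α i)) ∧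
        (∀ i, v i + w i = l + m) ∧ s * P = ∑ i, α i * T i)
    (A : Matrix (Fin (N + 1)) (Fin (N + 1)) k) (hA : A ∈ Stab f) : ∃ a : k, A = a • 1 := by
  have hinf : Infinite k := IsAlgClosed.instInfinite
  have hNZ := (𝓓.iff f).mp hf
  by_contra hns
  push Not at hns
  have hfin := 𝓢.finite_grp hd hNZ
  have hdet := (𝓢.fam 𝓓 hf).jac (fun i => 𝓢.res (T i)) w (fun i => ⟨T i, hT i, rfl⟩)
    (fun i => by rw [eval_res_zero]; exact hT0 i) (by
      rintro m _ ⟨P, hP, rfl⟩ hP0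
      rw [eval_res_zero] at hP0
      obtain ⟨l, s, α, v, hs, hs0, hα, hv, heq⟩ := hgen m P hP hP0
      refine ⟨l, 𝓢.res s, fun i => 𝓢.res (α i), v, ⟨s, hs, rfl⟩, ?_,
        fun i => ⟨α i, hα i, rfl⟩, hv, ?_⟩
      · rw [eval_res_zero]; exact hs0
      · rw [← map_mul, heq, map_sum]
        exact Finset.sum_congr rfl fun i _ => map_mul _ _ _)
    𝓢.grp (by
      intro j h hh hG
      obtain ⟨m, q, h1, h2, h3, h4⟩ := 𝓢.hlead 𝓓 hd hf j h hh hG
      exact ⟨m, 𝓢.res q, _, ⟨q, h1, rfl⟩, pow_ne_zero m hf, h4⟩)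
    (𝓢.hcod hN hd hNZ)
  -- the linear parts are invariant
  have hord : ∀ i, Gr.Ord 1 (T i) f := by
    intro i j hj
    have hj0 : j = 0 := by omega
    subst hj0
    apply MvPolynomial.funext
    intro v
    rw [Gr.eval_lf, Gr.tayl_coeff_zero, Gr.aeval_eq_eval_self, hT0 i, map_zero]
  have hpl : ∀ i, 𝓢.pl (aeval 𝓢.sl (Gr.lf 1 (T i) f)) = Gr.lf 1 (T i) f := fun i =>
    𝓢.pl_sl fun Y v => Gr.lf_xi (α := MA N d) (hT i) (hord i) (un Y) v
  have hinv : ∀ i v, eval (actT A v) (Gr.lf 1 (T i) f) = eval v (Gr.lf 1 (T i) f) := by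
    intro i v
    have h1 := Gr.lf_stab (hT i) 1 (c := f) (A := un A) hA.2 v
    rw [Gr.detw_smul, detw_stab 𝓓 hf hA, one_pow, one_mul] at h1
    exact h1
  have hlin : ∀ i, (Th (𝓢.res (T i))).coeff 1 =
      ∑ j, C (eval 0 (pderiv j (𝓢.res (T i)))) * X j := by
    intro i
    have h1 : ∀ p : MvPolynomial (Fin 𝓢.n) k, (Th p).coeff 1 =
        ∑ j, C (eval 0 (pderiv j p)) * X j := by
      intro p
      induction p using MvPolynomial.induction_on with
      | C a =>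
        rw [Th_C, Polynomial.coeff_C_succ]
        simp
      | add p q hp hq =>
        rw [map_add, Polynomial.coeff_add, hp, hq, ← Finset.sum_add_distrib]
        refine Finset.sum_congr rfl fun j _ => ?_
        rw [map_add, map_add, C_add]
        ring
      | mul_X p l hp =>
        rw [map_mul, Th_X, ← mul_assoc, Polynomial.coeff_mul_X, Polynomial.coeff_mul_C,
          Th_coeff_zero, Finset.sum_eq_single l]
        · rw [Derivation.leibniz, pderiv_X_self]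
          simp
        · intro j _ hj
          rw [Derivation.leibniz, pderiv_X_of_ne hj.symm]
          simp
        · simp
    exact h1 _
  -- the action on the normal space is trivial
  have htriv : ∀ v, 𝓢.y (actT A v) = 𝓢.y v := by
    intro v
    have h1 : ∀ (u : Ix N d → k) i, eval u (Gr.lf 1 (T i) f) =
        (Matrix.of fun i j => eval 0 (pderiv j (𝓢.res (T i)))).mulVec (𝓢.y u) i := by
      intro u i
      rw [← hpl, eval_pl, ← Th_res, hlin, map_sum]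
      refine Finset.sum_congr rfl fun j _ => ?_
      rw [map_mul, eval_C, eval_X]
      rfl
    have h2 : (Matrix.of fun i j => eval 0 (pderiv j (𝓢.res (T i)))).mulVec
        (𝓢.y (actT A v) - 𝓢.y v) = 0 := by
      rw [Matrix.mulVec_sub, sub_eq_zero]
      funext i
      rw [← h1, ← h1, hinv]
    by_contra hne
    exact hdet (Matrix.exists_mulVec_eq_zero_iff.mp ⟨_, sub_ne_zero.mpr hne, h2⟩)
  have h1 := cod hN hd hNZ A hA.1 hA.2 hns
  have h2 : WA f A = ⊤ := by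
    rw [eq_top_iff]
    intro v _
    rw [mem_WA, ← 𝓢.ker, map_sub, htriv, sub_self]
  rw [h2, finrank_top, Module.finrank_pi] at h1
  omega

end Slice

end

end Pool.Agent.R855.Sing
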