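import Pool.Agent.R855.Sing.FinS
import Pool.Agent.R855.Sing.Jac

/-!
Linear slices of orbits.
-/

open MvPolynomial

namespace Pool.Agent.R855.Sing

open Pool.Agent.Helper819.Apolar Pool.Agent.Helper819.Dyn Pool.Agent.Helper819

noncomputable section

set_option linter.unusedSectionVars false

variable {k : Type} [Field k] {N d : ℕ}

theorem mat_ext {m : ℕ} {A B : Matrix (Fin m) (Fin m) k} (h : ∀ v, A.mulVec v = B.mulVec v) :
    A = B := by
  apply Matrix.toLin'.injective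
  apply LinearMap.ext
  intro v
  rw [Matrix.toLin'_apply, Matrix.toLin'_apply]
  exact h v

/-- A linear slice. -/
structure Slice (f : Ix N d → k) where
  n : ℕ
  y : (Ix N d → k) →ₗ[k] (Fin n → k)
  s : (Fin n → k) →ₗ[k] (Ix N d → k)
  ys : ∀ x, y (s x) = x
  ker : ∀ v, y v = 0 ↔ v ∈ Tn f

theorem exists_Slice (f : Ix N d → k) : Nonempty (Slice f) := by
  let b := Module.finBasis k ((Ix N d → k) ⧸ Tn f)
  let e : ((Ix N d → k) ⧸ Tn f) ≃ₗ[k] (Fin (Module.finrank k ((Ix N d → k) ⧸ Tn f)) → k) :=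
    b.equivFun
  let y : (Ix N d → k) →ₗ[k] (Fin (Module.finrank k ((Ix N d → k) ⧸ Tn f)) → k) :=
    e.toLinearMap ∘ₗ (Tn f).mkQ
  have hy : Function.Surjective y := e.surjective.comp (Submodule.mkQ_surjective _)
  obtain ⟨s, hs⟩ := LinearMap.exists_rightInverse_of_surjective y (LinearMap.range_eq_top.mpr hy)
  refine ⟨⟨_, y, s, fun x => LinearMap.congr_fun hs x, fun v => ?_⟩⟩
  change e ((Tn f).mkQ v) = 0 ↔ _
  rw [LinearEquiv.map_eq_zero_iff]
  exact Submodule.Quotient.mk_eq_zero _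

variable {f : Ix N d → k} (𝓢 : Slice f)

namespace Slice

theorem y_xi (Y : Matrix (Fin (N + 1)) (Fin (N + 1)) k) : 𝓢.y (Dyn.xi Y f) = 0 :=
  (𝓢.ker _).mpr ⟨Y, rfl⟩

theorem sub_mem (v : Ix N d → k) : v - 𝓢.s (𝓢.y v) ∈ Tn f := by
  rw [← 𝓢.ker, map_sub, 𝓢.ys, sub_self]

/-- the slice as a vector of linear forms -/
def sl (p : Ix N d) : MvPolynomial (Fin 𝓢.n) k := ∑ i, C (𝓢.s (Pi.single i 1) p) * X i

theorem eval_sl (x : Fin 𝓢.n → k) (p : Ix N d) : eval x (𝓢.sl p) = 𝓢.s x p := by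
  unfold sl
  rw [map_sum]
  conv_rhs => rw [pi_eq_sum_univ' x, map_sum, Finset.sum_apply]
  refine Finset.sum_congr rfl fun i _ => ?_
  rw [map_mul, eval_C, eval_X, map_smul, Pi.smul_apply, smul_eq_mul, mul_comm]

/-- restriction to the slice -/
def res : MvPolynomial (Ix N d) k →ₐ[k] MvPolynomial (Fin 𝓢.n) k :=
  aeval (fun p => C (f p) + 𝓢.sl p)

theorem eval_res (x : Fin 𝓢.n → k) (P : MvPolynomial (Ix N d) k) :
    eval x (𝓢.res P) = eval (f + 𝓢.s x) P := by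
  have h1 : (eval x).comp (𝓢.res : MvPolynomial (Ix N d) k →ₐ[k] _).toRingHom =
      eval (f + 𝓢.s x) := by
    apply MvPolynomial.ringHom_ext
    · intro a
      change eval x (𝓢.res (C a)) = _
      unfold res
      rw [algHom_C]
      simp
    · intro i
      change eval x (𝓢.res (X i)) = _
      unfold res
      rw [aeval_X, map_add, eval_C, eval_sl, eval_X]
      rfl
  exact congrArg (fun φ => φ P) h1

theorem eval_res_zero (P : MvPolynomial (Ix N d) k) : eval 0 (𝓢.res P) = eval f P := by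
  rw [eval_res, map_zero, add_zero]

theorem Th_res (P : MvPolynomial (Ix N d) k) (j : ℕ) :
    (Th (𝓢.res P)).coeff j = aeval 𝓢.sl (Gr.lf j P f) := by
  rw [Gr.aeval_lf]
  congr 1
  have h1 : (Th : MvPolynomial (Fin 𝓢.n) k →ₐ[k] _).comp 𝓢.res =
      Gr.tayl (fun p => algebraMap k (MvPolynomial (Fin 𝓢.n) k) (f p)) 𝓢.sl := by
    apply algHom_ext
    intro p
    rw [AlgHom.comp_apply]
    unfold res Gr.tayl
    rw [aeval_X, aeval_X, map_add, Th_C]
    congr 1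
    unfold sl
    rw [map_sum, map_sum, Finset.mul_sum]
    refine Finset.sum_congr rfl fun i _ => ?_
    rw [map_mul, Th_C, Th_X, map_mul]
    ring
  exact congrArg (fun φ => φ P) h1

theorem Lo_res {j : ℕ} {P : MvPolynomial (Ix N d) k} (h : Gr.Ord j P f) :
    Lo j (𝓢.res P) (aeval 𝓢.sl (Gr.lf j P f)) :=
  ⟨fun i hi => by rw [Th_res, h i hi, map_zero], 𝓢.Th_res P j⟩

/-- the coordinates on the normal space as linear forms -/
def yl (i : Fin 𝓢.n) : MvPolynomial (Ix N d) k := ∑ p, C (𝓢.y (Pi.single p 1) i) * X p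

theorem eval_yl (v : Ix N d → k) (i : Fin 𝓢.n) : eval v (𝓢.yl i) = 𝓢.y v i := by
  unfold yl
  rw [map_sum]
  conv_rhs => rw [pi_eq_sum_univ' v, map_sum, Finset.sum_apply]
  refine Finset.sum_congr rfl fun p _ => ?_
  rw [map_mul, eval_C, eval_X, map_smul, Pi.smul_apply, smul_eq_mul, mul_comm]

/-- pull back of a polynomial on the normal space -/
def pl : MvPolynomial (Fin 𝓢.n) k →ₐ[k] MvPolynomial (Ix N d) k := aeval 𝓢.yl

theorem eval_pl (v : Ix N d → k) (h : MvPolynomial (Fin 𝓢.n) k) :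
    eval v (𝓢.pl h) = eval (𝓢.y v) h := by
  have h1 : (eval v).comp (𝓢.pl : MvPolynomial (Fin 𝓢.n) k →ₐ[k] _).toRingHom =
      eval (𝓢.y v) := by
    apply MvPolynomial.ringHom_ext
    · intro a
      change eval v (𝓢.pl (C a)) = _
      unfold pl
      rw [algHom_C]
      simp
    · intro i
      change eval v (𝓢.pl (X i)) = _
      unfold pl
      rw [aeval_X, eval_yl, eval_X]
  exact congrArg (fun φ => φ h) h1

theorem pl_homog {h : MvPolynomial (Fin 𝓢.n) k} {j : ℕ} (hh : h.IsHomogeneous j) :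
    (𝓢.pl h).IsHomogeneous j := by
  have := hh.aeval 𝓢.yl (n := 1) (by
    intro i
    refine IsHomogeneous.sum _ _ _ fun p _ => ?_
    exact isHomogeneous_C_mul_X _ _)
  rwa [one_mul] at this

theorem eval_aeval_sl (x : Fin 𝓢.n → k) (Q : MvPolynomial (Ix N d) k) :
    eval x (aeval 𝓢.sl Q) = eval (𝓢.s x) Q := by
  have h1 : (eval x).comp (aeval 𝓢.sl : MvPolynomial (Ix N d) k →ₐ[k] _).toRingHom =
      eval (𝓢.s x) := by
    apply MvPolynomial.ringHom_ext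
    · intro a
      change eval x (aeval 𝓢.sl (C a)) = _
      rw [algHom_C]
      simp
    · intro i
      change eval x (aeval 𝓢.sl (X i)) = _
      rw [aeval_X, eval_sl, eval_X]
  exact congrArg (fun φ => φ Q) h1

theorem sl_pl [Infinite k] (h : MvPolynomial (Fin 𝓢.n) k) : aeval 𝓢.sl (𝓢.pl h) = h := by
  apply MvPolynomial.funext
  intro x
  rw [eval_aeval_sl, eval_pl, 𝓢.ys]

/-- A polynomial invariant under tangential translations comes from the normal space. -/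
theorem pl_sl [Infinite k] {Q : MvPolynomial (Ix N d) k}
    (hQ : ∀ (Y : Matrix (Fin (N + 1)) (Fin (N + 1)) k) (v : Ix N d → k),
      eval (v + Dyn.xi Y f) Q = eval v Q) : 𝓢.pl (aeval 𝓢.sl Q) = Q := by
  apply MvPolynomial.funext
  intro v
  rw [eval_pl, eval_aeval_sl]
  obtain ⟨Y, hY⟩ := (mem_Tn _ _).mp (𝓢.sub_mem v)
  have h1 := hQ Y (𝓢.s (𝓢.y v))
  rw [hY, add_sub_cancel] at h1
  exact h1.symm

end Slice

/-- the stabiliser -/
def Stab (f : Ix N d → k) : Set (Matrix (Fin (N + 1)) (Fin (N + 1)) k) :=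
  {A | A.det ≠ 0 ∧ actT A f = f}

theorem mem_Stab (f : Ix N d → k) (A : Matrix (Fin (N + 1)) (Fin (N + 1)) k) :
    A ∈ Stab f ↔ A.det ≠ 0 ∧ actT A f = f := Iff.rfl

theorem Stab_inv {A : Matrix (Fin (N + 1)) (Fin (N + 1)) k} (hA : A ∈ Stab f) :
    A⁻¹ ∈ Stab f := by
  obtain ⟨h1, h2⟩ := hA
  have hu : IsUnit A.det := isUnit_iff_ne_zero.mpr h1
  refine ⟨?_, ?_⟩
  · rw [Matrix.det_nonsing_inv, Ring.inverse_eq_inv']
    exact inv_ne_zero h1
  · conv_lhs => rw [← h2]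
    rw [actT_actT, Matrix.mul_nonsing_inv _ hu, actT_one]

theorem Stab_mul {A B : Matrix (Fin (N + 1)) (Fin (N + 1)) k} (hA : A ∈ Stab f)
    (hB : B ∈ Stab f) : A * B ∈ Stab f := by
  refine ⟨?_, ?_⟩
  · rw [Matrix.det_mul]
    exact mul_ne_zero hA.1 hB.1
  · rw [← actT_actT, hA.2, hB.2]

theorem Tn_stab {A : Matrix (Fin (N + 1)) (Fin (N + 1)) k} (hA : A ∈ Stab f)
    {v : Ix N d → k} (hv : v ∈ Tn f) : actT A v ∈ Tn f := by
  have h1 := Tn_stable (Matrix.mul_nonsing_inv A (isUnit_iff_ne_zero.mpr hA.1)) hv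
  rwa [hA.2] at h1

namespace Slice

theorem y_act {A : Matrix (Fin (N + 1)) (Fin (N + 1)) k} (hA : A ∈ Stab f)
    (v : Ix N d → k) : 𝓢.y (actT A v) = 𝓢.y (actT A (𝓢.s (𝓢.y v))) := by
  rw [← sub_eq_zero, ← map_sub, 𝓢.ker]
  have h1 : actT A v - actT A (𝓢.s (𝓢.y v)) = actT A (v - 𝓢.s (𝓢.y v)) :=
    (map_sub (actL A) _ _).symm
  rw [h1]
  exact Tn_stab hA (𝓢.sub_mem v)

/-- the induced group on the normal space -/
def grp : Subgroup (GL (Fin 𝓢.n) k) where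
  carrier := {g | ∃ A ∈ Stab f, ∀ v, 𝓢.y (actT A v) =
    (g : Matrix (Fin 𝓢.n) (Fin 𝓢.n) k).mulVec (𝓢.y v)}
  one_mem' := ⟨1, ⟨by rw [Matrix.det_one]; exact one_ne_zero, actT_one f⟩, fun v => by
    rw [actT_one]; simp⟩
  mul_mem' := by
    rintro a b ⟨A, hA, ha⟩ ⟨B, hB, hb⟩
    refine ⟨B * A, Stab_mul hB hA, fun v => ?_⟩
    rw [← actT_actT, ha, hb, Matrix.mulVec_mulVec]
    rfl
  inv_mem' := by
    rintro a ⟨A, hA, ha⟩
    refine ⟨A⁻¹, Stab_inv hA, fun v => ?_⟩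
    have h1 := ha (actT A⁻¹ v)
    have h2 : actT A (actT A⁻¹ v) = v := by
      rw [actT_actT, Matrix.nonsing_inv_mul _ (isUnit_iff_ne_zero.mpr hA.1), actT_one]
    rw [h2] at h1
    rw [h1, Matrix.mulVec_mulVec]
    have h3 : ((a⁻¹ : GL (Fin 𝓢.n) k) : Matrix (Fin 𝓢.n) (Fin 𝓢.n) k) *
        (a : Matrix (Fin 𝓢.n) (Fin 𝓢.n) k) = 1 := a.inv_mul
    rw [h3, Matrix.one_mulVec]

theorem mem_grp (g : GL (Fin 𝓢.n) k) : g ∈ 𝓢.grp ↔ ∃ A ∈ Stab f, ∀ v, 𝓢.y (actT A v) =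
    (g : Matrix (Fin 𝓢.n) (Fin 𝓢.n) k).mulVec (𝓢.y v) := Iff.rfl

/-- every element of the stabiliser induces an element of the group -/
theorem exists_grp {A : Matrix (Fin (N + 1)) (Fin (N + 1)) k} (hA : A ∈ Stab f) :
    ∃ g ∈ 𝓢.grp, ∀ v, 𝓢.y (actT A v) = (g : Matrix (Fin 𝓢.n) (Fin 𝓢.n) k).mulVec (𝓢.y v) := by
  let bar : Matrix (Fin (N + 1)) (Fin (N + 1)) k → Matrix (Fin 𝓢.n) (Fin 𝓢.n) k := fun A =>
    LinearMap.toMatrix' (𝓢.y ∘ₗ actL A ∘ₗ 𝓢.s)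
  have hbar : ∀ A ∈ Stab f, ∀ v, 𝓢.y (actT A v) = (bar A).mulVec (𝓢.y v) := by
    intro A hA v
    rw [𝓢.y_act hA]
    change _ = Matrix.mulVec (LinearMap.toMatrix' (𝓢.y ∘ₗ actL A ∘ₗ 𝓢.s)) _
    rw [LinearMap.toMatrix'_mulVec]
    rfl
  have hmul : ∀ A B, A ∈ Stab f → B ∈ Stab f → bar A * bar B = bar (B * A) := by
    intro A B hA hB
    apply mat_ext
    intro x
    rw [← Matrix.mulVec_mulVec]
    have h1 : x = 𝓢.y (𝓢.s x) := (𝓢.ys x).symm
    conv_lhs => rw [h1]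
    conv_rhs => rw [h1]
    rw [← hbar B hB, ← hbar A hA, ← hbar (B * A) (Stab_mul hB hA), ← actT_actT]
  have hone : bar 1 = 1 := by
    apply mat_ext
    intro x
    have h1 : x = 𝓢.y (𝓢.s x) := (𝓢.ys x).symm
    conv_lhs => rw [h1]
    rw [← hbar 1 ⟨by rw [Matrix.det_one]; exact one_ne_zero, actT_one f⟩, actT_one, 𝓢.ys,
      Matrix.one_mulVec]
  have hu : IsUnit A.det := isUnit_iff_ne_zero.mpr hA.1
  let g : GL (Fin 𝓢.n) k := ⟨bar A, bar A⁻¹, by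
    rw [hmul A A⁻¹ hA (Stab_inv hA), Matrix.nonsing_inv_mul _ hu, hone], by
    rw [hmul A⁻¹ A (Stab_inv hA) hA, Matrix.mul_nonsing_inv _ hu, hone]⟩
  exact ⟨g, ⟨A, hA, hbar A hA⟩, hbar A hA⟩

theorem grp_ext {g g' : GL (Fin 𝓢.n) k}
    (h : ∀ x, (g : Matrix (Fin 𝓢.n) (Fin 𝓢.n) k).mulVec x =
      (g' : Matrix (Fin 𝓢.n) (Fin 𝓢.n) k).mulVec x) : g = g' := by
  apply Units.ext
  apply mat_ext
  exact h

end Slice

end

end Pool.Agent.R855.Sing
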