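import Mathlib

/-!
Expansion of polynomials by degree.
-/

open MvPolynomial

namespace Pool.Agent.R855.Sing

noncomputable section

variable {k : Type} [Field k] {n : ℕ}

/-- expansion by degree: `p(t x)` -/
def Th : MvPolynomial (Fin n) k →ₐ[k] Polynomial (MvPolynomial (Fin n) k) :=
  aeval (fun i => Polynomial.C (X i) * Polynomial.X)

theorem Th_X (i : Fin n) : Th (X i : MvPolynomial (Fin n) k) = Polynomial.C (X i) * Polynomial.X :=
  aeval_X _ _

theorem Th_C (a : k) : Th (C a : MvPolynomial (Fin n) k) = Polynomial.C (C a) := by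
  unfold Th
  rw [algHom_C]
  rfl

theorem Th_monomial (m : Fin n →₀ ℕ) (a : k) :
    Th (monomial m a) = Polynomial.C (monomial m a) * Polynomial.X ^ m.degree := by
  unfold Th
  rw [aeval_monomial, Finsupp.prod]
  simp only [mul_pow]
  rw [Finset.prod_mul_distrib, Finset.prod_pow_eq_pow_sum, monomial_eq, Finsupp.prod,
    Polynomial.C_mul, map_prod]
  simp only [map_pow]
  rw [mul_assoc]
  rfl

theorem Th_pderiv (j : Fin n) (p : MvPolynomial (Fin n) k) (i : ℕ) :
    (Th (pderiv j p)).coeff i = pderiv j ((Th p).coeff (i + 1)) := by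
  induction p using MvPolynomial.induction_on generalizing i with
  | C a => simp [Th_C, Polynomial.coeff_C]
  | add p q hp hq =>
    simp only [map_add, Polynomial.coeff_add, hp, hq]
  | mul_X p l hp =>
    have h1 : ∀ m, (Th (p * X l)).coeff (m + 1) = (Th p).coeff m * X l := by
      intro m
      rw [map_mul, Th_X, ← mul_assoc, Polynomial.coeff_mul_X, Polynomial.coeff_mul_C]
    have h2 : pderiv j (X l : MvPolynomial (Fin n) k) = C (if j = l then 1 else 0) := by
      split_ifs with h
      · subst h
        rw [pderiv_X_self, C_1]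
      · rw [pderiv_X_of_ne (fun h' => h h'.symm), C_0]
    rw [h1, Derivation.leibniz, Derivation.leibniz, smul_eq_mul, smul_eq_mul, smul_eq_mul,
      smul_eq_mul, h2, map_add, map_mul, map_mul, Th_C, Th_X, Polynomial.coeff_add,
      Polynomial.coeff_mul_C]
    congr 1
    rcases i with _ | i
    · rw [mul_assoc, Polynomial.coeff_C_mul, Polynomial.coeff_X_mul_zero, mul_zero]
      have h3 : (Th p).coeff 0 = C (eval 0 p) := by
        rw [Polynomial.coeff_zero_eq_eval_zero]
        have h1 : (Polynomial.evalRingHom (0 : MvPolynomial (Fin n) k)).comp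
            (Th : MvPolynomial (Fin n) k →ₐ[k] _).toRingHom =
              (C : k →+* MvPolynomial (Fin n) k).comp (eval 0) := by
          apply MvPolynomial.ringHom_ext
          · intro a
            change Polynomial.eval 0 (Th (C a)) = C (eval 0 (C a))
            rw [Th_C, Polynomial.eval_C, eval_C]
          · intro i
            change Polynomial.eval 0 (Th (X i)) = C (eval 0 (X i))
            rw [Th_X, Polynomial.eval_mul, Polynomial.eval_X, mul_zero, eval_X]
            simp
        exact congrArg (fun φ => φ p) h1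
      rw [h3, pderiv_C, mul_zero]
    · rw [mul_assoc, Polynomial.coeff_C_mul, Polynomial.coeff_X_mul, hp]

/-- `p` vanishes to order `e` with leading form `h` -/
def Lo (e : ℕ) (p h : MvPolynomial (Fin n) k) : Prop :=
  (∀ i < e, (Th p).coeff i = 0) ∧ (Th p).coeff e = h

theorem Lo.add {e : ℕ} {p q h h' : MvPolynomial (Fin n) k} (hp : Lo e p h) (hq : Lo e q h') :
    Lo e (p + q) (h + h') := by
  refine ⟨fun i hi => ?_, ?_⟩
  · rw [map_add, Polynomial.coeff_add, hp.1 i hi, hq.1 i hi, add_zero]
  · rw [map_add, Polynomial.coeff_add, hp.2, hq.2]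

theorem Lo.zero (e : ℕ) : Lo e (0 : MvPolynomial (Fin n) k) 0 :=
  ⟨fun i _ => by rw [map_zero, Polynomial.coeff_zero], by rw [map_zero, Polynomial.coeff_zero]⟩

theorem Lo.neg {e : ℕ} {p h : MvPolynomial (Fin n) k} (hp : Lo e p h) : Lo e (-p) (-h) := by
  refine ⟨fun i hi => ?_, ?_⟩
  · rw [map_neg, Polynomial.coeff_neg, hp.1 i hi, neg_zero]
  · rw [map_neg, Polynomial.coeff_neg, hp.2]

theorem Lo.sub {e : ℕ} {p q h h' : MvPolynomial (Fin n) k} (hp : Lo e p h) (hq : Lo e q h') :
    Lo e (p - q) (h - h') := by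
  rw [sub_eq_add_neg, sub_eq_add_neg]
  exact hp.add hq.neg

theorem Lo.mul {e e' : ℕ} {p q h h' : MvPolynomial (Fin n) k} (hp : Lo e p h) (hq : Lo e' q h') :
    Lo (e + e') (p * q) (h * h') := by
  refine ⟨fun i hi => ?_, ?_⟩
  · rw [map_mul, Polynomial.coeff_mul]
    apply Finset.sum_eq_zero
    rintro ⟨a, b⟩ hab
    have hab : a + b = i := Finset.HasAntidiagonal.mem_antidiagonal.mp hab
    by_cases ha : a < e
    · rw [hp.1 a ha, zero_mul]
    · rw [hq.1 b (by omega), mul_zero]
  · rw [map_mul, Polynomial.coeff_mul, Finset.sum_eq_single (e, e'), hp.2, hq.2]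
    · rintro ⟨a, b⟩ hab hne
      have hab : a + b = e + e' := Finset.HasAntidiagonal.mem_antidiagonal.mp hab
      by_cases ha : a < e
      · rw [hp.1 a ha, zero_mul]
      · by_cases hb : b < e'
        · rw [hq.1 b hb, mul_zero]
        · exfalso
          apply hne
          rw [Prod.mk.injEq]
          omega
    · intro h
      exact absurd (Finset.HasAntidiagonal.mem_antidiagonal.mpr
        (rfl : e + e' = e + e')) h

theorem Lo.one : Lo 0 (1 : MvPolynomial (Fin n) k) 1 := by
  refine ⟨fun i hi => absurd hi (Nat.not_lt_zero _), ?_⟩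
  rw [map_one, Polynomial.coeff_one_zero]

theorem Th_coeff_zero (p : MvPolynomial (Fin n) k) : (Th p).coeff 0 = C (eval 0 p) := by
  rw [Polynomial.coeff_zero_eq_eval_zero]
  have h1 : (Polynomial.evalRingHom (0 : MvPolynomial (Fin n) k)).comp
      (Th : MvPolynomial (Fin n) k →ₐ[k] _).toRingHom = (C : k →+* MvPolynomial (Fin n) k).comp
        (eval 0) := by
    apply MvPolynomial.ringHom_ext
    · intro a
      change Polynomial.eval 0 (Th (C a)) = C (eval 0 (C a))
      rw [Th_C, Polynomial.eval_C, eval_C]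
    · intro i
      change Polynomial.eval 0 (Th (X i)) = C (eval 0 (X i))
      rw [Th_X, Polynomial.eval_mul, Polynomial.eval_X, mul_zero, eval_X]
      simp
  exact congrArg (fun φ => φ p) h1

theorem Lo.const (p : MvPolynomial (Fin n) k) : Lo 0 p (C (eval 0 p)) :=
  ⟨fun i hi => absurd hi (Nat.not_lt_zero _), Th_coeff_zero p⟩

theorem Lo.prod {ι : Type} (s : Finset ι) (e : ι → ℕ) (p h : ι → MvPolynomial (Fin n) k)
    (hp : ∀ i ∈ s, Lo (e i) (p i) (h i)) : Lo (∑ i ∈ s, e i) (∏ i ∈ s, p i) (∏ i ∈ s, h i) := by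
  classical
  induction s using Finset.induction_on with
  | empty => simpa using Lo.one
  | insert a s ha ih =>
    rw [Finset.sum_insert ha, Finset.prod_insert ha, Finset.prod_insert ha]
    exact (hp a (Finset.mem_insert_self _ _)).mul
      (ih fun i hi => hp i (Finset.mem_insert_of_mem hi))

theorem Lo.sum {ι : Type} (s : Finset ι) (e : ℕ) (p h : ι → MvPolynomial (Fin n) k)
    (hp : ∀ i ∈ s, Lo e (p i) (h i)) : Lo e (∑ i ∈ s, p i) (∑ i ∈ s, h i) := by
  classical
  induction s using Finset.induction_on with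
  | empty => simpa using Lo.zero e
  | insert a s ha ih =>
    rw [Finset.sum_insert ha, Finset.sum_insert ha]
    exact (hp a (Finset.mem_insert_self _ _)).add
      (ih fun i hi => hp i (Finset.mem_insert_of_mem hi))

theorem Lo.det {m : ℕ} (e : Fin m → ℕ) (M H : Matrix (Fin m) (Fin m) (MvPolynomial (Fin n) k))
    (h : ∀ i j, Lo (e i) (M i j) (H i j)) : Lo (∑ i, e i) M.det H.det := by
  rw [← Matrix.det_transpose M, ← Matrix.det_transpose H, Matrix.det_apply, Matrix.det_apply]
  apply Lo.sum
  intro s _
  have h1 : Lo (∑ i, e i) (∏ i, M.transpose (s i) i) (∏ i, H.transpose (s i) i) :=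
    Lo.prod _ _ _ _ fun i _ => h i (s i)
  rcases Int.units_eq_one_or (Equiv.Perm.sign s) with h2 | h2
  · rw [h2, one_smul, one_smul]; exact h1
  · rw [h2, Units.neg_smul, Units.neg_smul, one_smul, one_smul]; exact h1.neg

theorem Lo.pderiv {e : ℕ} {p h : MvPolynomial (Fin n) k} (hp : Lo (e + 1) p h) (j : Fin n) :
    Lo e (pderiv j p) (pderiv j h) :=
  ⟨fun i hi => by rw [Th_pderiv, hp.1 _ (by omega), map_zero], by rw [Th_pderiv, hp.2]⟩

theorem Lo.lower {e : ℕ} {p h : MvPolynomial (Fin n) k} (hp : Lo (e + 1) p h) : Lo e p 0 :=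
  ⟨fun i hi => hp.1 i (by omega), hp.1 e (by omega)⟩

/-- lowest homogeneous part -/
def L (p : MvPolynomial (Fin n) k) : MvPolynomial (Fin n) k := (Th p).trailingCoeff

theorem L_mul (p q : MvPolynomial (Fin n) k) : L (p * q) = L p * L q := by
  unfold L
  rw [map_mul, Polynomial.trailingCoeff_mul]

theorem Lo.L {e : ℕ} {p h : MvPolynomial (Fin n) k} (hp : Lo e p h) (hh : h ≠ 0) : L p = h := by
  have h1 : (Th p).natTrailingDegree = e := by
    apply le_antisymm
    · apply Polynomial.natTrailingDegree_le_of_ne_zero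
      rw [hp.2]
      exact hh
    · by_contra hcon
      push Not at hcon
      have h2 := hp.1 _ hcon
      have h3 : Th p ≠ 0 := by
        intro h0
        apply hh
        rw [← hp.2, h0, Polynomial.coeff_zero]
      exact (Polynomial.trailingCoeff_nonzero_iff_nonzero.mpr h3) h2
  unfold Sing.L Polynomial.trailingCoeff
  rw [h1, hp.2]

theorem L_pow (p : MvPolynomial (Fin n) k) (m : ℕ) : L (p ^ m) = L p ^ m := by
  induction m with
  | zero =>
    rw [pow_zero, pow_zero]
    exact Lo.one.L one_ne_zero
  | succ m ih => rw [pow_succ, L_mul, ih, pow_succ]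

theorem L_zero : L (0 : MvPolynomial (Fin n) k) = 0 := by
  unfold L
  rw [map_zero, Polynomial.trailingCoeff_zero]

/-- the lowest part is homogeneous, in the sense of `Lo` -/
theorem exists_Lo {p : MvPolynomial (Fin n) k} (hp : p ≠ 0) :
    ∃ e, Lo e p (L p) ∧ L p ≠ 0 := by
  have h3 : Th p ≠ 0 := by
    intro h0
    apply hp
    have h1 : (Polynomial.evalRingHom (1 : MvPolynomial (Fin n) k)).comp
        (Th : MvPolynomial (Fin n) k →ₐ[k] _).toRingHom = RingHom.id _ := by
      apply MvPolynomial.ringHom_ext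
      · intro a
        change Polynomial.eval 1 (Th (C a)) = C a
        rw [Th_C, Polynomial.eval_C]
      · intro i
        change Polynomial.eval 1 (Th (X i)) = X i
        rw [Th_X, Polynomial.eval_mul, Polynomial.eval_X, mul_one, Polynomial.eval_C]
    have h2 := congrArg (fun φ => φ p) h1
    change Polynomial.eval 1 (Th p) = p at h2
    rw [← h2, h0, Polynomial.eval_zero]
  refine ⟨(Th p).natTrailingDegree, ⟨fun i hi => ?_, rfl⟩,
    Polynomial.trailingCoeff_nonzero_iff_nonzero.mpr h3⟩
  exact Polynomial.coeff_eq_zero_of_lt_natTrailingDegree hi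

theorem eval_Th (t : k) (x : Fin n → k) (p : MvPolynomial (Fin n) k) :
    eval (t • x) p = eval x ((Th p).eval (C t)) := by
  have h1 : (eval x).comp ((Polynomial.evalRingHom (C t : MvPolynomial (Fin n) k)).comp
      (Th : MvPolynomial (Fin n) k →ₐ[k] _).toRingHom) = eval (t • x) := by
    apply MvPolynomial.ringHom_ext
    · intro a
      change eval x (Polynomial.eval (C t) (Th (C a))) = eval (t • x) (C a)
      rw [Th_C, Polynomial.eval_C, eval_C, eval_C]
    · intro i
      change eval x (Polynomial.eval (C t) (Th (X i))) = eval (t • x) (X i)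
      rw [Th_X, Polynomial.eval_mul, Polynomial.eval_X, Polynomial.eval_C, map_mul, eval_X,
        eval_C, eval_X, Pi.smul_apply, smul_eq_mul, mul_comm]
  exact (congrArg (fun φ => φ p) h1).symm

/-- The coefficients of the expansion are homogeneous. -/
theorem Th_homog (p : MvPolynomial (Fin n) k) (i : ℕ) : ((Th p).coeff i).IsHomogeneous i := by
  induction p using MvPolynomial.induction_on generalizing i with
  | C a =>
    rw [Th_C, Polynomial.coeff_C]
    split_ifs with h
    · subst h
      exact isHomogeneous_C _ _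
    · exact isHomogeneous_zero _ _ _
  | add p q hp hq =>
    rw [map_add, Polynomial.coeff_add]
    exact (hp i).add (hq i)
  | mul_X p l hp =>
    rw [map_mul, Th_X, ← mul_assoc]
    rcases i with _ | i
    · rw [Polynomial.coeff_mul_X_zero]
      exact isHomogeneous_zero _ _ _
    · rw [Polynomial.coeff_mul_X, Polynomial.coeff_mul_C]
      exact (hp i).mul (isHomogeneous_X _ _)

theorem Lo_self {h : MvPolynomial (Fin n) k} {e : ℕ} (hh : h.IsHomogeneous e) : Lo e h h := by
  have h1 : Th h = Polynomial.C h * Polynomial.X ^ e := by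
    conv_lhs => rw [h.as_sum]
    conv_rhs => rw [h.as_sum]
    rw [map_sum, map_sum, Finset.sum_mul]
    refine Finset.sum_congr rfl fun m hm => ?_
    rw [Th_monomial]
    congr 2
    by_contra hne
    exact (mem_support_iff.mp hm) (hh.coeff_eq_zero hne)
  refine ⟨fun i hi => ?_, ?_⟩
  · rw [h1, Polynomial.coeff_C_mul, Polynomial.coeff_X_pow, if_neg (by omega), mul_zero]
  · rw [h1, Polynomial.coeff_C_mul, Polynomial.coeff_X_pow, if_pos rfl, mul_one]

end

end Pool.Agent.R855.Sing
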